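import Pool.Agent.FBR.Cl

/-!
# FBR/Ddc: `dd^c` on vector spaces

PROOF PLAN.  `ddc_apply` is by definition.  The second derivative is symmetric (`ContDiffAt.isSymmSndFDerivAt`,
`minSmoothness ℝ 2 = 2`).  `ddc_closed`: `fderiv ℝ (ddc φ) q u v w = (1/2) (D³φ u (I v) w - D³φ u (I w) v)`, `D³φ` symmetric in
all arguments (symmetric in the last two; and in the first two, because it is the second derivative of `fderiv ℝ φ`);
take the cyclic sum.  `ddc_comp`: `D²(φ ∘ k)(a, b) = D²φ(k'a, k'b) + Dφ(D²k(a, b))`, `k' = fderiv ℝ k q` commutes with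
`Complex.I •` and `D²k(I a, b) = I • D²k(a, b)`: `fderiv ℝ k = restrictScalars (fderiv ℂ k)` near `q`
(`DifferentiableAt.fderiv_restrictScalars`, `ContDiffAt ℂ ∞ k q` holds near `q`: `ContDiffAt.eventually` for finite order, or
`ContDiffAt.analyticAt`), then derive once more.  `ddc_mul`: Leibniz rule.
-/

set_option autoImplicit false

noncomputable section

open scoped ContDiff

namespace Pool.Agent.FBR

variable {H : Type*} [NormedAddCommGroup H] [NormedSpace ℂ H]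
  {H' : Type*} [NormedAddCommGroup H'] [NormedSpace ℂ H']

/-- the linear map `T ↦ (1/2) (T (I u) v - T (I v) u)` on bilinear forms -/
private def Ddc_L (H : Type*) [NormedAddCommGroup H] [NormedSpace ℂ H] : Bil H →L[ℝ] Bil H :=
  (1 / 2 : ℝ) • (((ContinuousLinearMap.compL ℝ H H (H →L[ℝ] ℝ)).flip
      (Complex.I • ContinuousLinearMap.id ℝ H)) -
    ((ContinuousLinearMap.flipₗᵢ ℝ H H ℝ).toContinuousLinearEquiv : Bil H →L[ℝ] Bil H).comp
      ((ContinuousLinearMap.compL ℝ H H (H →L[ℝ] ℝ)).flip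
      (Complex.I • ContinuousLinearMap.id ℝ H)))

/-- the flip of bilinear forms -/
private def Ddc_F (H : Type*) [NormedAddCommGroup H] [NormedSpace ℂ H] : Bil H →L[ℝ] Bil H :=
  ((ContinuousLinearMap.flipₗᵢ ℝ H H ℝ).toContinuousLinearEquiv : Bil H →L[ℝ] Bil H)

private lemma Ddc_clm {E F G : Type*} [NormedAddCommGroup E] [NormedSpace ℝ E]
    [NormedAddCommGroup F] [NormedSpace ℝ F] [NormedAddCommGroup G] [NormedSpace ℝ G]
    (L : E →L[ℝ] F) {f : G → E} {q : G} (hf : DifferentiableAt ℝ f q) (a : G) :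
    fderiv ℝ (fun x => L (f x)) q a = L (fderiv ℝ f q a) := by
  have h : HasFDerivAt (fun x => L (f x)) (L.comp (fderiv ℝ f q)) q :=
    L.hasFDerivAt.comp q hf.hasFDerivAt
  rw [h.fderiv, ContinuousLinearMap.comp_apply]

private lemma Ddc_eq (φ : H → ℝ) (q : H) : ddc φ q = Ddc_L H (fderiv ℝ (fderiv ℝ φ) q) := rfl

private lemma Ddc_symm {G F : Type*} [NormedAddCommGroup G] [NormedSpace ℝ G]
    [NormedAddCommGroup F] [NormedSpace ℝ F] {φ : G → F} {q : G} (hφ : ContDiffAt ℝ 2 φ q)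
    (u v : G) : fderiv ℝ (fderiv ℝ φ) q u v = fderiv ℝ (fderiv ℝ φ) q v u := by
  have h : IsSymmSndFDerivAt ℝ φ q := hφ.isSymmSndFDerivAt (by simp)
  exact h u v

private lemma Ddc_ev {G F : Type*} [NormedAddCommGroup G] [NormedSpace ℝ G]
    [NormedAddCommGroup F] [NormedSpace ℝ F] {φ : G → F} {q : G} (hφ : ContDiffAt ℝ 2 φ q) :
    ∀ᶠ x in nhds q, DifferentiableAt ℝ φ x := by
  have h := hφ.eventually (by simp)
  filter_upwards [h] with x hx
  exact hx.differentiableAt (by norm_num)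

private lemma Ddc_d1 {G F : Type*} [NormedAddCommGroup G] [NormedSpace ℝ G]
    [NormedAddCommGroup F] [NormedSpace ℝ F] {φ : G → F} {q : G} (hφ : ContDiffAt ℝ 2 φ q) :
    DifferentiableAt ℝ (fderiv ℝ φ) q := by
  have h : ContDiffAt ℝ 1 (fderiv ℝ φ) q := hφ.fderiv_right (by norm_num)
  exact h.differentiableAt (by norm_num)

theorem ddc_apply (φ : H → ℝ) (q u v : H) :
    ddc φ q u v = (1 / 2) * (fderiv ℝ (fderiv ℝ φ) q (Complex.I • u) v -
      fderiv ℝ (fderiv ℝ φ) q (Complex.I • v) u) := rfl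

theorem ddc_congr {φ ψ : H → ℝ} {q : H} (h : φ =ᶠ[nhds q] ψ) : ddc φ q = ddc ψ q := by
  rw [Ddc_eq, Ddc_eq, h.fderiv.fderiv_eq]

theorem ddc_self (φ : H → ℝ) (q u : H) :
    ddc φ q u (Complex.I • u) = (1 / 2) * (fderiv ℝ (fderiv ℝ φ) q u u +
      fderiv ℝ (fderiv ℝ φ) q (Complex.I • u) (Complex.I • u)) := by
  have h : Complex.I • Complex.I • u = -u := by
    rw [smul_smul, Complex.I_mul_I, neg_smul, one_smul]
  rw [ddc_apply, h, map_neg, neg_apply]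
  ring

theorem ddc_alt (φ : H → ℝ) (q u : H) : ddc φ q u u = 0 := by
  rw [ddc_apply, sub_self, mul_zero]

theorem ddc_I {φ : H → ℝ} {q : H} (hφ : ContDiffAt ℝ 2 φ q) (u v : H) :
    ddc φ q (Complex.I • u) (Complex.I • v) = ddc φ q u v := by
  have h : ∀ w : H, Complex.I • Complex.I • w = -w := by
    intro w
    rw [smul_smul, Complex.I_mul_I, neg_smul, one_smul]
  rw [ddc_apply, ddc_apply, h, h, map_neg, map_neg, neg_apply,
    neg_apply, Ddc_symm hφ u, Ddc_symm hφ v]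
  ring

theorem ddc_smooth {φ : H → ℝ} {q : H} (hφ : ContDiffAt ℝ ∞ φ q) : ContDiffAt ℝ ∞ (ddc φ) q := by
  have h1 : ContDiffAt ℝ ∞ (fderiv ℝ φ) q := hφ.fderiv_right (by norm_num)
  have h2 : ContDiffAt ℝ ∞ (fderiv ℝ (fderiv ℝ φ)) q := h1.fderiv_right (by norm_num)
  exact (ContinuousLinearMap.contDiff (E := Bil H) (F := Bil H) (Ddc_L H)).contDiffAt.comp q h2

theorem ddc_closed {φ : H → ℝ} {q : H} (hφ : ContDiffAt ℝ ∞ φ q) (u v w : H) : ext2 (ddc φ) q u v w = 0 := by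
  have h1 : ContDiffAt ℝ ∞ (fderiv ℝ φ) q := hφ.fderiv_right (by norm_num)
  have h2 : ContDiffAt ℝ ∞ (fderiv ℝ (fderiv ℝ φ)) q := h1.fderiv_right (by norm_num)
  have hd : DifferentiableAt ℝ (fderiv ℝ (fderiv ℝ φ)) q := h2.differentiableAt (by norm_num)
  have hf : ∀ a b c : H, fderiv ℝ (ddc φ) q a b c =
      (1 / 2) * (fderiv ℝ (fderiv ℝ (fderiv ℝ φ)) q a (Complex.I • b) c -
        fderiv ℝ (fderiv ℝ (fderiv ℝ φ)) q a (Complex.I • c) b) := by
    intro a b c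
    have h5 : fderiv ℝ (ddc φ) q a = Ddc_L H (fderiv ℝ (fderiv ℝ (fderiv ℝ φ)) q a) :=
      Ddc_clm (E := Bil H) (F := Bil H) (G := H) (Ddc_L H) (f := fderiv ℝ (fderiv ℝ φ))
        (q := q) hd a
    rw [h5]
    rfl
  have hs1 : ∀ a b c : H, fderiv ℝ (fderiv ℝ (fderiv ℝ φ)) q a b c =
      fderiv ℝ (fderiv ℝ (fderiv ℝ φ)) q b a c := by
    intro a b c
    rw [Ddc_symm (h1.of_le (by norm_cast)) a b]
  have hs2 : ∀ a b c : H, fderiv ℝ (fderiv ℝ (fderiv ℝ φ)) q a b c =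
      fderiv ℝ (fderiv ℝ (fderiv ℝ φ)) q a c b := by
    intro a b c
    have h4 : (fun x => Ddc_F H (fderiv ℝ (fderiv ℝ φ) x)) =ᶠ[nhds q]
        fun x => fderiv ℝ (fderiv ℝ φ) x := by
      have h5 : ContDiffAt ℝ 2 φ q := hφ.of_le (by norm_cast)
      filter_upwards [h5.eventually (by simp)] with x hx
      ext a b
      exact Ddc_symm hx b a
    have h6 := h4.fderiv_eq (𝕜 := ℝ)
    have h9 : fderiv ℝ (fun x => Ddc_F H (fderiv ℝ (fderiv ℝ φ) x)) q a =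
        Ddc_F H (fderiv ℝ (fderiv ℝ (fderiv ℝ φ)) q a) :=
      Ddc_clm (E := Bil H) (F := Bil H) (G := H) (Ddc_F H) (f := fderiv ℝ (fderiv ℝ φ))
        (q := q) hd a
    rw [h6] at h9
    have h8 := DFunLike.congr_fun (DFunLike.congr_fun h9 b) c
    exact h8
  have hs3 : ∀ a b c : H, fderiv ℝ (fderiv ℝ (fderiv ℝ φ)) q a b c =
      fderiv ℝ (fderiv ℝ (fderiv ℝ φ)) q c b a := by
    intro a b c
    rw [hs1 a b c, hs2 b a c, hs1 b c a]
  unfold ext2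
  rw [hf, hf, hf, hs3 u (Complex.I • v) w, hs3 u (Complex.I • w) v, hs3 v (Complex.I • u) w]
  ring

theorem ddc_add {φ ψ : H → ℝ} {q : H} (hφ : ContDiffAt ℝ 2 φ q) (hψ : ContDiffAt ℝ 2 ψ q) :
    ddc (fun x => φ x + ψ x) q = ddc φ q + ddc ψ q := by
  have h1 : fderiv ℝ (fun x => φ x + ψ x) =ᶠ[nhds q] fun x => fderiv ℝ φ x + fderiv ℝ ψ x := by
    filter_upwards [Ddc_ev hφ, Ddc_ev hψ] with x hx hy
    exact fderiv_fun_add hx hy
  rw [Ddc_eq, Ddc_eq, Ddc_eq, h1.fderiv_eq, fderiv_fun_add (Ddc_d1 hφ) (Ddc_d1 hψ), map_add]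

theorem ddc_smul (c : ℝ) {φ : H → ℝ} {q : H} (hφ : ContDiffAt ℝ 2 φ q) :
    ddc (fun x => c * φ x) q = c • ddc φ q := by
  have h1 : fderiv ℝ (fun x => c * φ x) =ᶠ[nhds q] fun x => c • fderiv ℝ φ x := by
    filter_upwards [Ddc_ev hφ] with x hx
    exact fderiv_const_mul hx c
  rw [Ddc_eq, Ddc_eq, h1.fderiv_eq, fderiv_fun_const_smul (Ddc_d1 hφ), map_smul]

private lemma Ddc_mul2 {φ ψ : H → ℝ} {q : H} (hφ : ContDiffAt ℝ 2 φ q) (hψ : ContDiffAt ℝ 2 ψ q)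
    (a b : H) :
    fderiv ℝ (fderiv ℝ (fun x => φ x * ψ x)) q a b =
      φ q * fderiv ℝ (fderiv ℝ ψ) q a b + ψ q * fderiv ℝ (fderiv ℝ φ) q a b
      + fderiv ℝ φ q a * fderiv ℝ ψ q b + fderiv ℝ ψ q a * fderiv ℝ φ q b := by
  have h1 : fderiv ℝ (fun x => φ x * ψ x) =ᶠ[nhds q]
      fun x => φ x • fderiv ℝ ψ x + ψ x • fderiv ℝ φ x := by
    filter_upwards [Ddc_ev hφ, Ddc_ev hψ] with x hx hy
    exact fderiv_mul hx hy
  have hp := (Ddc_ev hφ).self_of_nhds.hasFDerivAt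
  have hq := (Ddc_ev hψ).self_of_nhds.hasFDerivAt
  have h2 := (hp.smul (Ddc_d1 hψ).hasFDerivAt).add (hq.smul (Ddc_d1 hφ).hasFDerivAt)
  have h3 : HasFDerivAt (fun x => φ x • fderiv ℝ ψ x + ψ x • fderiv ℝ φ x) _ q := h2
  rw [h1.fderiv_eq, h3.fderiv]
  simp only [add_apply, smul_apply,
    ContinuousLinearMap.smulRight_apply, smul_eq_mul]
  ring

/-- Leibniz rule on the diagonal -/
theorem ddc_mul_self {φ ψ : H → ℝ} {q : H} (hφ : ContDiffAt ℝ 2 φ q) (hψ : ContDiffAt ℝ 2 ψ q) (u : H) :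
    ddc (fun x => φ x * ψ x) q u (Complex.I • u) = φ q * ddc ψ q u (Complex.I • u) +
      ψ q * ddc φ q u (Complex.I • u) + fderiv ℝ φ q u * fderiv ℝ ψ q u +
      fderiv ℝ φ q (Complex.I • u) * fderiv ℝ ψ q (Complex.I • u) := by
  rw [ddc_self, ddc_self, ddc_self, Ddc_mul2 hφ hψ, Ddc_mul2 hφ hψ]
  ring

private lemma Ddc_comp2 {G G' : Type*} [NormedAddCommGroup G] [NormedSpace ℝ G]
    [NormedAddCommGroup G'] [NormedSpace ℝ G'] {φ : G → ℝ} {k : G' → G} {q : G'}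
    (hφ : ContDiffAt ℝ 2 φ (k q)) (hk : ContDiffAt ℝ 2 k q) (a b : G') :
    fderiv ℝ (fderiv ℝ (φ ∘ k)) q a b =
      fderiv ℝ (fderiv ℝ φ) (k q) (fderiv ℝ k q a) (fderiv ℝ k q b)
      + fderiv ℝ φ (k q) (fderiv ℝ (fderiv ℝ k) q a b) := by
  have h1 : fderiv ℝ (φ ∘ k) =ᶠ[nhds q] fun x => (fderiv ℝ φ (k x)).comp (fderiv ℝ k x) := by
    filter_upwards [hk.continuousAt.eventually (Ddc_ev hφ), Ddc_ev hk] with x hx hy
    exact fderiv_comp x hx hy
  have hkd := (Ddc_ev hk).self_of_nhds.hasFDerivAt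
  have h2 : HasFDerivAt (fun x => fderiv ℝ φ (k x))
      ((fderiv ℝ (fderiv ℝ φ) (k q)).comp (fderiv ℝ k q)) q :=
    (Ddc_d1 hφ).hasFDerivAt.comp q hkd
  have h3 := h2.clm_comp (Ddc_d1 hk).hasFDerivAt
  rw [h1.fderiv_eq, h3.fderiv]
  simp only [add_apply, ContinuousLinearMap.comp_apply,
    ContinuousLinearMap.compL_apply, ContinuousLinearMap.flip_apply]
  ring

private lemma Ddc_holo1 {k : H' → H} {q : H'} (hk : ContDiffAt ℂ ∞ k q) (a : H') :
    fderiv ℝ k q (Complex.I • a) = Complex.I • fderiv ℝ k q a := by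
  rw [(hk.differentiableAt (by norm_num)).fderiv_restrictScalars ℝ]
  exact map_smul (fderiv ℂ k q) Complex.I a

private lemma Ddc_holo2 {k : H' → H} {q : H'} (hk : ContDiffAt ℂ ∞ k q) (a b : H') :
    fderiv ℝ (fderiv ℝ k) q (Complex.I • a) b = Complex.I • fderiv ℝ (fderiv ℝ k) q a b := by
  have hk2 : ContDiffAt ℂ 2 k q := hk.of_le (by norm_cast)
  have h1 : fderiv ℝ k =ᶠ[nhds q]
      fun x => ContinuousLinearMap.restrictScalarsL ℂ H' H ℝ ℝ (fderiv ℂ k x) := by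
    filter_upwards [hk2.eventually (by simp)] with x hx
    exact (hx.differentiableAt (by norm_num)).fderiv_restrictScalars ℝ
  have h2 : ContDiffAt ℂ 1 (fderiv ℂ k) q := hk2.fderiv_right (by norm_num)
  have h3 : HasFDerivAt (fderiv ℂ k) (fderiv ℂ (fderiv ℂ k) q) q :=
    (h2.differentiableAt (by norm_num)).hasFDerivAt
  have h4 : HasFDerivAt (fderiv ℂ k) ((fderiv ℂ (fderiv ℂ k) q).restrictScalars ℝ) q :=
    h3.restrictScalars ℝ
  have h5 : HasFDerivAt (fun x => ContinuousLinearMap.restrictScalarsL ℂ H' H ℝ ℝ (fderiv ℂ k x))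
      ((ContinuousLinearMap.restrictScalarsL ℂ H' H ℝ ℝ).comp
        ((fderiv ℂ (fderiv ℂ k) q).restrictScalars ℝ)) q :=
    (ContinuousLinearMap.restrictScalarsL ℂ H' H ℝ ℝ).hasFDerivAt.comp q h4
  rw [h1.fderiv_eq, h5.fderiv]
  show (fderiv ℂ (fderiv ℂ k) q (Complex.I • a)) b = Complex.I • (fderiv ℂ (fderiv ℂ k) q a) b
  rw [map_smul]
  rfl

/-- `dd^c` commutes with pull back under holomorphic maps -/
theorem ddc_comp {φ : H → ℝ} {k : H' → H} {q : H'} (hφ : ContDiffAt ℝ 2 φ (k q)) (hk : ContDiffAt ℂ ∞ k q) :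
    ddc (φ ∘ k) q = (ddc φ (k q)).bilinearComp (fderiv ℝ k q) (fderiv ℝ k q) := by
  have hkr : ContDiffAt ℝ 2 k q := (hk.restrict_scalars ℝ).of_le (by norm_cast)
  ext u v
  rw [ContinuousLinearMap.bilinearComp_apply, ddc_apply, ddc_apply, Ddc_comp2 hφ hkr,
    Ddc_comp2 hφ hkr, Ddc_holo1 hk, Ddc_holo1 hk, Ddc_holo2 hk, Ddc_holo2 hk,
    Ddc_symm hkr u v]
  ring

end Pool.Agent.FBR
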