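import Pool.Agent.FBR.Chg

/-!
# FBR/SmFn: smooth functions on `X`

PROOF PLAN.  `SmF.at`: near `q`, `φ ∘ g = (φ ∘ (chartAt E (g q)).symm) ∘ (chartAt E (g q) ∘ g)` (`g` is continuous at `q`,
`Hol`/`Sm` give the smoothness of the second map).  `SmF` at the point `x` gives smoothness only at the centre of the
chart at `x`; this is enough for all `x` (the chart at `g q` is used).  `fderiv_fun`: the chain rule.
`pou`: `X` is a real smooth manifold: `IsManifold 𝓘(ℝ, E) ∞ X` follows from `IsManifold 𝓘(ℂ, E) ω X` (transition maps: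
`ContDiffOn.restrict_scalars`; `isManifold_of_contDiffOn`), then `SmoothPartitionOfUnity.exists_isSubordinate` (`X` compact
Hausdorff is sigma-compact) for the open sets `O x`, `x : X`; `X` compact: take a finite subcover first, and index by it
(`IsCompact.elim_finite_subcover`), or use that a locally finite family on a compact space is finite.
`bump`: a smooth function which is `1` near `x` and has support in the open set `O`
(`SmoothBumpFunction`, or `exists_contMDiff_support...`; or `pou` for `O` and the complement of a small closed neighbourhood).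
-/

set_option autoImplicit false

noncomputable section

open scoped Manifold ContDiff

namespace Pool.Agent.FBR

variable {E X : Type*} [NormedAddCommGroup E] [NormedSpace ℂ E]
  [TopologicalSpace X] [ChartedSpace E X]
  {G : Type*} [NormedAddCommGroup G] [NormedSpace ℝ G]
  {F B : Type*} [NormedAddCommGroup F] [NormedSpace ℂ F] [TopologicalSpace B]
  [ChartedSpace F B]

private theorem SmFn_ev {G : Type*} [TopologicalSpace G] (φ : X → ℝ) {g : G → X} {q : G} (hg : ContinuousAt g q) :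
    φ ∘ g =ᶠ[nhds q] (φ ∘ (chartAt E (g q)).symm) ∘ (chartAt E (g q) ∘ g) := by
  have h : ∀ᶠ z in nhds q, g z ∈ (chartAt E (g q)).source :=
    hg.eventually ((chartAt E (g q)).open_source.mem_nhds (mem_chart_source E (g q)))
  filter_upwards [h] with z hz
  simp [Function.comp, (chartAt E (g q)).left_inv hz]

theorem SmF.at {φ : X → ℝ} (hφ : SmF E φ) {g : G → X} {q : G} (hg : Sm E g q) : ContDiffAt ℝ ∞ (φ ∘ g) q := by
  refine ContDiffAt.congr_of_eventuallyEq ?_ (SmFn_ev (E := E) φ hg.1)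
  exact ContDiffAt.comp q (hφ (g q)) hg.2

theorem SmF.continuous {φ : X → ℝ} (hφ : SmF E φ) : Continuous φ := by
  rw [continuous_iff_continuousAt]
  intro x
  have h := SmFn_ev (E := E) φ (g := id) (q := x) continuousAt_id
  have h1 : ContinuousAt ((φ ∘ (chartAt E x).symm) ∘ (chartAt E x ∘ id)) x :=
    ContinuousAt.comp (hφ x).continuousAt ((chartAt E x).continuousAt (mem_chart_source E x))
  exact h1.congr h.symm

theorem fderiv_fun {φ : X → ℝ} (hφ : SmF E φ) {g : G → X} {q : G} (hg : Sm E g q) :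
    fderiv ℝ (φ ∘ g) q = (dF E φ (g q)).comp (dvec E g q) := by
  have h1 := (SmFn_ev (E := E) φ hg.1).fderiv_eq (𝕜 := ℝ)
  refine h1.trans ?_
  exact fderiv_comp q ((hφ (g q)).differentiableAt (by simp)) (hg.2.differentiableAt (by simp))

theorem SmF.const (c : ℝ) : SmF E (fun _ : X => c) := by
  intro x
  exact contDiffAt_const

theorem SmF.add {φ ψ : X → ℝ} (hφ : SmF E φ) (hψ : SmF E ψ) : SmF E (fun x => φ x + ψ x) := by
  intro x
  exact (hφ x).add (hψ x)

theorem SmF.mul {φ ψ : X → ℝ} (hφ : SmF E φ) (hψ : SmF E ψ) : SmF E (fun x => φ x * ψ x) := by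
  intro x
  exact (hφ x).mul (hψ x)

theorem SmF.sum {ι : Type*} (s : Finset ι) {φ : ι → X → ℝ} (hφ : ∀ i ∈ s, SmF E (φ i)) :
    SmF E (fun x => ∑ i ∈ s, φ i x) := by
  intro x
  exact ContDiffAt.sum fun i hi => hφ i hi x

theorem dF_sum {ι : Type*} (s : Finset ι) {φ : ι → X → ℝ} (hφ : ∀ i ∈ s, SmF E (φ i)) (x : X) :
    dF E (fun x => ∑ i ∈ s, φ i x) x = ∑ i ∈ s, dF E (φ i) x := by
  exact fderiv_fun_sum fun i hi => (hφ i hi x).differentiableAt (by simp)

theorem dF_const (c : ℝ) (x : X) : dF E (fun _ : X => c) x = 0 := by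
  exact fderiv_const_apply c

/-- the differential vanishes off the support -/
theorem dF_eq_zero {φ : X → ℝ} {x : X} (hx : x ∉ tsupport φ) : dF E φ x = 0 := by
  have h1 : φ =ᶠ[nhds x] 0 := notMem_tsupport_iff_eventuallyEq.1 hx
  have h2 : Filter.Tendsto (chartAt E x).symm (nhds (chartAt E x x)) (nhds x) := by
    have h := (chartAt E x).continuousAt_symm (mem_chart_target E x)
    rwa [ContinuousAt, (chartAt E x).left_inv (mem_chart_source E x)] at h
  have h3 : φ ∘ (chartAt E x).symm =ᶠ[nhds (chartAt E x x)] fun _ => (0 : ℝ) := h2.eventually h1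
  unfold dF
  rw [h3.fderiv_eq]
  exact fderiv_const_apply 0

section Mfd

variable [IsManifold 𝓘(ℂ, E) ω X] [IsManifold 𝓘(ℂ, F) ω B]

theorem SmF.comp_holo {φ : B → ℝ} (hφ : SmF F φ) {f : X → B} (hf : ContMDiff 𝓘(ℂ, E) 𝓘(ℂ, F) ω f) :
    SmF E (φ ∘ f) := by
  intro x
  have h1 : Sm F (f ∘ (chartAt E x).symm) (chartAt E x x) :=
    sm_comp hf (hol_symm (mem_chart_target E x)).sm
  exact hφ.at h1

theorem dF_holo {φ : B → ℝ} (hφ : SmF F φ) {f : X → B} (hf : ContMDiff 𝓘(ℂ, E) 𝓘(ℂ, F) ω f) (x : X) :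
    dF E (φ ∘ f) x = (dF F φ (f x)).comp (dmap E F f x) := by
  have hs : Sm E (chartAt E x).symm (chartAt E x x) := (hol_symm (mem_chart_target E x)).sm
  have hx : (chartAt E x).symm (chartAt E x x) = x := (chartAt E x).left_inv (mem_chart_source E x)
  have h1 : Sm F (f ∘ (chartAt E x).symm) (chartAt E x x) := sm_comp hf hs
  have h2 := fderiv_fun hφ h1
  have h3 : (f ∘ (chartAt E x).symm) (chartAt E x x) = f x := congrArg f hx
  rw [dvec_holo hf hs, dvec_symm_self, h3, hx, ContinuousLinearMap.comp_id] at h2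
  exact h2

/-- smoothness in terms of parametrizations -/
theorem smF_of_par [FiniteDimensional ℂ E] [FiniteDimensional ℝ G] {φ : X → ℝ}
    (h : ∀ x, ∃ (g : G → X) (O : Set G), IsOpen O ∧ (∃ q0 ∈ O, g q0 = x) ∧
      (∀ q ∈ O, Sm E g q ∧ Function.Bijective (dvec E g q)) ∧ ContDiffOn ℝ ∞ (φ ∘ g) O) : SmF E φ := by
  intro x
  obtain ⟨g, O, hO, ⟨q0, hq0, rfl⟩, hg, hφ⟩ := h x
  have hcs : CompleteSpace G := FiniteDimensional.complete ℝ G
  obtain ⟨hs, hb⟩ := hg q0 hq0
  obtain ⟨f', hf1⟩ : ∃ f' : G ≃L[ℝ] E, (f' : G →L[ℝ] E) = dvec E g q0 :=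
    ⟨(LinearEquiv.ofBijective (dvec E g q0 : G →ₗ[ℝ] E) hb).toContinuousLinearEquiv, by ext v; rfl⟩
  have hf' : HasFDerivAt (chartAt E (g q0) ∘ g) (f' : G →L[ℝ] E) q0 := by
    rw [hf1]
    exact (hs.2.differentiableAt (by simp)).hasFDerivAt
  obtain ⟨e, he, hes⟩ : ∃ e : OpenPartialHomeomorph G E, (e : G → E) = chartAt E (g q0) ∘ g ∧ q0 ∈ e.source :=
    ⟨hs.2.toOpenPartialHomeomorph _ hf' (by simp), rfl,
      hs.2.mem_toOpenPartialHomeomorph_source hf' (by simp)⟩
  have hy0 : e q0 = chartAt E (g q0) (g q0) := by rw [he]; rfl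
  have hk0 : e.symm (chartAt E (g q0) (g q0)) = q0 := by rw [← hy0, e.left_inv hes]
  have ht : chartAt E (g q0) (g q0) ∈ e.target := by rw [← hy0]; exact e.map_source hes
  have hk : ContDiffAt ℝ ∞ e.symm (chartAt E (g q0) (g q0)) := by
    refine e.contDiffAt_symm (f₀' := f') ht ?_ ?_
    · rw [hk0, he]
      exact hf'
    · rw [hk0, he]
      exact hs.2
  have hc : ContinuousAt (g ∘ e.symm) (chartAt E (g q0) (g q0)) :=
    ContinuousAt.comp (by rw [hk0]; exact hs.1) hk.continuousAt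
  have hev : φ ∘ (chartAt E (g q0)).symm =ᶠ[nhds (chartAt E (g q0) (g q0))] (φ ∘ g) ∘ e.symm := by
    have h1 : ∀ᶠ y in nhds (chartAt E (g q0) (g q0)), (g ∘ e.symm) y ∈ (chartAt E (g q0)).source := by
      refine hc.eventually ((chartAt E (g q0)).open_source.mem_nhds ?_)
      show g (e.symm (chartAt E (g q0) (g q0))) ∈ (chartAt E (g q0)).source
      rw [hk0]
      exact mem_chart_source E (g q0)
    filter_upwards [h1, e.open_target.mem_nhds ht] with y hy1 hy2
    have h2 : chartAt E (g q0) (g (e.symm y)) = y := by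
      have h3 := e.right_inv hy2
      rw [he] at h3
      exact h3
    show φ ((chartAt E (g q0)).symm y) = φ (g (e.symm y))
    have hy1' : g (e.symm y) ∈ (chartAt E (g q0)).source := hy1
    conv_lhs => rw [← h2]
    rw [(chartAt E (g q0)).left_inv hy1']
  refine ContDiffAt.congr_of_eventuallyEq ?_ hev
  refine ContDiffAt.comp _ ?_ hk
  rw [hk0]
  exact hφ.contDiffAt (hO.mem_nhds hq0)

variable [FiniteDimensional ℂ E] [CompactSpace X] [T2Space X]

omit [CompactSpace X] [T2Space X] [FiniteDimensional ℂ E] in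
private theorem SmFn_real : IsManifold 𝓘(ℝ, E) ∞ X := by
  refine isManifold_of_contDiffOn _ _ _ fun e e' he he' => ?_
  have h := 𝓘(ℂ, E).contDiffOn_extendCoordChange (n := ω) (IsManifold.subset_maximalAtlas he)
    (IsManifold.subset_maximalAtlas he')
  have h2 : ContDiffOn ℂ ω (e' ∘ e.symm) (e.symm ≫ₕ e').source := by
    convert! h using 1
    simp [ModelWithCorners.extendCoordChange, OpenPartialHomeomorph.extend]
  have h3 : ContDiffOn ℝ ∞ (e' ∘ e.symm) (e.symm ≫ₕ e').source := (h2.restrict_scalars ℝ).of_le le_top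
  simpa using h3

omit [IsManifold 𝓘(ℂ, E) ω X] [CompactSpace X] [T2Space X] [FiniteDimensional ℂ E] in
private theorem SmFn_of_contMDiff {φ : X → ℝ} (h : ContMDiff 𝓘(ℝ, E) 𝓘(ℝ, ℝ) ∞ φ) : SmF E φ := by
  intro x
  have h2 := (contMDiffAt_iff.1 (h x)).2
  simpa [contDiffWithinAt_univ] using h2

/-- partition of unity -/
theorem pou (O : X → Set X) (hO : ∀ x, IsOpen (O x)) (hx : ∀ x, x ∈ O x) :
    ∃ (n : ℕ) (c : Fin n → X) (χ : Fin n → X → ℝ), (∀ i, SmF E (χ i)) ∧ (∀ i x, 0 ≤ χ i x) ∧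
      (∀ i, tsupport (χ i) ⊆ O (c i)) ∧ ∀ x, ∑ i, χ i x = 1 := by
  have hm : IsManifold 𝓘(ℝ, E) ∞ X := SmFn_real
  obtain ⟨t, ht⟩ := CompactSpace.elim_nhds_subcover O fun x => (hO x).mem_nhds (hx x)
  have e := t.equivFin
  obtain ⟨f, hf⟩ := SmoothPartitionOfUnity.exists_isSubordinate 𝓘(ℝ, E) (s := (Set.univ : Set X)) isClosed_univ
    (fun i : Fin t.card => O (e.symm i)) (fun i => hO _) (by
      intro x _
      have h1 : x ∈ ⋃ y ∈ t, O y := by rw [ht]; trivial
      simp only [Set.mem_iUnion] at h1 ⊢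
      obtain ⟨y, hy, hxy⟩ := h1
      exact ⟨e ⟨y, hy⟩, by simpa using hxy⟩)
  refine ⟨t.card, fun i => e.symm i, fun i => f i, fun i => SmFn_of_contMDiff (f i).contMDiff,
    fun i x => f.nonneg i x, fun i => hf i, fun x => ?_⟩
  have h2 := f.sum_eq_one (Set.mem_univ x)
  rwa [finsum_eq_sum_of_fintype] at h2

/-- bump function -/
theorem bump (x : X) (O : Set X) (hO : IsOpen O) (hx : x ∈ O) :
    ∃ χ : X → ℝ, SmF E χ ∧ (∀ y, 0 ≤ χ y) ∧ tsupport χ ⊆ O ∧ ∀ᶠ y in nhds x, χ y = 1 := by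
  have hm : IsManifold 𝓘(ℝ, E) ∞ X := SmFn_real
  obtain ⟨C, hC, hCc, hCO⟩ := exists_mem_nhds_isClosed_subset (hO.mem_nhds hx)
  obtain ⟨K, hK, hKc, hKC⟩ := exists_mem_nhds_isClosed_subset (interior_mem_nhds.2 hC)
  obtain ⟨f, hf0, hf1, hf2⟩ := exists_contMDiffMap_zero_one_of_isClosed 𝓘(ℝ, E) (n := ⊤)
    (s := (interior C)ᶜ) (t := K) isOpen_interior.isClosed_compl hKc
    (Set.disjoint_left.2 fun y hy hyK => hy (hKC hyK))
  refine ⟨f, SmFn_of_contMDiff f.contMDiff, fun y => (hf2 y).1, ?_, ?_⟩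
  · refine (closure_minimal ?_ hCc).trans hCO
    intro y hy
    by_contra hyC
    exact hy (hf0 fun h => hyC (interior_subset h))
  · filter_upwards [hK] with y hy
    exact hf1 hy

end Mfd

end Pool.Agent.FBR
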