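import Pool.Agent.FBR.MkForm
import Pool.Agent.FBR.SmFn
import Pool.Agent.FBR.Ddc

/-!
# FBR/Ops: operations on forms

PROOF PLAN.  `exists_comb`: all four conditions are linear (`coef` is linear in the tensor: `coef (c1 • a1 + c2 • a2) p = c1 •
coef a1 p + c2 • coef a2 p`, `fderiv` of a linear combination of functions which are differentiable at the points of the
open set `(chartAt E p).target`).  `exists_sum`: induction with `exists_comb`.
`exists_comap`: `exists_form` with `G = E`, `g = (chartAt E x).symm`, `O = (chartAt E x).target`; `tpb c g = tpb b.val (f ∘ g)` by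
`dvec_holo`, `tpb_comap`; `f ∘ g` is `Hol`, so `Sm` (`holo_comp`, `Hol.sm`), `tpb_smooth`, `tpb_closed`; `dmap_I` for J.
`exists_ddcF`: `exists_form_coef` or `exists_form`, with `tpb_ddcF` for `g = (chartAt E p).symm` (`Hol` on the target), then
`ddc_smooth`, `ddc_closed`.  `tpb_ddcF`: near `q`, `φ ∘ g = (φ ∘ (chartAt E (g q)).symm) ∘ (chartAt E (g q) ∘ g)`; `ddc_comp`.
`ddcF_mul_vert`: read in the chart at `x`, `ddc_mul_self` for `(η ∘ π) ∘ (chartAt E x).symm` and `φ ∘ (chartAt E x).symm`;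
`D(η ∘ π)(v) = dF η (dπ v) = 0` and the same for `I • v` (`dmap_I`); `ddc` of `η ∘ π ∘ symm` at `v, I v` vanishes: `ddcF_holo` (or `ddc_comp`).
-/

set_option autoImplicit false

noncomputable section

open scoped Manifold ContDiff

namespace Pool.Agent.FBR

/-- `dd^c φ` on `X`. -/
def ddcF (E : Type*) {X : Type*} [NormedAddCommGroup E] [NormedSpace ℂ E] [TopologicalSpace X]
    [ChartedSpace E X] (φ : X → ℝ) (x : X) : Bil E :=
  ddc (φ ∘ (chartAt E x).symm) (chartAt E x x)

variable {E X : Type*} [NormedAddCommGroup E] [NormedSpace ℂ E] [FiniteDimensional ℂ E]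
  [TopologicalSpace X] [ChartedSpace E X] [IsManifold 𝓘(ℂ, E) ω X]
  {H : Type*} [NormedAddCommGroup H] [NormedSpace ℂ H]
  {F B : Type*} [NormedAddCommGroup F] [NormedSpace ℂ F] [FiniteDimensional ℂ F] [TopologicalSpace B]
  [ChartedSpace F B] [IsManifold 𝓘(ℂ, F) ω B]

omit [FiniteDimensional ℂ E] [IsManifold 𝓘(ℂ, E) ω X] in
private theorem Ops_germ {G : Type*} [TopologicalSpace G] (φ : X → ℝ) {g : G → X} {q : G} (hg : ContinuousAt g q) :
    φ ∘ g =ᶠ[nhds q] (φ ∘ (chartAt E (g q)).symm) ∘ (chartAt E (g q) ∘ g) := by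
  have h : ∀ᶠ z in nhds q, g z ∈ (chartAt E (g q)).source :=
    hg.eventually ((chartAt E (g q)).open_source.mem_nhds (mem_chart_source E (g q)))
  filter_upwards [h] with z hz
  simp [Function.comp, (chartAt E (g q)).left_inv hz]

omit [FiniteDimensional ℂ E] in
private theorem Ops_two {V : Type*} [NormedAddCommGroup V] [NormedSpace ℝ V] {f : E → V} {y : E}
    (h : ContDiffAt ℝ ∞ f y) : ContDiffAt ℝ 2 f y :=
  h.of_le (WithTop.coe_le_coe.2 (le_top : (2 : ℕ∞) ≤ ⊤))

private theorem Ops_lin {V W : Type*} [NormedAddCommGroup V] [NormedSpace ℝ V] [NormedAddCommGroup W]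
    [NormedSpace ℝ W] {f g : V → W} (c1 c2 : ℝ) {y : V} (hf : DifferentiableAt ℝ f y)
    (hg : DifferentiableAt ℝ g y) :
    fderiv ℝ (fun y => c1 • f y + c2 • g y) y = c1 • fderiv ℝ f y + c2 • fderiv ℝ g y := by
  have h := ((hf.hasFDerivAt.const_smul c1).add (hg.hasFDerivAt.const_smul c2)).fderiv
  exact h

private theorem Ops_cd {V W : Type*} [NormedAddCommGroup V] [NormedSpace ℝ V] [NormedAddCommGroup W]
    [NormedSpace ℝ W] {f g : V → W} (c1 c2 : ℝ) {O : Set V} (hf : ContDiffOn ℝ ∞ f O)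
    (hg : ContDiffOn ℝ ∞ g O) : ContDiffOn ℝ ∞ (fun y => c1 • f y + c2 • g y) O :=
  ContDiffOn.add (ContDiffOn.smul contDiffOn_const hf) (ContDiffOn.smul contDiffOn_const hg)

theorem exists_comb (b1 b2 : Form E X) (c1 c2 : ℝ) :
    ∃ b : Form E X, ∀ x, b.val x = c1 • b1.val x + c2 • b2.val x := by
  have hc : ∀ p, coef (fun x => c1 • b1.val x + c2 • b2.val x) p =
      fun y => c1 • coef b1.val p y + c2 • coef b2.val p y := by
    intro p
    funext y
    ext u v
    rfl
  refine ⟨{ val := fun x => c1 • b1.val x + c2 • b2.val x, alt := ?_, j := ?_, smooth := ?_, closed := ?_ },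
    fun x => rfl⟩
  · intro x v
    simp [b1.alt, b2.alt]
  · intro x u v
    simp [b1.j, b2.j]
  · intro p
    rw [hc p]
    exact Ops_cd c1 c2 (b1.smooth p) (b2.smooth p)
  · intro p y hy u v w
    have hO := (chartAt E p).open_target.mem_nhds hy
    have d1 : DifferentiableAt ℝ (coef b1.val p) y := ((b1.smooth p).contDiffAt hO).differentiableAt (by simp)
    have d2 : DifferentiableAt ℝ (coef b2.val p) y := ((b2.smooth p).contDiffAt hO).differentiableAt (by simp)
    have hf : fderiv ℝ (coef (fun x => c1 • b1.val x + c2 • b2.val x) p) y =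
        c1 • fderiv ℝ (coef b1.val p) y + c2 • fderiv ℝ (coef b2.val p) y := by
      rw [hc p]
      exact Ops_lin (V := E) (W := Bil E) (f := coef b1.val p) (g := coef b2.val p) c1 c2 (y := y) d1 d2
    rw [hf]
    have e1 := b1.closed p y hy u v w
    have e2 := b2.closed p y hy u v w
    simp only [add_apply, smul_apply, smul_eq_mul]
    linear_combination c1 * e1 + c2 * e2

theorem exists_zero : ∃ b : Form E X, ∀ x, b.val x = 0 := by
  have hc : ∀ p, coef (fun _ : X => (0 : Bil E)) p = fun _ => 0 := by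
    intro p
    funext y
    ext u v
    rfl
  refine ⟨{ val := fun _ => 0, alt := ?_, j := ?_, smooth := ?_, closed := ?_ }, fun x => rfl⟩
  · intro x v
    simp
  · intro x u v
    simp
  · intro p
    rw [hc p]
    exact contDiffOn_const
  · intro p y hy u v w
    rw [hc p]
    simp

theorem exists_sum {ι : Type*} (s : Finset ι) (b : ι → Form E X) :
    ∃ c : Form E X, ∀ x, c.val x = ∑ i ∈ s, (b i).val x := by
  classical
  induction s using Finset.induction_on with
  | empty =>
    obtain ⟨c, hc⟩ := exists_zero (E := E) (X := X)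
    exact ⟨c, fun x => by rw [hc x, Finset.sum_empty]⟩
  | insert i s hi ih =>
    obtain ⟨c, hc⟩ := ih
    obtain ⟨d, hd⟩ := exists_comb (b i) c 1 1
    exact ⟨d, fun x => by rw [hd x, Finset.sum_insert hi, hc x, one_smul, one_smul]⟩

omit [FiniteDimensional ℂ E] [FiniteDimensional ℂ F] in
private theorem Ops_tpb_comap {a : B → Bil F} {c : X → Bil E} {f : X → B} (hf : ContMDiff 𝓘(ℂ, E) 𝓘(ℂ, F) ω f)
    (hc : ∀ x, c x = (a (f x)).bilinearComp (dmap E F f x) (dmap E F f x))
    {G : Type*} [NormedAddCommGroup G] [NormedSpace ℝ G] {g : G → X} {q : G} (hg : Sm E g q) :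
    tpb c g q = tpb a (f ∘ g) q := by
  ext u v
  rw [tpb_apply, tpb_apply, hc, dvec_holo hf hg]
  rfl

/-- pull back under a holomorphic map -/
theorem exists_comap (b : Form F B) {f : X → B} (hf : ContMDiff 𝓘(ℂ, E) 𝓘(ℂ, F) ω f) :
    ∃ c : Form E X, ∀ x, c.val x = (b.val (f x)).bilinearComp (dmap E F f x) (dmap E F f x) := by
  obtain ⟨c, hc⟩ := exists_form_coef (E := E) (X := X)
    (fun x => (b.val (f x)).bilinearComp (dmap E F f x) (dmap E F f x))
    (fun x v => b.alt _ _)
    (fun x u v => by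
      show b.val (f x) (dmap E F f x (Complex.I • u)) (dmap E F f x (Complex.I • v)) =
        b.val (f x) (dmap E F f x u) (dmap E F f x v)
      rw [dmap_I hf, dmap_I hf, b.j])
    (fun p y hy => by
      have hs : ∀ z ∈ (chartAt E p).target, Sm F (f ∘ (chartAt E p).symm) z :=
        fun z hz => sm_comp hf (hol_symm hz).sm
      have h1 := (tpb_smooth b (chartAt E p).open_target hs).contDiffAt
        ((chartAt E p).open_target.mem_nhds hy)
      refine h1.congr_of_eventuallyEq ?_
      filter_upwards [(chartAt E p).open_target.mem_nhds hy] with z hz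
      exact Ops_tpb_comap hf (fun x => rfl) (hol_symm hz).sm)
    (fun p y hy u v w => by
      have hs : ∀ z ∈ (chartAt E p).target, Sm F (f ∘ (chartAt E p).symm) z :=
        fun z hz => sm_comp hf (hol_symm hz).sm
      have h1 := tpb_closed b (chartAt E p).open_target hs hy u v w
      have h2 : coef (fun x => (b.val (f x)).bilinearComp (dmap E F f x) (dmap E F f x)) p
          =ᶠ[nhds y] tpb b.val (f ∘ (chartAt E p).symm) := by
        filter_upwards [(chartAt E p).open_target.mem_nhds hy] with z hz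
        exact Ops_tpb_comap hf (fun x => rfl) (hol_symm hz).sm
      unfold ext2
      rw [h2.fderiv_eq]
      exact h1)
  exact ⟨c, fun x => by rw [hc]⟩

theorem tpb_comap {a : B → Bil F} {c : X → Bil E} {f : X → B} (hf : ContMDiff 𝓘(ℂ, E) 𝓘(ℂ, F) ω f)
    (hc : ∀ x, c x = (a (f x)).bilinearComp (dmap E F f x) (dmap E F f x))
    {G : Type*} [NormedAddCommGroup G] [NormedSpace ℝ G] {g : G → X} {q : G} (hg : Sm E g q) :
    tpb c g q = tpb a (f ∘ g) q := by
  exact Ops_tpb_comap hf hc hg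

theorem tpb_ddcF {φ : X → ℝ} (hφ : SmF E φ) {g : H → X} {q : H} (hg : Hol E g q) :
    tpb (ddcF E φ) g q = ddc (φ ∘ g) q := by
  have h1 : ContDiffAt ℝ 2 (φ ∘ (chartAt E (g q)).symm) ((chartAt E (g q) ∘ g) q) := Ops_two (hφ (g q))
  have h2 := ddc_comp (φ := φ ∘ (chartAt E (g q)).symm) (k := chartAt E (g q) ∘ g) h1 hg.2
  have h3 := ddc_congr (Ops_germ (E := E) φ hg.1)
  rw [h3, h2]
  rfl

theorem exists_ddcF {φ : X → ℝ} (hφ : SmF E φ) : ∃ c : Form E X, c.val = ddcF E φ := by
  have hev : ∀ p : X, ∀ y ∈ (chartAt E p).target, coef (ddcF E φ) p =ᶠ[nhds y] ddc (φ ∘ (chartAt E p).symm) := by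
    intro p y hy
    filter_upwards [(chartAt E p).open_target.mem_nhds hy] with z hz
    exact tpb_ddcF hφ (hol_symm hz)
  refine exists_form_coef (ddcF E φ) (fun x v => ddc_alt _ _ _) (fun x u v => ddc_I (Ops_two (hφ x)) u v) ?_ ?_
  · intro p y hy
    exact (ddc_smooth (hφ.at (hol_symm hy).sm)).congr_of_eventuallyEq (hev p y hy)
  · intro p y hy u v w
    have h1 := ddc_closed (hφ.at (hol_symm hy).sm) u v w
    unfold ext2 at h1 ⊢
    rw [(hev p y hy).fderiv_eq]
    exact h1

theorem ddcF_add {φ ψ : X → ℝ} (hφ : SmF E φ) (hψ : SmF E ψ) (x : X) :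
    ddcF E (fun x => φ x + ψ x) x = ddcF E φ x + ddcF E ψ x := by
  exact ddc_add (Ops_two (hφ x)) (Ops_two (hψ x))

theorem ddcF_smul (c : ℝ) {φ : X → ℝ} (hφ : SmF E φ) (x : X) :
    ddcF E (fun x => c * φ x) x = c • ddcF E φ x := by
  exact ddc_smul c (Ops_two (hφ x))

theorem ddcF_sum {ι : Type*} (s : Finset ι) {φ : ι → X → ℝ} (hφ : ∀ i ∈ s, SmF E (φ i)) (x : X) :
    ddcF E (fun x => ∑ i ∈ s, φ i x) x = ∑ i ∈ s, ddcF E (φ i) x := by
  classical
  induction s using Finset.induction_on with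
  | empty =>
    have h := ddcF_smul (E := E) (X := X) 0 (SmF.const (E := E) (X := X) 0) x
    have h0 : (fun x : X => ∑ i ∈ (∅ : Finset ι), φ i x) = fun _ => 0 * 0 := by
      funext y
      simp
    rw [h0, h, Finset.sum_empty]
    ext u v
    show (0 : ℝ) * _ = 0
    ring
  | insert i s hi ih =>
    have h1 : SmF E (φ i) := hφ i (Finset.mem_insert_self i s)
    have h2 : ∀ j ∈ s, SmF E (φ j) := fun j hj => hφ j (Finset.mem_insert_of_mem hj)
    rw [Finset.sum_insert hi, ← ih h2, ← ddcF_add h1 (SmF.sum s h2) x]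
    congr 1
    funext y
    rw [Finset.sum_insert hi]

theorem ddcF_holo {φ : B → ℝ} (hφ : SmF F φ) {f : X → B} (hf : ContMDiff 𝓘(ℂ, E) 𝓘(ℂ, F) ω f) (x : X) :
    ddcF E (φ ∘ f) x = (ddcF F φ (f x)).bilinearComp (dmap E F f x) (dmap E F f x) := by
  have hs : Sm E (chartAt E x).symm (chartAt E x x) := (hol_symm (mem_chart_target E x)).sm
  have hx : (chartAt E x).symm (chartAt E x x) = x := (chartAt E x).left_inv (mem_chart_source E x)
  have h1 : Hol F (f ∘ (chartAt E x).symm) (chartAt E x x) := holo_comp hf (hol_symm (mem_chart_target E x))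
  have h2 := tpb_ddcF hφ h1
  have h3 := dvec_holo hf hs
  rw [dvec_symm_self, hx, ContinuousLinearMap.comp_id] at h3
  have h4 : (f ∘ (chartAt E x).symm) (chartAt E x x) = f x := congrArg f hx
  have h5 : ddcF E (φ ∘ f) x = ddc (φ ∘ (f ∘ (chartAt E x).symm)) (chartAt E x x) := rfl
  rw [h5, ← h2]
  ext u v
  rw [tpb_apply, h3, h4]
  rfl

/-- a function from the base is a constant for the vertical `dd^c` -/
theorem ddcF_mul_vert {η : B → ℝ} (hη : SmF F η) {φ : X → ℝ} (hφ : SmF E φ) {π : X → B}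
    (hπ : ContMDiff 𝓘(ℂ, E) 𝓘(ℂ, F) ω π) {x : X} {v : E} (hv : dmap E F π x v = 0) :
    ddcF E (fun x => η (π x) * φ x) x v (Complex.I • v) = η (π x) * ddcF E φ x v (Complex.I • v) := by
  have hx : (chartAt E x).symm (chartAt E x x) = x := (chartAt E x).left_inv (mem_chart_source E x)
  have h1 := ddc_mul_self (Ops_two ((hη.comp_holo hπ) x)) (Ops_two (hφ x)) v
  have h2 : ddc ((η ∘ π) ∘ (chartAt E x).symm) (chartAt E x x) v (Complex.I • v) = 0 := by
    have h := ddcF_holo hη hπ x
    have h' : ddcF E (η ∘ π) x v (Complex.I • v) = 0 := by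
      rw [h]
      show ddcF F η (π x) (dmap E F π x v) (dmap E F π x (Complex.I • v)) = 0
      rw [hv]
      simp
    exact h'
  have h3 : fderiv ℝ ((η ∘ π) ∘ (chartAt E x).symm) (chartAt E x x) v = 0 := by
    have h : dF E (η ∘ π) x v = 0 := by
      rw [dF_holo hη hπ x]
      show dF F η (π x) (dmap E F π x v) = 0
      rw [hv]
      simp
    exact h
  have h4 : fderiv ℝ ((η ∘ π) ∘ (chartAt E x).symm) (chartAt E x x) (Complex.I • v) = 0 := by
    have h : dF E (η ∘ π) x (Complex.I • v) = 0 := by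
      rw [dF_holo hη hπ x]
      show dF F η (π x) (dmap E F π x (Complex.I • v)) = 0
      rw [dmap_I hπ, hv]
      simp
    exact h
  have h5 : ((η ∘ π) ∘ (chartAt E x).symm) (chartAt E x x) = η (π x) := by
    show η (π ((chartAt E x).symm (chartAt E x x))) = η (π x)
    rw [hx]
  rw [h2, h3, h4, h5] at h1
  have h6 : ddcF E (fun x => η (π x) * φ x) x v (Complex.I • v) =
      ddc (fun y => ((η ∘ π) ∘ (chartAt E x).symm) y * (φ ∘ (chartAt E x).symm) y) (chartAt E x x) v
        (Complex.I • v) := rfl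
  rw [h6, h1]
  show η (π x) * ddcF E φ x v (Complex.I • v) + _ + _ + _ = _
  ring

end Pool.Agent.FBR
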