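import Pool.Agent.FBR.Loc

/-!
# FBR: vertical positivity (definitions)
-/

set_option autoImplicit false

noncomputable section

open scoped Manifold ContDiff

namespace Pool.Agent.FBR

variable {E : Type*} (F : Type*) {X B : Type*} [NormedAddCommGroup E] [NormedSpace ℂ E] [TopologicalSpace X]
  [ChartedSpace E X] [NormedAddCommGroup F] [NormedSpace ℂ F] [TopologicalSpace B]
  [ChartedSpace F B]

/-- The tensor `a` is positive at `x` on the vertical vectors of `π`. -/
def VPos (π : X → B) (a : X → Bil E) (x : X) : Prop :=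
  ∀ ξ : E, ξ ≠ 0 → dmap E F π x ξ = 0 → 0 < a x ξ (Complex.I • ξ)

/-- The tensor `a` is nonnegative at `x` on the vertical vectors of `π`. -/
def VNn (π : X → B) (a : X → Bil E) (x : X) : Prop :=
  ∀ ξ : E, dmap E F π x ξ = 0 → 0 ≤ a x ξ (Complex.I • ξ)

end Pool.Agent.FBR
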