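import Pool.Agent.FBR.Loc

/-!
# FBR/Cl: pull back of 2-forms on vector spaces

PROOF PLAN.  `c q' = (a (k q')).bilinearComp (fderiv ℝ k q') (fderiv ℝ k q')`.  Its derivative in the direction
`u`, evaluated at `v, w`, is `fderiv ℝ a (k q) (k' u) (k' v) (k' w) + a (k q) (k'' u v) (k' w) + a (k q) (k' v) (k'' u w)`,
`k' = fderiv ℝ k q`, `k'' = fderiv ℝ (fderiv ℝ k) q`, symmetric (`ContDiffAt.isSymmSndFDerivAt`, real
version: `minSmoothness ℝ 2 = 2`).  In the cyclic sum the terms with `k''` cancel since `a (k q)` is alternating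
(`a x y = - a y x`).
-/

set_option autoImplicit false

noncomputable section

open scoped ContDiff

namespace Pool.Agent.FBR

variable {G : Type*} [NormedAddCommGroup G] [NormedSpace ℝ G]
  {G' : Type*} [NormedAddCommGroup G'] [NormedSpace ℝ G']

theorem antisymm_of_alt {a : Bil G} (h : ∀ u, a u u = 0) (u v : G) : a u v = - a v u := by
  have h1 := h (u + v)
  rw [map_add, map_add, _root_.add_apply, _root_.add_apply, h u, h v] at h1
  linarith

private def Cl_flip (G' G : Type*) [NormedAddCommGroup G] [NormedSpace ℝ G] [NormedAddCommGroup G']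
    [NormedSpace ℝ G'] : (G' →L[ℝ] G →L[ℝ] ℝ) →L[ℝ] (G →L[ℝ] G' →L[ℝ] ℝ) :=
  (ContinuousLinearMap.flipₗᵢ ℝ G' G ℝ).toContinuousLinearEquiv.toContinuousLinearMap

private theorem Cl_flip_diff {P Q R : Type*} [NormedAddCommGroup P] [NormedSpace ℝ P]
    [NormedAddCommGroup Q] [NormedSpace ℝ Q] [NormedAddCommGroup R] [NormedSpace ℝ R]
    {f : P → (Q →L[ℝ] R →L[ℝ] ℝ)} {q : P} (h : DifferentiableAt ℝ f q) :
    DifferentiableAt ℝ (fun q' => (f q').flip) q := by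
  have h1 : DifferentiableAt ℝ (Cl_flip Q R) (f q) :=
    ContinuousLinearMap.differentiableAt (𝕜 := ℝ) (E := (Q →L[ℝ] R →L[ℝ] ℝ))
      (F := (R →L[ℝ] Q →L[ℝ] ℝ)) (Cl_flip Q R)
  exact DifferentiableAt.comp (𝕜 := ℝ) (E := P) (F := (Q →L[ℝ] R →L[ℝ] ℝ))
    (G := (R →L[ℝ] Q →L[ℝ] ℝ)) q h1 h

private theorem Cl_flip_contDiff {P Q R : Type*} [NormedAddCommGroup P] [NormedSpace ℝ P]
    [NormedAddCommGroup Q] [NormedSpace ℝ Q] [NormedAddCommGroup R] [NormedSpace ℝ R]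
    {f : P → (Q →L[ℝ] R →L[ℝ] ℝ)} {q : P} (h : ContDiffAt ℝ ∞ f q) :
    ContDiffAt ℝ ∞ (fun q' => (f q').flip) q := by
  have h1 : ContDiff ℝ ∞ (Cl_flip Q R) :=
    ContinuousLinearMap.contDiff (𝕜 := ℝ) (E := (Q →L[ℝ] R →L[ℝ] ℝ))
      (F := (R →L[ℝ] Q →L[ℝ] ℝ)) (Cl_flip Q R)
  exact ContDiffAt.comp (𝕜 := ℝ) (E := P) (F := (Q →L[ℝ] R →L[ℝ] ℝ))
    (G := (R →L[ℝ] Q →L[ℝ] ℝ)) q h1.contDiffAt h

private theorem Cl_hasFDerivAt (a : G → Bil G) (k : G' → G) (q : G') (ha : DifferentiableAt ℝ a (k q))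
    (hk : DifferentiableAt ℝ k q) (hK : DifferentiableAt ℝ (fderiv ℝ k) q) (v w : G') :
    HasFDerivAt (fun q' => a (k q') (fderiv ℝ k q' v) (fderiv ℝ k q' w))
      ((a (k q) (fderiv ℝ k q v)).comp ((fderiv ℝ (fderiv ℝ k) q).flip w) +
        (((a (k q)).comp ((fderiv ℝ (fderiv ℝ k) q).flip v) +
          ((fderiv ℝ a (k q)).comp (fderiv ℝ k q)).flip (fderiv ℝ k q v)).flip (fderiv ℝ k q w))) q := by
  have h1 : HasFDerivAt (fun q' => a (k q')) ((fderiv ℝ a (k q)).comp (fderiv ℝ k q)) q :=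
    HasFDerivAt.comp (𝕜 := ℝ) (E := G') (F := G) (G := Bil G) q ha.hasFDerivAt hk.hasFDerivAt
  have h2 : ∀ x : G', HasFDerivAt (fun q' => fderiv ℝ k q' x) ((fderiv ℝ (fderiv ℝ k) q).flip x) q := by
    intro x
    have h3 := hK.hasFDerivAt.clm_apply (hasFDerivAt_const x q)
    simpa using h3
  exact (h1.clm_apply (h2 v)).clm_apply (h2 w)

private theorem Cl_differentiableAt (a : G → Bil G) (k : G' → G) (q : G')
    (ha : DifferentiableAt ℝ a (k q)) (hk : DifferentiableAt ℝ k q)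
    (hK : DifferentiableAt ℝ (fderiv ℝ k) q) :
    DifferentiableAt ℝ (fun q' => (a (k q')).bilinearComp (fderiv ℝ k q') (fderiv ℝ k q')) q := by
  have h0 : DifferentiableAt ℝ (fun q' => a (k q')) q :=
    DifferentiableAt.comp (𝕜 := ℝ) (E := G') (F := G) (G := Bil G) q ha hk
  have h1 : DifferentiableAt ℝ (fun q' => (a (k q')).comp (fderiv ℝ k q')) q := h0.clm_comp hK
  have h2 : DifferentiableAt ℝ (fun q' => ((a (k q')).comp (fderiv ℝ k q')).flip) q :=
    Cl_flip_diff h1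
  have h3 : DifferentiableAt ℝ (fun q' => (((a (k q')).comp (fderiv ℝ k q')).flip).comp
      (fderiv ℝ k q')) q := h2.clm_comp hK
  exact Cl_flip_diff h3

private theorem Cl_hK (k : G' → G) (q : G') (hk : ContDiffAt ℝ 2 k q) :
    DifferentiableAt ℝ (fderiv ℝ k) q :=
  (hk.fderiv_right (m := 1) (by norm_num)).differentiableAt (by norm_num)

theorem fderiv_pull (a : G → Bil G) (k : G' → G) (q : G') (ha : DifferentiableAt ℝ a (k q))
    (hk : ContDiffAt ℝ 2 k q) (u v w : G') :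
    fderiv ℝ (fun q' => (a (k q')).bilinearComp (fderiv ℝ k q') (fderiv ℝ k q')) q u v w =
      fderiv ℝ a (k q) (fderiv ℝ k q u) (fderiv ℝ k q v) (fderiv ℝ k q w)
      + a (k q) (fderiv ℝ (fderiv ℝ k) q u v) (fderiv ℝ k q w)
      + a (k q) (fderiv ℝ k q v) (fderiv ℝ (fderiv ℝ k) q u w) := by
  have hk1 : DifferentiableAt ℝ k q := hk.differentiableAt (by norm_num)
  have hK := Cl_hK k q hk
  have hd := (Cl_differentiableAt a k q ha hk1 hK).hasFDerivAt
  have h1 := (hd.clm_apply (hasFDerivAt_const v q)).clm_apply (hasFDerivAt_const w q)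
  have h2 := Cl_hasFDerivAt a k q ha hk1 hK v w
  have h3 := h1.unique h2
  have h4 := congrArg (fun L => L u) h3
  simp only [_root_.add_apply, ContinuousLinearMap.comp_apply,
    ContinuousLinearMap.flip_apply, _root_.zero_apply, map_zero, zero_add] at h4
  rw [h4]
  ring

theorem ext2_pull (a : G → Bil G) (k : G' → G) (q : G') (ha : DifferentiableAt ℝ a (k q))
    (halt : ∀ u, a (k q) u u = 0) (hk : ContDiffAt ℝ 2 k q) (u v w : G') :
    ext2 (fun q' => (a (k q')).bilinearComp (fderiv ℝ k q') (fderiv ℝ k q')) q u v w =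
      ext2 a (k q) (fderiv ℝ k q u) (fderiv ℝ k q v) (fderiv ℝ k q w) := by
  have hs : IsSymmSndFDerivAt ℝ k q := hk.isSymmSndFDerivAt (by simp)
  unfold ext2
  rw [fderiv_pull a k q ha hk, fderiv_pull a k q ha hk, fderiv_pull a k q ha hk]
  have e1 := hs.eq u v
  have e2 := hs.eq v w
  have e3 := hs.eq w u
  rw [e1, e2, e3]
  rw [antisymm_of_alt halt (fderiv ℝ k q v) (fderiv ℝ (fderiv ℝ k) q u w),
    antisymm_of_alt halt (fderiv ℝ k q w) (fderiv ℝ (fderiv ℝ k) q v u),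
    antisymm_of_alt halt (fderiv ℝ k q u) (fderiv ℝ (fderiv ℝ k) q w v)]
  ring

theorem contDiffAt_pull (a : G → Bil G) (k : G' → G) (q : G') (ha : ContDiffAt ℝ ∞ a (k q))
    (hk : ContDiffAt ℝ ∞ k q) :
    ContDiffAt ℝ ∞ (fun q' => (a (k q')).bilinearComp (fderiv ℝ k q') (fderiv ℝ k q')) q := by
  have hK : ContDiffAt ℝ ∞ (fderiv ℝ k) q := hk.fderiv_right (by simp)
  have h0 : ContDiffAt ℝ ∞ (fun q' => a (k q')) q :=
    ContDiffAt.comp (𝕜 := ℝ) (E := G') (F := G) (G := Bil G) q ha hk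
  have h1 : ContDiffAt ℝ ∞ (fun q' => (a (k q')).comp (fderiv ℝ k q')) q := h0.clm_comp hK
  have h2 : ContDiffAt ℝ ∞ (fun q' => ((a (k q')).comp (fderiv ℝ k q')).flip) q :=
    Cl_flip_contDiff h1
  have h3 : ContDiffAt ℝ ∞ (fun q' => (((a (k q')).comp (fderiv ℝ k q')).flip).comp
      (fderiv ℝ k q')) q := h2.clm_comp hK
  exact Cl_flip_contDiff h3

end Pool.Agent.FBR
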