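import Pool.Agent.FBR.Chg
import Pool.Agent.FBR.Cl

/-!
# FBR/Tpb: pull back of tensors and forms to vector spaces

PROOF PLAN.  `tpb a f q u v = a (f q) (dvec f q u) (dvec f q v)` (`rfl`).  `tpb_comp`: `dvec_comp`.
`tpb_coef`: `dvec_chart'` and the definition of `coef`.  `coef_self`: `dvec_symm_self`.
`tpb_smooth`, `tpb_closed` (for a form): near `q0 ∈ O`, with `p = g q0`, `tpb b.val g q = (coef b.val p (k q)).bilinearComp
(fderiv ℝ k q) (fderiv ℝ k q)`, `k = chartAt E p ∘ g` (`tpb_coef`), then `contDiffAt_pull`, `ext2_pull`.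
`coef` is alternating (`b.alt`) on all of `E`.
-/

set_option autoImplicit false

noncomputable section

open scoped Manifold ContDiff

namespace Pool.Agent.FBR

variable {E X : Type*} [NormedAddCommGroup E] [NormedSpace ℂ E] [TopologicalSpace X]
  [ChartedSpace E X] [IsManifold 𝓘(ℂ, E) ω X]
  {G : Type*} [NormedAddCommGroup G] [NormedSpace ℝ G]
  {G' : Type*} [NormedAddCommGroup G'] [NormedSpace ℝ G']
  {H : Type*} [NormedAddCommGroup H] [NormedSpace ℂ H]

omit [IsManifold 𝓘(ℂ, E) ω X] in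
theorem tpb_apply (a : X → Bil E) (f : G → X) (q u v : G) :
    tpb a f q u v = a (f q) (dvec E f q u) (dvec E f q v) := rfl

theorem tpb_comp (a : X → Bil E) {f : G → X} {k : G' → G} {q : G'} (hf : Sm E f (k q))
    (hk : DifferentiableAt ℝ k q) :
    tpb a (f ∘ k) q = (tpb a f (k q)).bilinearComp (fderiv ℝ k q) (fderiv ℝ k q) := by
  ext u v
  show a (f (k q)) (dvec E (f ∘ k) q u) (dvec E (f ∘ k) q v) =
    a (f (k q)) (dvec E f (k q) (fderiv ℝ k q u)) (dvec E f (k q) (fderiv ℝ k q v))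
  rw [dvec_comp hf hk]
  rfl

theorem tpb_coef (a : X → Bil E) {f : G → X} {q : G} {p : X} (hf : Sm E f q)
    (hp : f q ∈ (chartAt E p).source) :
    tpb a f q = (coef a p (chartAt E p (f q))).bilinearComp (fderiv ℝ (chartAt E p ∘ f) q)
      (fderiv ℝ (chartAt E p ∘ f) q) := by
  ext u v
  show a (f q) (dvec E f q u) (dvec E f q v) =
    a ((chartAt E p).symm (chartAt E p (f q)))
      (dvec E (chartAt E p).symm (chartAt E p (f q)) (fderiv ℝ (chartAt E p ∘ f) q u))
      (dvec E (chartAt E p).symm (chartAt E p (f q)) (fderiv ℝ (chartAt E p ∘ f) q v))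
  rw [(chartAt E p).left_inv hp, dvec_chart' hf hp]
  rfl

omit [IsManifold 𝓘(ℂ, E) ω X] in
theorem coef_self (a : X → Bil E) (x : X) : coef a x (chartAt E x x) = a x := by
  ext u v
  show a ((chartAt E x).symm (chartAt E x x)) (dvec E (chartAt E x).symm (chartAt E x x) u)
    (dvec E (chartAt E x).symm (chartAt E x x) v) = a x u v
  rw [(chartAt E x).left_inv (mem_chart_source E x), dvec_symm_self]
  rfl

private theorem Tpb_ev (b : Form E X) {g : G → X} {O : Set G} (hO : IsOpen O)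
    (hg : ∀ q ∈ O, Sm E g q) {q₀ : G} (hq : q₀ ∈ O) :
    tpb b.val g =ᶠ[nhds q₀] fun q => (coef b.val (g q₀) ((chartAt E (g q₀) ∘ g) q)).bilinearComp
      (fderiv ℝ (chartAt E (g q₀) ∘ g) q) (fderiv ℝ (chartAt E (g q₀) ∘ g) q) := by
  have h1 : ∀ᶠ q in nhds q₀, q ∈ O := hO.mem_nhds hq
  have h2 : ∀ᶠ q in nhds q₀, g q ∈ (chartAt E (g q₀)).source :=
    (hg q₀ hq).1.eventually ((chartAt E (g q₀)).open_source.mem_nhds (mem_chart_source E (g q₀)))
  filter_upwards [h1, h2] with q hq1 hq2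
  exact tpb_coef b.val (hg q hq1) hq2

omit [IsManifold 𝓘(ℂ, E) ω X] in
private theorem Tpb_coef_at (b : Form E X) (p : X) :
    ContDiffAt ℝ ∞ (coef b.val p) (chartAt E p p) :=
  (b.smooth p).contDiffAt ((chartAt E p).open_target.mem_nhds (mem_chart_target E p))

theorem tpb_smooth (b : Form E X) {g : G → X} {O : Set G} (hO : IsOpen O) (hg : ∀ q ∈ O, Sm E g q) :
    ContDiffOn ℝ ∞ (tpb b.val g) O := by
  intro q₀ hq
  refine ContDiffAt.contDiffWithinAt ?_
  refine ContDiffAt.congr_of_eventuallyEq ?_ (Tpb_ev b hO hg hq)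
  exact contDiffAt_pull (coef b.val (g q₀)) (chartAt E (g q₀) ∘ g) q₀
    (Tpb_coef_at b (g q₀)) (hg q₀ hq).2

theorem tpb_closed (b : Form E X) {g : G → X} {O : Set G} (hO : IsOpen O) (hg : ∀ q ∈ O, Sm E g q) {q : G}
    (hq : q ∈ O) : Closed2 (tpb b.val g) q := by
  intro u v w
  rw [(Tpb_ev b hO hg hq).fderiv_eq]
  have h := ext2_pull (coef b.val (g q)) (chartAt E (g q) ∘ g) q
    ((Tpb_coef_at b (g q)).differentiableAt (by simp)) (fun u => b.alt _ _)
    ((hg q hq).2.of_le (WithTop.coe_le_coe.2 (le_top : (2 : ℕ∞) ≤ ⊤))) u v w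
  have h2 := b.closed (g q) (chartAt E (g q) (g q)) (mem_chart_target E (g q))
    (fderiv ℝ (chartAt E (g q) ∘ g) q u) (fderiv ℝ (chartAt E (g q) ∘ g) q v)
    (fderiv ℝ (chartAt E (g q) ∘ g) q w)
  exact h.trans h2

omit [IsManifold 𝓘(ℂ, E) ω X] in
theorem tpb_alt (b : Form E X) (g : G → X) (q v : G) : tpb b.val g q v v = 0 := b.alt _ _

theorem tpb_I (b : Form E X) {g : H → X} {q : H} (hg : Hol E g q) (u v : H) :
    tpb b.val g q (Complex.I • u) (Complex.I • v) = tpb b.val g q u v := by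
  rw [tpb_apply, tpb_apply, hg.smul_I, hg.smul_I, b.j]

theorem tpb_semi {b : Form E X} (hb : b.Semi) {g : H → X} {q : H} (hg : Hol E g q) (v : H) :
    0 ≤ tpb b.val g q v (Complex.I • v) := by
  rw [tpb_apply, hg.smul_I]
  exact hb _ _

/-- positivity in terms of a parametrization -/
theorem posAt_iff (b : Form E X) {g : H → X} {q : H} (hg : Hol E g q) (hb : Function.Bijective (dvec E g q)) :
    b.PosAt (g q) ↔ ∀ v : H, v ≠ 0 → 0 < tpb b.val g q v (Complex.I • v) := by
  constructor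
  · intro h v hv
    rw [tpb_apply, hg.smul_I]
    refine h _ fun h0 => hv ?_
    exact hb.1 (h0.trans (map_zero (dvec E g q)).symm)
  · intro h w hw
    obtain ⟨v, rfl⟩ := hb.2 w
    have hv : v ≠ 0 := by
      rintro rfl
      exact hw (map_zero (dvec E g q))
    have h1 := h v hv
    rw [tpb_apply, hg.smul_I] at h1
    exact h1

end Pool.Agent.FBR
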