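import Pool.Agent.FBR.CDefs
import Pool.Agent.FBR.SmFn
import Pool.Agent.FBR.Tpb

/-!
# FBR/Ext: extension by zero of functions and 2-forms from a chart of `B` to `B`

PROOF PLAN.  `K = (chartAt F c).symm '' tsupport f` is compact, so closed, contained in `(chartAt F c).source`;
`extF c f = 0` (resp. `extT c f = 0`) off `K`, so near every point not in `K`.  On `(chartAt F c).source` (open), `extF c f = f ∘ chartAt F c`
and, for `b = (chartAt F p).symm y` in the source of the chart at `c`: `coef (extT c f) p y' = (f (τ y')).bilinearComp (fderiv ℝ τ y') (fderiv ℝ τ y')`,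
`τ = chartAt F c ∘ (chartAt F p).symm`, for all `y'` near `y` (`tc F c b' ∘ (dvec (chartAt F p).symm y') = fderiv ℝ τ y'`: chain rule,
`b' = (chartAt F p).symm y'`).  Then `contDiffAt_pull`, `ext2_pull`.
-/

set_option autoImplicit false

noncomputable section

open scoped Manifold ContDiff Classical

namespace Pool.Agent.FBR

variable {F B : Type*} [NormedAddCommGroup F] [NormedSpace ℂ F] [FiniteDimensional ℂ F] [TopologicalSpace B]
  [ChartedSpace F B] [IsManifold 𝓘(ℂ, F) ω B] [CompactSpace B] [T2Space B]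

omit [FiniteDimensional ℂ F] [CompactSpace B] [IsManifold 𝓘(ℂ, F) ω B] [NormedSpace ℂ F] in
private theorem Ext_closed {V : Type*} [TopologicalSpace V] [Zero V] {c : B} {f : F → V} (hc : HasCompactSupport f)
    (hs : tsupport f ⊆ (chartAt F c).target) : IsClosed ((chartAt F c).symm '' tsupport f) := by
  have h1 : IsCompact (tsupport f) := hc
  exact (h1.image_of_continuousOn ((chartAt F c).continuousOn_symm.mono hs)).isClosed

omit [FiniteDimensional ℂ F] [CompactSpace B] [T2Space B] [IsManifold 𝓘(ℂ, F) ω B] [NormedSpace ℂ F] in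
private theorem Ext_notMem {V : Type*} [TopologicalSpace V] [Zero V] {c b : B} {f : F → V}
    (hs : tsupport f ⊆ (chartAt F c).target) (hb : b ∉ (chartAt F c).source) :
    b ∉ (chartAt F c).symm '' tsupport f := by
  rintro ⟨y, hy, rfl⟩
  exact hb ((chartAt F c).map_target (hs hy))

omit [FiniteDimensional ℂ F] [CompactSpace B] [T2Space B] [IsManifold 𝓘(ℂ, F) ω B] [NormedSpace ℂ F] in
private theorem Ext_fzero {V : Type*} [TopologicalSpace V] [Zero V] {c b : B} {f : F → V}
    (hb : b ∉ (chartAt F c).symm '' tsupport f) (hb2 : b ∈ (chartAt F c).source) : f (chartAt F c b) = 0 := by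
  by_contra h
  apply hb
  exact ⟨chartAt F c b, subset_tsupport f h, (chartAt F c).left_inv hb2⟩

omit [FiniteDimensional ℂ F] [CompactSpace B] [IsManifold 𝓘(ℂ, F) ω B] [NormedSpace ℂ F] in
/-- near a point not in the source of the chart, the point avoids the support -/
private theorem Ext_ev {V : Type*} [TopologicalSpace V] [Zero V] {c : B} {f : F → V} (hc : HasCompactSupport f)
    (hs : tsupport f ⊆ (chartAt F c).target) {p : B} {y : F} (hy : y ∈ (chartAt F p).target)
    (hb : (chartAt F p).symm y ∉ (chartAt F c).source) :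
    ∀ᶠ z in nhds y, (chartAt F p).symm z ∉ (chartAt F c).symm '' tsupport f := by
  have h1 : ContinuousAt (chartAt F p).symm y := (chartAt F p).continuousAt_symm hy
  exact h1.eventually ((Ext_closed hc hs).isOpen_compl.mem_nhds (Ext_notMem hs hb))

omit [FiniteDimensional ℂ F] [CompactSpace B] [T2Space B] in
private theorem Ext_tau {c p : B} {y : F} (hy : y ∈ (chartAt F p).target)
    (hb : (chartAt F p).symm y ∈ (chartAt F c).source) :
    ContDiffAt ℝ ∞ (chartAt F c ∘ (chartAt F p).symm) y :=
  (sm_iff (p := c) ((chartAt F p).continuousAt_symm hy) hb).1 (hol_symm hy).sm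

omit [FiniteDimensional ℂ F] [CompactSpace B] [T2Space B] [IsManifold 𝓘(ℂ, F) ω B] [NormedSpace ℂ F] in
private theorem Ext_evS {c p : B} {y : F} (hy : y ∈ (chartAt F p).target)
    (hb : (chartAt F p).symm y ∈ (chartAt F c).source) :
    ∀ᶠ z in nhds y, z ∈ (chartAt F p).target ∧ (chartAt F p).symm z ∈ (chartAt F c).source := by
  have h1 : ContinuousAt (chartAt F p).symm y := (chartAt F p).continuousAt_symm hy
  have h2 := h1.eventually ((chartAt F c).open_source.mem_nhds hb)
  filter_upwards [(chartAt F p).open_target.mem_nhds hy, h2] with z hz1 hz2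
  exact ⟨hz1, hz2⟩

omit [FiniteDimensional ℂ F] [CompactSpace B] [T2Space B] [IsManifold 𝓘(ℂ, F) ω B] [NormedSpace ℂ F] in
private theorem Ext_evF {c p : B} {f : F → ℝ} {y : F} (hy : y ∈ (chartAt F p).target)
    (hb : (chartAt F p).symm y ∈ (chartAt F c).source) :
    extF c f ∘ (chartAt F p).symm =ᶠ[nhds y] f ∘ (chartAt F c ∘ (chartAt F p).symm) := by
  filter_upwards [Ext_evS hy hb] with z hz
  show (if (chartAt F p).symm z ∈ (chartAt F c).source then f (chartAt F c ((chartAt F p).symm z)) else 0) =
    f (chartAt F c ((chartAt F p).symm z))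
  rw [if_pos hz.2]

omit [FiniteDimensional ℂ F] [CompactSpace B] [IsManifold 𝓘(ℂ, F) ω B] [NormedSpace ℂ F] in
private theorem Ext_evF0 {c p : B} {f : F → ℝ} (hc : HasCompactSupport f)
    (hs : tsupport f ⊆ (chartAt F c).target) {y : F} (hy : y ∈ (chartAt F p).target)
    (hb : (chartAt F p).symm y ∉ (chartAt F c).source) :
    extF c f ∘ (chartAt F p).symm =ᶠ[nhds y] fun _ => (0 : ℝ) := by
  filter_upwards [Ext_ev hc hs hy hb] with z hz
  show (if (chartAt F p).symm z ∈ (chartAt F c).source then f (chartAt F c ((chartAt F p).symm z)) else 0) = 0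
  split_ifs with h
  · exact Ext_fzero hz h
  · rfl

omit [FiniteDimensional ℂ F] [CompactSpace B] [T2Space B] in
private theorem Ext_tc {c p : B} {y : F} (hy : y ∈ (chartAt F p).target)
    (hb : (chartAt F p).symm y ∈ (chartAt F c).source) (u : F) :
    tc F c ((chartAt F p).symm y) (dvec F (chartAt F p).symm y u) =
      fderiv ℝ (chartAt F c ∘ (chartAt F p).symm) y u := by
  rw [dvec_chart (p := c) (hol_symm hy).sm hb]
  rfl

omit [FiniteDimensional ℂ F] [CompactSpace B] [T2Space B] in
private theorem Ext_evT {c p : B} {f : F → Bil F} {y : F} (hy : y ∈ (chartAt F p).target)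
    (hb : (chartAt F p).symm y ∈ (chartAt F c).source) :
    coef (extT c f) p =ᶠ[nhds y] fun z => (f ((chartAt F c ∘ (chartAt F p).symm) z)).bilinearComp
      (fderiv ℝ (chartAt F c ∘ (chartAt F p).symm) z) (fderiv ℝ (chartAt F c ∘ (chartAt F p).symm) z) := by
  filter_upwards [Ext_evS hy hb] with z hz
  ext u v
  show (extT c f ((chartAt F p).symm z)) (dvec F (chartAt F p).symm z u) (dvec F (chartAt F p).symm z v) =
    f (chartAt F c ((chartAt F p).symm z)) (fderiv ℝ (chartAt F c ∘ (chartAt F p).symm) z u)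
      (fderiv ℝ (chartAt F c ∘ (chartAt F p).symm) z v)
  rw [← Ext_tc hz.1 hz.2, ← Ext_tc hz.1 hz.2]
  unfold extT
  rw [if_pos hz.2]
  rfl

omit [FiniteDimensional ℂ F] [CompactSpace B] [IsManifold 𝓘(ℂ, F) ω B] in
private theorem Ext_evT0 {c p : B} {f : F → Bil F} (hc : HasCompactSupport f)
    (hs : tsupport f ⊆ (chartAt F c).target) {y : F} (hy : y ∈ (chartAt F p).target)
    (hb : (chartAt F p).symm y ∉ (chartAt F c).source) :
    coef (extT c f) p =ᶠ[nhds y] fun _ => (0 : Bil F) := by
  filter_upwards [Ext_ev hc hs hy hb] with z hz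
  ext u v
  show (extT c f ((chartAt F p).symm z)) (dvec F (chartAt F p).symm z u) (dvec F (chartAt F p).symm z v) = 0
  unfold extT
  split_ifs with h
  · rw [Ext_fzero hz h]
    rfl
  · rfl

theorem extF_smF {c : B} {f : F → ℝ} (hf : ContDiff ℝ ∞ f) (hc : HasCompactSupport f)
    (hs : tsupport f ⊆ (chartAt F c).target) : SmF F (extF c f) := by
  intro x
  have hy : chartAt F x x ∈ (chartAt F x).target := mem_chart_target F x
  by_cases hb : (chartAt F x).symm (chartAt F x x) ∈ (chartAt F c).source
  · refine ContDiffAt.congr_of_eventuallyEq ?_ (Ext_evF hy hb)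
    exact ContDiffAt.comp _ hf.contDiffAt (Ext_tau hy hb)
  · exact contDiffAt_const.congr_of_eventuallyEq (Ext_evF0 hc hs hy hb)

theorem extF_dF {c : B} {f : F → ℝ} (hf : ContDiff ℝ ∞ f) (hc : HasCompactSupport f)
    (hs : tsupport f ⊆ (chartAt F c).target) (b : B) :
    dF F (extF c f) b = if b ∈ (chartAt F c).source then (fderiv ℝ f (chartAt F c b)).comp (tc F c b) else 0 := by
  have hy : chartAt F b b ∈ (chartAt F b).target := mem_chart_target F b
  have h0 : (chartAt F b).symm (chartAt F b b) = b := (chartAt F b).left_inv (mem_chart_source F b)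
  unfold dF
  by_cases hb : b ∈ (chartAt F c).source
  · rw [if_pos hb]
    have hb' : (chartAt F b).symm (chartAt F b b) ∈ (chartAt F c).source := by rw [h0]; exact hb
    rw [(Ext_evF hy hb').fderiv_eq]
    have h1 := fderiv_comp (𝕜 := ℝ) (chartAt F b b) (g := f) (f := chartAt F c ∘ (chartAt F b).symm)
      ((hf.differentiable (by simp)) _) ((Ext_tau hy hb').differentiableAt (by simp))
    rw [h1]
    have h2 : (chartAt F c ∘ (chartAt F b).symm) (chartAt F b b) = chartAt F c b := congrArg (chartAt F c) h0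
    rw [h2]
    rfl
  · rw [if_neg hb]
    have hb' : (chartAt F b).symm (chartAt F b b) ∉ (chartAt F c).source := by rw [h0]; exact hb
    rw [(Ext_evF0 hc hs hy hb').fderiv_eq]
    exact fderiv_const_apply 0

theorem extT_smooth {c : B} {f : F → Bil F} (hf : ContDiff ℝ ∞ f) (hc : HasCompactSupport f)
    (hs : tsupport f ⊆ (chartAt F c).target) {p : B} {y : F} (hy : y ∈ (chartAt F p).target) :
    ContDiffAt ℝ ∞ (coef (extT c f) p) y := by
  by_cases hb : (chartAt F p).symm y ∈ (chartAt F c).source
  · refine ContDiffAt.congr_of_eventuallyEq ?_ (Ext_evT hy hb)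
    exact contDiffAt_pull f (chartAt F c ∘ (chartAt F p).symm) y hf.contDiffAt (Ext_tau hy hb)
  · exact contDiffAt_const.congr_of_eventuallyEq (Ext_evT0 hc hs hy hb)

theorem extT_ext2 {c : B} {f : F → Bil F} (hf : ContDiff ℝ ∞ f) (hc : HasCompactSupport f)
    (hs : tsupport f ⊆ (chartAt F c).target) (halt : ∀ y u, f y u u = 0) {p : B} {y : F}
    (hy : y ∈ (chartAt F p).target) (u v w : F) :
    ext2 (coef (extT c f) p) y u v w =
      if (chartAt F p).symm y ∈ (chartAt F c).source then
        ext2 f (chartAt F c ((chartAt F p).symm y))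
          (tc F c ((chartAt F p).symm y) (dvec F (chartAt F p).symm y u))
          (tc F c ((chartAt F p).symm y) (dvec F (chartAt F p).symm y v))
          (tc F c ((chartAt F p).symm y) (dvec F (chartAt F p).symm y w))
      else 0 := by
  by_cases hb : (chartAt F p).symm y ∈ (chartAt F c).source
  · rw [if_pos hb, Ext_tc hy hb, Ext_tc hy hb, Ext_tc hy hb]
    have h1 := ext2_pull f (chartAt F c ∘ (chartAt F p).symm) y ((hf.differentiable (by simp)) _)
      (fun u => halt _ u) ((Ext_tau hy hb).of_le (WithTop.coe_le_coe.2 (le_top : (2 : ℕ∞) ≤ ⊤))) u v w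
    refine Eq.trans ?_ h1
    unfold ext2
    rw [(Ext_evT hy hb).fderiv_eq]
  · rw [if_neg hb]
    unfold ext2
    rw [(Ext_evT0 hc hs hy hb).fderiv_eq]
    have h2 : fderiv ℝ (fun _ : F => (0 : Bil F)) y = 0 := fderiv_const_apply 0
    rw [h2]
    simp

end Pool.Agent.FBR
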