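import Pool.Agent.FBR.CDefs

/-!
# FBR/JInt: integration of a smooth function with compact support over `G × ℂ → G`

PROOF PLAN.  `J_smooth`: `contDiffOn_convolution_right_with_param` (Mathlib, `Analysis/Calculus/ContDiff/Convolution` or
`Analysis/Convolution`): the convolution of the constant function `1` with the function `w ↦ f (y, -w)` (parameter `y`)
at `0` is `J f y`; the supports lie in the compact `{w | ∃ y, (y, -w) ∈ tsupport f}`.  Or: `hasFDerivAt_integral_of_dominated_of_fderiv_le`
(`fderiv ℝ f` is bounded, and zero off a compact) gives `J_fderiv` and induction on the order (`contDiff_infty_iff_fderiv` /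
`contDiff_succ_iff_fderiv`: `fderiv ℝ (J f) = J (fun q => (fderiv ℝ f q).comp (inl))`, again smooth with compact support).
`J_vert`: `integral_fderiv_eq_zero`-type lemma, e.g. `integral_bilinear_hasLineDerivAt_right_eq_neg_left_of_integrable` or
`integral_mul_fderiv_eq_neg_fderiv_mul_of_integrable` with the constant `1`... (translation invariance: `∫ f (y, w + t v) dw` does not depend on `t`;
differentiate under the integral sign) is the easiest.
-/

set_option autoImplicit false

noncomputable section

open scoped ContDiff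

open MeasureTheory

namespace Pool.Agent.FBR

variable {G : Type*} [NormedAddCommGroup G] [NormedSpace ℝ G] [FiniteDimensional ℝ G]
  {V : Type*} [NormedAddCommGroup V] [NormedSpace ℝ V] [CompleteSpace V]

theorem JInt_sec {W : Type*} [NormedAddCommGroup W] {f : G × ℂ → W} (hc : HasCompactSupport f) (y : G) :
    HasCompactSupport (fun w : ℂ => f (y, w)) := by
  refine HasCompactSupport.intro (hc.isCompact.image continuous_snd) fun w hw => ?_
  by_contra h
  exact hw ⟨(y, w), subset_tsupport f h, rfl⟩

theorem J_integrable {f : G × ℂ → V} (hf : Continuous f) (hc : HasCompactSupport f) (y : G) :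
    Integrable (fun w : ℂ => f (y, w)) := by
  have h1 : Continuous (fun w : ℂ => f (y, w)) := hf.comp (by fun_prop)
  exact h1.integrable_of_hasCompactSupport (JInt_sec hc y)

theorem J_smooth {f : G × ℂ → V} (hf : ContDiff ℝ ∞ f) (hc : HasCompactSupport f) : ContDiff ℝ ∞ (J f) := by
  have hk : IsCompact ((fun q : G × ℂ => -q.2) '' tsupport f) := hc.isCompact.image (by fun_prop)
  have hg : ContDiffOn ℝ ((⊤ : ℕ∞) : WithTop ℕ∞) (↿(fun (y : G) (w : ℂ) => f (y, -w))) ((Set.univ : Set G) ×ˢ Set.univ) := by
    have h1 : ContDiff ℝ ∞ (fun q : G × ℂ => f (q.1, -q.2)) := hf.comp (by fun_prop)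
    exact h1.contDiffOn
  have h2 := contDiffOn_convolution_right_with_param (μ := (volume : Measure ℂ)) (n := ⊤) (ContinuousLinearMap.lsmul ℝ ℝ (E := V))
    (f := fun _ : ℂ => (1 : ℝ)) (g := fun (y : G) (w : ℂ) => f (y, -w)) (s := Set.univ)
    (k := (fun q : G × ℂ => -q.2) '' tsupport f) isOpen_univ hk
    (fun y w _ hw => by
      by_contra h
      exact hw ⟨(y, -w), subset_tsupport f h, by simp⟩)
    (locallyIntegrable_const 1) hg
  rw [Set.univ_prod_univ, contDiffOn_univ] at h2
  have h3 : J f = (fun q : G × ℂ => (convolution (fun _ : ℂ => (1 : ℝ)) (fun w : ℂ => f (q.1, -w))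
      (ContinuousLinearMap.lsmul ℝ ℝ (E := V)) volume) q.2) ∘ (fun y : G => (y, (0 : ℂ))) := by
    funext y
    simp only [J, Function.comp_apply, convolution, ContinuousLinearMap.lsmul_apply, one_smul, zero_sub, neg_neg]
  rw [h3]
  exact h2.comp (by fun_prop)

/-- the support of `J f` is contained in the compact projection of the support of `f` -/
theorem J_support {f : G × ℂ → V} (hc : HasCompactSupport f) : tsupport (J f) ⊆ Prod.fst '' tsupport f := by
  have h1 : IsClosed (Prod.fst '' tsupport f) := (hc.isCompact.image continuous_fst).isClosed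
  refine closure_minimal (fun y hy => ?_) h1
  by_contra h
  apply hy
  have h2 : ∀ w : ℂ, f (y, w) = 0 := by
    intro w
    by_contra h3
    exact h ⟨(y, w), subset_tsupport f h3, rfl⟩
  simp only [J, h2, integral_zero]

theorem J_compact {f : G × ℂ → V} (hc : HasCompactSupport f) : HasCompactSupport (J f) :=
  (hc.isCompact.image continuous_fst).of_isClosed_subset (isClosed_tsupport _) (J_support hc)

theorem JInt_hasFDerivAt {f : G × ℂ → V} (hf : ContDiff ℝ ∞ f) (hc : HasCompactSupport f) (y : G) :
    HasFDerivAt (J f) (∫ w : ℂ, (fderiv ℝ f (y, w)).comp (ContinuousLinearMap.inl ℝ G ℂ)) y := by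
  have hd : Continuous (fun q : G × ℂ => (fderiv ℝ f q).comp (ContinuousLinearMap.inl ℝ G ℂ)) := by
    have h1 : Continuous (fderiv ℝ f) := hf.continuous_fderiv (by simp)
    exact h1.clm_comp continuous_const
  have hdc : HasCompactSupport (fun q : G × ℂ => (fderiv ℝ f q).comp (ContinuousLinearMap.inl ℝ G ℂ)) := by
    refine HasCompactSupport.intro hc.isCompact fun q hq => ?_
    have h1 : fderiv ℝ f q = 0 := by
      by_contra h
      exact hq (tsupport_fderiv_subset ℝ (subset_tsupport _ h))
    rw [h1, ContinuousLinearMap.zero_comp]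
  obtain ⟨C, hC⟩ := hd.bounded_above_of_compact_support hdc
  set K : Set ℂ := Prod.snd '' tsupport f with hK
  have hKc : IsCompact K := hc.isCompact.image continuous_snd
  have hC0 : 0 ≤ C := le_trans (norm_nonneg _) (hC (y, 0))
  refine hasFDerivAt_integral_of_dominated_of_fderiv_le (μ := (volume : Measure ℂ)) (s := Set.univ)
    (F := fun y w => f (y, w)) (F' := fun y w => (fderiv ℝ f (y, w)).comp (ContinuousLinearMap.inl ℝ G ℂ))
    (bound := K.indicator fun _ => C) Filter.univ_mem ?_ (J_integrable hf.continuous hc y) ?_ ?_ ?_ ?_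
  · exact Filter.Eventually.of_forall fun x => (J_integrable hf.continuous hc x).aestronglyMeasurable
  · exact (hd.comp (by fun_prop : Continuous (fun w : ℂ => (y, w)))).aestronglyMeasurable
  · refine Filter.Eventually.of_forall fun w x _ => ?_
    by_cases hw : w ∈ K
    · rw [Set.indicator_of_mem hw]
      exact hC (x, w)
    · rw [Set.indicator_of_notMem hw]
      have h1 : (fderiv ℝ f (x, w)).comp (ContinuousLinearMap.inl ℝ G ℂ) = 0 := by
        have h2 : fderiv ℝ f (x, w) = 0 := by
          by_contra h
          exact hw ⟨(x, w), tsupport_fderiv_subset ℝ (subset_tsupport _ h), rfl⟩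
        rw [h2, ContinuousLinearMap.zero_comp]
      rw [h1, norm_zero]
  · refine (integrable_indicator_iff hKc.measurableSet).2 ?_
    exact integrableOn_const (hs := hKc.measure_lt_top.ne)
  · refine Filter.Eventually.of_forall fun w x _ => ?_
    have h1 : HasFDerivAt f (fderiv ℝ f (x, w)) (x, w) := (hf.differentiable (by simp) _).hasFDerivAt
    have h2 : HasFDerivAt (fun x : G => (x, w)) (ContinuousLinearMap.inl ℝ G ℂ) x :=
      hasFDerivAt_prodMk_left x w
    exact h1.comp x h2

theorem JInt_clm {f : G × ℂ → V} (hf : ContDiff ℝ ∞ f) (hc : HasCompactSupport f) (y : G) :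
    Integrable (fun w : ℂ => fderiv ℝ f (y, w)) := by
  have h1 : Continuous (fderiv ℝ f) := hf.continuous_fderiv (by simp)
  have h2 : HasCompactSupport (fderiv ℝ f) := hc.fderiv ℝ
  have h3 : Continuous (fun w : ℂ => fderiv ℝ f (y, w)) := h1.comp (by fun_prop)
  exact h3.integrable_of_hasCompactSupport (JInt_sec h2 y)

theorem J_fderiv {f : G × ℂ → V} (hf : ContDiff ℝ ∞ f) (hc : HasCompactSupport f) (y u : G) :
    fderiv ℝ (J f) y u = ∫ w : ℂ, fderiv ℝ f (y, w) (u, 0) := by
  rw [(JInt_hasFDerivAt hf hc y).fderiv]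
  have h1 : Integrable (fun w : ℂ => (fderiv ℝ f (y, w)).comp (ContinuousLinearMap.inl ℝ G ℂ)) := by
    have h2 := (JInt_clm hf hc y)
    exact ((ContinuousLinearMap.compL ℝ G (G × ℂ) V).flip (ContinuousLinearMap.inl ℝ G ℂ)).integrable_comp h2
  rw [ContinuousLinearMap.integral_apply h1]
  simp only [ContinuousLinearMap.comp_apply, ContinuousLinearMap.inl_apply]

theorem J_fderiv_integrable {f : G × ℂ → V} (hf : ContDiff ℝ ∞ f) (hc : HasCompactSupport f) (y : G) (v : G × ℂ) :
    Integrable (fun w : ℂ => fderiv ℝ f (y, w) v) :=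
  (ContinuousLinearMap.apply ℝ V v).integrable_comp (JInt_clm hf hc y)

theorem J_vert {f : G × ℂ → V} (hf : ContDiff ℝ ∞ f) (hc : HasCompactSupport f) (y : G) (v : ℂ) :
    ∫ w : ℂ, fderiv ℝ f (y, w) (0, v) = 0 := by
  have hfd : ∀ w : ℂ, HasFDerivAt (fun w : ℂ => f (y, w))
      ((fderiv ℝ f (y, w)).comp (ContinuousLinearMap.inr ℝ G ℂ)) w := by
    intro w
    have h1 : HasFDerivAt f (fderiv ℝ f (y, w)) (y, w) := (hf.differentiable (by simp) _).hasFDerivAt
    exact h1.comp w (hasFDerivAt_prodMk_right y w)
  have h2 := integral_bilinear_hasFDerivAt_right_eq_neg_left_of_integrable (μ := (volume : Measure ℂ))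
    (B := ContinuousLinearMap.lsmul ℝ ℝ (E := V)) (f := fun _ : ℂ => (1 : ℝ)) (f' := fun _ => 0)
    (g := fun w : ℂ => f (y, w)) (g' := fun w => (fderiv ℝ f (y, w)).comp (ContinuousLinearMap.inr ℝ G ℂ)) (v := v)
    (by simp)
    (by
      have h3 := J_fderiv_integrable hf hc y (0, v)
      simpa [ContinuousLinearMap.lsmul_apply] using h3)
    (by
      have h3 := J_integrable hf.continuous hc y
      simpa [ContinuousLinearMap.lsmul_apply] using h3)
    (fun w _ => hasFDerivAt_const 1 w) (fun w _ => hfd w)
  simpa [ContinuousLinearMap.lsmul_apply] using h2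

end Pool.Agent.FBR
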