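import Pool.Agent.FBR.Trans
import Pool.Agent.FBR.Push

/-!
# FBR/Zero: the zero lemma

`fi_integrable`: the integrand is continuous with compact support.  `zero_lemma`: the sum of the integrals over the fibre of
vertical densities, one for each product chart, vanishes if the sum of the densities vanishes (partition of unity and change of
variables).
-/

set_option autoImplicit false

noncomputable section

open scoped Manifold ContDiff Classical

open MeasureTheory

namespace Pool.Agent.FBR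

variable {E X : Type*} [NormedAddCommGroup E] [NormedSpace ℂ E] [FiniteDimensional ℂ E]
  [TopologicalSpace X] [ChartedSpace E X] [IsManifold 𝓘(ℂ, E) ω X] [CompactSpace X] [T2Space X]
  {F B : Type*} [NormedAddCommGroup F] [NormedSpace ℂ F] [FiniteDimensional ℂ F] [TopologicalSpace B]
  [ChartedSpace F B] [IsManifold 𝓘(ℂ, F) ω B] {π : X → B}

/-- a point of a product chart over `b` -/
private theorem Zero_pt (P : PC E F π) {b : B} (hb : b ∈ (chartAt F P.c).source) {w : ℂ}
    (hw : (chartAt F P.c b, w) ∈ P.O) : π (P.Ψ (chartAt F P.c b, w)) = b := by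
  obtain ⟨h1, h2⟩ := P.base hw
  exact (chartAt F P.c).injOn h1 hb h2

theorem fi_integrable (P : PC E F π) (D : X → E → ℝ) (b : B) (hb : b ∈ (chartAt F P.c).source)
    (hcont : VCont F π D b) {K : Set X} (hK : IsClosed K) (hKO : K ⊆ P.Ψ '' P.O)
    (hs : ∀ x, x ∉ K → ∀ ξ, D x ξ = 0) :
    Integrable fun w : ℂ => P.O.indicator (fun q => D (P.Ψ q) (dvec E P.Ψ q (0, 1))) (chartAt F P.c b, w) := by
  have hC : IsCompact {q | q ∈ P.O ∧ P.Ψ q ∈ K} := P.isCompact_preim hK.isCompact hKO
  have hcw : Continuous fun w : ℂ => (chartAt F P.c b, w) := by fun_prop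
  have hz : ∀ w : ℂ, (chartAt F P.c b, w) ∉ {q | q ∈ P.O ∧ P.Ψ q ∈ K} →
      P.O.indicator (fun q => D (P.Ψ q) (dvec E P.Ψ q (0, 1))) (chartAt F P.c b, w) = 0 := by
    intro w hw
    by_cases h : (chartAt F P.c b, w) ∈ P.O
    · rw [Set.indicator_of_mem h]
      exact hs _ (fun h' => hw ⟨h, h'⟩) _
    · exact Set.indicator_of_notMem h _
  have hcont' : Continuous fun w : ℂ =>
      P.O.indicator (fun q => D (P.Ψ q) (dvec E P.Ψ q (0, 1))) (chartAt F P.c b, w) := by
    rw [continuous_iff_continuousAt]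
    intro w
    by_cases h : (chartAt F P.c b, w) ∈ P.O
    · refine (hcont P hb w h).congr ?_
      filter_upwards [hcw.continuousAt.eventually (P.isOpen.mem_nhds h)] with w' hw'
      exact (Set.indicator_of_mem hw' (fun q => D (P.Ψ q) (dvec E P.Ψ q (0, 1)))).symm
    · have h1 : (chartAt F P.c b, w) ∈ {q | q ∈ P.O ∧ P.Ψ q ∈ K}ᶜ := fun h' => h h'.1
      have h2 : (fun _ : ℂ => (0 : ℝ)) =ᶠ[nhds w] fun w : ℂ =>
          P.O.indicator (fun q => D (P.Ψ q) (dvec E P.Ψ q (0, 1))) (chartAt F P.c b, w) := by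
        filter_upwards [hcw.continuousAt.eventually (hC.isClosed.isOpen_compl.mem_nhds h1)] with w' hw'
        exact (hz w' hw').symm
      exact continuousAt_const.congr h2
  refine hcont'.integrable_of_hasCompactSupport ?_
  have hC' : IsCompact (Prod.snd '' ({q | q ∈ P.O ∧ P.Ψ q ∈ K} ∩ {q : F × ℂ | q.1 = chartAt F P.c b})) :=
    (hC.inter_right (isClosed_eq continuous_fst continuous_const)).image continuous_snd
  refine HasCompactSupport.intro hC' fun w hw => hz w fun h => hw ⟨(chartAt F P.c b, w), ⟨h, rfl⟩, rfl⟩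

private theorem Zero_mul_VCont {χ : X → ℝ} (hχ : SmF E χ) {D : X → E → ℝ} {b : B} (hD : VCont F π D b) :
    VCont F π (fun x ξ => χ x * D x ξ) b := by
  intro P hb w hw
  have h1 : ContinuousAt (fun w' : ℂ => P.Ψ (chartAt F P.c b, w')) w :=
    ContinuousAt.comp (f := fun w' : ℂ => (chartAt F P.c b, w')) (g := P.Ψ) (P.hol _ hw).1 (by fun_prop)
  exact (hχ.continuous.continuousAt.comp h1).mul (hD P hb w hw)

private theorem Zero_chi {χ : X → ℝ} {x : X} (h : x ∉ tsupport χ) : χ x = 0 := image_eq_zero_of_notMem_tsupport h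

private theorem Zero_fi_sum {ι : Type*} (s : Finset ι) (P : PC E F π) (D : ι → X → E → ℝ) (b : B)
    (hcont : ∀ i, VCont F π (D i) b) {K : Set X} (hK : IsClosed K) (hKO : K ⊆ P.Ψ '' P.O)
    (hs : ∀ i x, x ∉ K → ∀ ξ, D i x ξ = 0) :
    ∑ i ∈ s, fi P (D i) b = fi P (fun x ξ => ∑ i ∈ s, D i x ξ) b := by
  unfold fi
  split_ifs with hb
  · rw [← integral_finset_sum s fun i _ => fi_integrable P (D i) b hb (hcont i) hK hKO (hs i)]
    congr 1
    funext w
    by_cases h : (chartAt F P.c b, w) ∈ P.O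
    · rw [Set.indicator_of_mem h]
      exact Finset.sum_congr rfl fun i _ => Set.indicator_of_mem h _
    · rw [Set.indicator_of_notMem h]
      exact Finset.sum_eq_zero fun i _ => Set.indicator_of_notMem h _
  · exact Finset.sum_const_zero

theorem zero_lemma (hπ : ContMDiff 𝓘(ℂ, E) 𝓘(ℂ, F) ω π) (d : FD E F π) (b : B) (D : Fin d.n → X → E → ℝ)
    (hom : ∀ (i : Fin d.n) (x : X) (ξ : E) (r : ℂ), D i x (r • ξ) = ‖r‖ ^ 2 * D i x ξ)
    (hcont : ∀ i, VCont F π (D i) b)
    (hsupp : ∀ i x, x ∉ tsupport (d.χ i) → ∀ ξ, D i x ξ = 0)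
    (hsum : ∀ x, π x = b → ∀ ξ, dmap E F π x ξ = 0 → ∑ i, D i x ξ = 0) :
    ∑ i, fi (d.P i) (D i) b = 0 := by
  have hc : ∀ i k, VCont F π (fun x ξ => d.χ k x * D i x ξ) b := fun i k => Zero_mul_VCont (d.sm k) (hcont i)
  have h1 : ∀ i, fi (d.P i) (D i) b = ∑ k, fi (d.P i) (fun x ξ => d.χ k x * D i x ξ) b := by
    intro i
    rw [Zero_fi_sum Finset.univ (d.P i) (fun k x ξ => d.χ k x * D i x ξ) b (fun k => hc i k)
      (isClosed_tsupport (d.χ i)) (d.supp i) (fun k x hx ξ => by rw [hsupp i x hx ξ, mul_zero])]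
    congr 1
    funext x ξ
    rw [← Finset.sum_mul, d.sum x, one_mul]
  have h2 : ∀ i k, fi (d.P i) (fun x ξ => d.χ k x * D i x ξ) b = fi (d.P k) (fun x ξ => d.χ k x * D i x ξ) b := by
    intro i k
    refine transfer (d.P i) (d.P k) _ (fun x ξ r => ?_) b (fun x _ hx ξ => ?_)
    · rw [hom]
      ring
    · rcases hx with hx | hx
      · rw [hsupp i x (fun h => hx (d.supp i h)) ξ, mul_zero]
      · rw [Zero_chi (fun h => hx (d.supp k h)), zero_mul]
  have h3 : ∀ k, ∑ i, fi (d.P k) (fun x ξ => d.χ k x * D i x ξ) b = 0 := by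
    intro k
    rw [Zero_fi_sum Finset.univ (d.P k) (fun i x ξ => d.χ k x * D i x ξ) b (fun i => hc i k)
      (isClosed_tsupport (d.χ k)) (d.supp k) (fun i x hx ξ => by rw [Zero_chi hx, zero_mul])]
    unfold fi
    split_ifs with hb
    · refine integral_eq_zero_of_ae (Filter.Eventually.of_forall fun w => ?_)
      by_cases h : (chartAt F (d.P k).c b, w) ∈ (d.P k).O
      · refine (Set.indicator_of_mem h _).trans ?_
        show ∑ i, d.χ k _ * D i _ _ = 0
        rw [← Finset.mul_sum, hsum _ (Zero_pt (d.P k) hb h) _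
          (((d.P k).vert_iff hπ h _).2 ⟨1, (one_smul ℂ _).symm⟩), mul_zero]
      · exact Set.indicator_of_notMem h _
    · rfl
  rw [Finset.sum_congr rfl fun i _ => h1 i, Finset.sum_comm]
  refine Finset.sum_eq_zero fun k _ => ?_
  rw [← h3 k]
  exact Finset.sum_congr rfl fun i _ => h2 i k

end Pool.Agent.FBR
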