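import Pool.Agent.FBR.DerF
import Pool.Agent.FBR.Zero
import Pool.Agent.FBR.Ext

/-!
# FBR/Vol: the fibre integral of `β` is constant, so `β` is positive somewhere on every fibre

PROOF PLAN.  `fi_eq_extF`: unfold; `beta_chart`; `Fi` is the integrand.  `fvol_smF`, `fvol_dF`: `fvol` is the sum of the
`extF (d.P i).c (J (Fi ...))` (`extF_smF`, `extF_dF`, `J_smooth`, `J_compact`, `Fi_smooth`, `cut_compact`, `cut_J_tsupport`), so
`dF F (fvol d β) b u = ∑ i, (if b ∈ source then fderiv ℝ (J (Fi ..)) (chart b) (tc u) else 0) = ∑ i, fi (d.P i) (D i) b` by `deriv_JF`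
(`fi` is zero if `b` is not in the source), `D i x ξ = Z3 (dF E (d.χ i) x) (β.val x) (L x) ξ (I • ξ)`, `L x` any vector with
`dmap E F π x (L x) = u` (`h.subm`, `dmap_eq`).  This is `0` by `zero_lemma` (`Z3_hom`, `Z3_vcont`, `dF_eq_zero`, `Z3_zero`; `∑ i, Z3 (dF (χ i)) = Z3 (dF (∑ χ i)) = Z3 0`:
`Z3_sum`, `dF_sum`, `dF_const`, `d.sum`).  `const_of_dF`: in every chart `g ∘ (chartAt F p).symm` has derivative zero at every point of the
target (`fderiv_fun` with `g = (chartAt F p).symm`), so `g` is locally constant (convex balls: `IsOpen.is_const_of_fderiv_eq_zero`,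
or `Convex.is_const_of_fderivWithin_eq_zero`), and `B` is connected: `IsLocallyConstant`.
`fib_point`: `fvol d β (π x0) > 0`: all integrands are `≥ 0` (`tpb_semi`, `(0, I) = I • (0, 1)`, `d.nonneg`), and for `i` with `d.χ i x0 > 0`
(`d.sum`), `x0 = (d.P i).Ψ q0` (`d.supp`, `subset_tsupport`), the integrand is continuous with compact support and positive at `q0.2`
(`Continuous.integral_pos_of_hasCompactSupport_nonneg_nonzero`).  Hence `fvol d β b > 0` for all `b`; if at all points `x` of
the fibre over `b` the number `tpb β.val Ψ q (0,1) (0,I)` was `0`, the sum would be `0`; so it is `> 0` at some `x = (d.P i).Ψ q`; all vertical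
`ξ ≠ 0` are `r • dvec E Ψ q (0, 1)`, `r ≠ 0` (`PC.vert_iff`): `hom_of_alt`.
-/

set_option autoImplicit false

noncomputable section

open scoped Manifold ContDiff Classical

open MeasureTheory

namespace Pool.Agent.FBR

variable {E X : Type*} [NormedAddCommGroup E] [NormedSpace ℂ E] [FiniteDimensional ℂ E]
  [TopologicalSpace X] [ChartedSpace E X] [IsManifold 𝓘(ℂ, E) ω X] [CompactSpace X] [T2Space X]
  {F B : Type*} [NormedAddCommGroup F] [NormedSpace ℂ F] [FiniteDimensional ℂ F] [TopologicalSpace B]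
  [ChartedSpace F B] [IsManifold 𝓘(ℂ, F) ω B] [CompactSpace B] [T2Space B] {π : X → B}

theorem fi_eq_extF (P : PC E F π) (χ : X → ℝ) (β : Form E X) (b : B) :
    fi P (fun x ξ => χ x * β.val x ξ (Complex.I • ξ)) b = extF P.c (J (Fi P χ β)) b := by
  unfold fi extF J Fi
  by_cases hb : b ∈ (chartAt F P.c).source
  · rw [if_pos hb, if_pos hb]
    congr 1
    funext w
    by_cases hq : (chartAt F P.c b, w) ∈ P.O
    · rw [Set.indicator_of_mem hq, Set.indicator_of_mem hq, smul_eq_mul]
      exact congrArg (fun t : ℝ => χ (P.Ψ (chartAt F P.c b, w)) * t) (beta_chart P β hq)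
    · rw [Set.indicator_of_notMem hq, Set.indicator_of_notMem hq]
  · rw [if_neg hb, if_neg hb]

omit [CompactSpace B] [T2Space B] in
private theorem Vol_JF_smooth (d : FD E F π) (β : Form E X) (i : Fin d.n) :
    ContDiff ℝ ∞ (J (Fi (d.P i) (d.χ i) β)) :=
  J_smooth (Fi_smooth (d.P i) β (d.sm i) (d.supp i)) (cut_compact (d.P i) (d.supp i) _)

omit [CompactSpace B] [T2Space B] in
private theorem Vol_JF_compact (d : FD E F π) (β : Form E X) (i : Fin d.n) :
    HasCompactSupport (J (Fi (d.P i) (d.χ i) β)) :=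
  J_compact (cut_compact (d.P i) (d.supp i) _)

omit [CompactSpace B] [T2Space B] in
private theorem Vol_JF_supp (d : FD E F π) (β : Form E X) (i : Fin d.n) :
    tsupport (J (Fi (d.P i) (d.χ i) β)) ⊆ (chartAt F (d.P i).c).target :=
  cut_J_tsupport (d.P i) (d.supp i) _

private theorem Vol_fvol_eq (d : FD E F π) (β : Form E X) :
    fvol d β = fun b => ∑ i, extF (d.P i).c (J (Fi (d.P i) (d.χ i) β)) b := by
  funext b
  exact Finset.sum_congr rfl fun i _ => fi_eq_extF (d.P i) (d.χ i) β b

theorem fvol_smF (d : FD E F π) (β : Form E X) : SmF F (fvol d β) := by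
  rw [Vol_fvol_eq]
  exact SmF.sum Finset.univ fun i _ =>
    extF_smF (Vol_JF_smooth d β i) (Vol_JF_compact d β i) (Vol_JF_supp d β i)

theorem fvol_dF (h : CurveFib E F π) (d : FD E F π) (β : Form E X) (b : B) : dF F (fvol d β) b = 0 := by
  ext u
  have hex : ∀ x : X, ∃ v : E, π x = b → dmap E F π x v = u := by
    intro x
    by_cases hx : π x = b
    · obtain ⟨v, hv⟩ := h.subm x u
      exact ⟨v, fun _ => (dmap_eq h.hol x v).trans hv⟩
    · exact ⟨0, fun h' => absurd h' hx⟩
  choose L hL using hex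
  have h1 : dF F (fvol d β) b u =
      ∑ i, fi (d.P i) (fun x ξ => Z3 (dF E (d.χ i) x) (β.val x) (L x) ξ (Complex.I • ξ)) b := by
    rw [Vol_fvol_eq, dF_sum Finset.univ fun i _ =>
      extF_smF (Vol_JF_smooth d β i) (Vol_JF_compact d β i) (Vol_JF_supp d β i)]
    rw [sum_apply]
    refine Finset.sum_congr rfl fun i _ => ?_
    rw [extF_dF (Vol_JF_smooth d β i) (Vol_JF_compact d β i) (Vol_JF_supp d β i)]
    by_cases hb : b ∈ (chartAt F (d.P i).c).source
    · rw [if_pos hb, ContinuousLinearMap.comp_apply]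
      exact deriv_JF h.hol (d.P i) β (d.sm i) (d.supp i) hb hL
    · rw [if_neg hb]
      unfold fi
      rw [if_neg hb]
      rfl
  rw [h1]
  refine zero_lemma h.hol d b _ ?_ ?_ ?_ ?_
  · intro i x ξ r
    exact Z3_hom _ (fun u => β.alt x u) _ r ξ
  · intro i
    exact Z3_vcont h.hol β (d.sm i) hL
  · intro i x hx ξ
    rw [dF_eq_zero hx, Z3_zero]
  · intro x _ ξ _
    rw [← Z3_sum, ← dF_sum Finset.univ fun i _ => d.sm i]
    have h2 : (fun x => ∑ i, d.χ i x) = fun _ : X => (1 : ℝ) := funext d.sum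
    rw [h2, dF_const, Z3_zero]

omit [CompactSpace B] [T2Space B] in
theorem const_of_dF [ConnectedSpace B] {g : B → ℝ} (hg : SmF F g) (h0 : ∀ b, dF F g b = 0) (b b' : B) :
    g b = g b' := by
  refine IsLocallyConstant.apply_eq_of_preconnectedSpace ?_ b b'
  rw [IsLocallyConstant.iff_eventually_eq]
  intro p
  have hp : chartAt F p p ∈ (chartAt F p).target := mem_chart_target F p
  obtain ⟨r, hr, hball⟩ := Metric.isOpen_iff.1 (chartAt F p).open_target _ hp
  have hd : ∀ y ∈ Metric.ball (chartAt F p p) r, DifferentiableAt ℝ (g ∘ (chartAt F p).symm) y ∧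
      fderiv ℝ (g ∘ (chartAt F p).symm) y = 0 := by
    intro y hy
    have h1 : Sm F (chartAt F p).symm y := (hol_symm (hball hy)).sm
    refine ⟨(hg.at h1).differentiableAt (by simp), ?_⟩
    rw [fderiv_fun hg h1, h0]
    exact ContinuousLinearMap.zero_comp _
  have hc1 : ∀ᶠ z in nhds p, z ∈ (chartAt F p).source :=
    (chartAt F p).open_source.mem_nhds (mem_chart_source F p)
  have hc2 : ∀ᶠ z in nhds p, chartAt F p z ∈ Metric.ball (chartAt F p p) r :=
    ((chartAt F p).continuousAt (mem_chart_source F p)).eventually (Metric.ball_mem_nhds _ hr)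
  filter_upwards [hc1, hc2] with z hz1 hz2
  have h2 := Metric.isOpen_ball.is_const_of_fderiv_eq_zero (𝕜 := ℝ) (convex_ball _ _).isPreconnected
    (fun y hy => (hd y hy).1.differentiableWithinAt) (fun y hy => (hd y hy).2) hz2
    (Metric.mem_ball_self hr)
  have h3 : (chartAt F p).symm (chartAt F p z) = z := (chartAt F p).left_inv hz1
  have h4 : (chartAt F p).symm (chartAt F p p) = p := (chartAt F p).left_inv (mem_chart_source F p)
  have h5 : g ((chartAt F p).symm (chartAt F p z)) = g ((chartAt F p).symm (chartAt F p p)) := h2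
  rw [h3, h4] at h5
  exact h5

/-- on every fibre there is a point at which `β` is positive on the vertical vectors -/
theorem fib_point [ConnectedSpace B] (h : CurveFib E F π) (β : Form E X) (hβ : β.Semi) (x0 : X)
    (hx0 : β.PosAt x0) (b : B) :
    ∃ x, π x = b ∧ ∀ ξ : E, ξ ≠ 0 → dmap E F π x ξ = 0 → 0 < β.val x ξ (Complex.I • ξ) := by
  obtain ⟨d⟩ := exists_FD h
  -- the integrands are nonnegative
  have hnn : ∀ i (q : F × ℂ), 0 ≤ (d.P i).O.indicator
      (fun q => d.χ i ((d.P i).Ψ q) * β.val ((d.P i).Ψ q) (dvec E (d.P i).Ψ q (0, 1))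
        (Complex.I • dvec E (d.P i).Ψ q (0, 1))) q := by
    intro i
    exact Set.indicator_nonneg fun q _ => mul_nonneg (d.nonneg i _) (hβ _ _)
  have hfi : ∀ i b', 0 ≤ fi (d.P i) (fun x ξ => d.χ i x * β.val x ξ (Complex.I • ξ)) b' := by
    intro i b'
    unfold fi
    split_ifs
    · exact integral_nonneg fun w => hnn i _
    · exact le_rfl
  -- the fibre integral is positive over `π x0`
  have hpos : 0 < fvol d β (π x0) := by
    obtain ⟨i, hi⟩ : ∃ i, 0 < d.χ i x0 := by
      by_contra hno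
      have h1 : ∑ i, d.χ i x0 ≤ 0 := by
        refine Finset.sum_nonpos fun i _ => ?_
        by_contra h2
        exact hno ⟨i, not_le.1 h2⟩
      rw [d.sum x0] at h1
      exact absurd h1 (by norm_num)
    obtain ⟨q0, hq0, hx⟩ := d.supp i (subset_tsupport _ (ne_of_gt hi : d.χ i x0 ≠ 0))
    have hbase := (d.P i).base hq0
    rw [hx] at hbase
    have hint : 0 < fi (d.P i) (fun x ξ => d.χ i x * β.val x ξ (Complex.I • ξ)) (π x0) := by
      rw [fi_eq_extF]
      unfold extF
      rw [if_pos hbase.1, hbase.2]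
      have hsm := Fi_smooth (d.P i) β (d.sm i) (d.supp i)
      have hcp : HasCompactSupport (Fi (d.P i) (d.χ i) β) := cut_compact (d.P i) (d.supp i) _
      have hcw : Continuous fun w : ℂ => Fi (d.P i) (d.χ i) β (q0.1, w) :=
        hsm.continuous.comp (by fun_prop)
      have hge : ∀ q, 0 ≤ Fi (d.P i) (d.χ i) β q := by
        intro q
        by_cases hq : q ∈ (d.P i).O
        · have h3 := hnn i q
          rw [Set.indicator_of_mem hq, beta_chart (d.P i) β hq] at h3
          unfold Fi
          rw [Set.indicator_of_mem hq]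
          exact h3
        · unfold Fi
          rw [Set.indicator_of_notMem hq]
      have hgt : Fi (d.P i) (d.χ i) β q0 ≠ 0 := by
        unfold Fi
        rw [Set.indicator_of_mem hq0, ← beta_chart (d.P i) β hq0, hx, smul_eq_mul]
        exact (mul_pos hi (hx0 _ ((d.P i).dvec_ne hq0))).ne'
      have hint2 := J_integrable hsm.continuous hcp q0.1
      have h4 := (integral_pos_iff_support_of_nonneg (fun w => hge (q0.1, w)) hint2).2
        (hcw.isOpen_support.measure_pos volume ⟨q0.2, hgt⟩)
      exact h4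
    have h5 : fi (d.P i) (fun x ξ => d.χ i x * β.val x ξ (Complex.I • ξ)) (π x0) ≤ fvol d β (π x0) :=
      Finset.single_le_sum (f := fun i => fi (d.P i) (fun x ξ => d.χ i x * β.val x ξ (Complex.I • ξ)) (π x0))
        (fun j _ => hfi j _) (Finset.mem_univ i)
    exact lt_of_lt_of_le hint h5
  rw [const_of_dF (fvol_smF d β) (fun b => fvol_dF h d β b) (π x0) b] at hpos
  obtain ⟨i, hi⟩ : ∃ i, 0 < fi (d.P i) (fun x ξ => d.χ i x * β.val x ξ (Complex.I • ξ)) b := by
    by_contra hno
    have h1 : fvol d β b ≤ 0 := by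
      refine Finset.sum_nonpos fun i _ => ?_
      by_contra h2
      exact hno ⟨i, not_le.1 h2⟩
    exact absurd h1 (not_le.2 hpos)
  unfold fi at hi
  by_cases hb : b ∈ (chartAt F (d.P i).c).source
  · rw [if_pos hb] at hi
    obtain ⟨w, hw⟩ : ∃ w : ℂ, (d.P i).O.indicator
        (fun q => d.χ i ((d.P i).Ψ q) * β.val ((d.P i).Ψ q) (dvec E (d.P i).Ψ q (0, 1))
          (Complex.I • dvec E (d.P i).Ψ q (0, 1))) (chartAt F (d.P i).c b, w) ≠ 0 := by
      by_contra hno
      have h2 : ∀ w : ℂ, (d.P i).O.indicator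
        (fun q => d.χ i ((d.P i).Ψ q) * β.val ((d.P i).Ψ q) (dvec E (d.P i).Ψ q (0, 1))
          (Complex.I • dvec E (d.P i).Ψ q (0, 1))) (chartAt F (d.P i).c b, w) = 0 := by
        intro w
        by_contra h3
        exact hno ⟨w, h3⟩
      have h4 := integral_eq_zero_of_ae (μ := (volume : Measure ℂ)) (Filter.Eventually.of_forall h2)
      rw [h4] at hi
      exact lt_irrefl _ hi
    have hq : (chartAt F (d.P i).c b, w) ∈ (d.P i).O := by
      by_contra hq
      exact hw (Set.indicator_of_notMem hq _)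
    rw [Set.indicator_of_mem hq] at hw
    have hne := right_ne_zero_of_mul hw
    have hbp := lt_of_le_of_ne (hβ _ _) (Ne.symm hne)
    refine ⟨(d.P i).Ψ (chartAt F (d.P i).c b, w), ?_, ?_⟩
    · rw [(d.P i).proj _ hq]
      exact (chartAt F (d.P i).c).left_inv hb
    · intro ξ hξ hv
      obtain ⟨r, rfl⟩ := ((d.P i).vert_iff h.hol hq ξ).1 hv
      have hr : r ≠ 0 := by
        rintro rfl
        exact hξ (zero_smul _ _)
      rw [hom_of_alt (fun u => β.alt _ u)]
      exact mul_pos (pow_pos (norm_pos_iff.2 hr) 2) hbp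
  · rw [if_neg hb] at hi
    exact absurd hi (lt_irrefl _)

end Pool.Agent.FBR
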