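import Pool.Agent.FBR.Inv
import Pool.Agent.FBR.Tpb

/-!
# FBR/MkForm: how to construct forms

PROOF PLAN.  `exists_form`: let `p : X`, `y0 ∈ (chartAt E p).target`, `x = (chartAt E p).symm y0`; take `g, O, q0` for
`x` and the local inverse `W, k` of `sm_inv` (for the chart at `p`).  On the open set `W`, `g ∘ k = (chartAt E p).symm`,
so `coef a p y = tpb a (g ∘ k) y = (tpb a g (k y)).bilinearComp (fderiv ℝ k y) (fderiv ℝ k y)` (`tpb` only depends on the
germ; `tpb_comp`).  Then `contDiffAt_pull` and `ext2_pull` (`Closed2 a q ↔ ∀ u v w, ext2 a q u v w = 0`).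
The other statements: surjectivity of `dvec E g q`, and `Hol.smul_I`.
-/

set_option autoImplicit false

noncomputable section

open scoped Manifold ContDiff

namespace Pool.Agent.FBR

variable {E X : Type*} [NormedAddCommGroup E] [NormedSpace ℂ E] [FiniteDimensional ℂ E]
  [TopologicalSpace X] [ChartedSpace E X] [IsManifold 𝓘(ℂ, E) ω X]
  {G : Type*} [NormedAddCommGroup G] [NormedSpace ℝ G] [FiniteDimensional ℝ G]
  {H : Type*} [NormedAddCommGroup H] [NormedSpace ℂ H]

omit [FiniteDimensional ℂ E] [IsManifold 𝓘(ℂ, E) ω X] [FiniteDimensional ℝ G] in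
private theorem MkForm_tpb_congr (a : X → Bil E) {f f' : G → X} {q : G} (h : f =ᶠ[nhds q] f') :
    tpb a f q = tpb a f' q := by
  have h1 : f q = f' q := h.eq_of_nhds
  have h2 : fderiv ℝ (chartAt E (f q) ∘ f) q = fderiv ℝ (chartAt E (f' q) ∘ f') q := by
    rw [h1]
    exact Filter.EventuallyEq.fderiv_eq (h.fun_comp (chartAt E (f' q)))
  unfold tpb
  rw [h2, h1]

private theorem MkForm_loc (a : X → Bil E) {p : X} {y0 : E} (hy : y0 ∈ (chartAt E p).target)
    {g : G → X} {O : Set G} (hO : IsOpen O) {q0 : G} (hq0 : q0 ∈ O)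
    (hg : g q0 = (chartAt E p).symm y0)
    (hs : ∀ q ∈ O, Sm E g q ∧ Function.Bijective (dvec E g q)) :
    ∃ k : E → G, k y0 = q0 ∧ ContDiffAt ℝ ∞ k y0 ∧
      coef a p =ᶠ[nhds y0] fun y => (tpb a g (k y)).bilinearComp (fderiv ℝ k y) (fderiv ℝ k y) := by
  have hp : g q0 ∈ (chartAt E p).source := by
    rw [hg]
    exact (chartAt E p).map_target hy
  obtain ⟨W, k, hW, hyW, -, hk0, hk⟩ := sm_inv hO (fun q hq => (hs q hq).1) hq0 (hs q0 hq0).2 hp
  rw [hg, (chartAt E p).right_inv hy] at hyW hk0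
  refine ⟨k, hk0, (hk y0 hyW).2.2, ?_⟩
  filter_upwards [hW.mem_nhds hyW] with y hyW'
  have h1 : (chartAt E p).symm =ᶠ[nhds y] (g ∘ k) := by
    filter_upwards [hW.mem_nhds hyW'] with z hz
    exact (hk z hz).2.1.symm
  have h2 : coef a p y = tpb a (g ∘ k) y := MkForm_tpb_congr a h1
  rw [h2]
  exact tpb_comp a (hs (k y) (hk y hyW').1).1 ((hk y hyW').2.2.differentiableAt (by simp))

theorem exists_form (a : X → Bil E) (halt : ∀ x v, a x v v = 0)
    (hj : ∀ x u v, a x (Complex.I • u) (Complex.I • v) = a x u v)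
    (hloc : ∀ x : X, ∃ (g : G → X) (O : Set G), IsOpen O ∧ (∃ q0 ∈ O, g q0 = x) ∧
      (∀ q ∈ O, Sm E g q ∧ Function.Bijective (dvec E g q)) ∧
      ContDiffOn ℝ ∞ (tpb a g) O ∧ ∀ q ∈ O, Closed2 (tpb a g) q) :
    ∃ b : Form E X, b.val = a := by
  have hkey : ∀ p : X, ∀ y ∈ (chartAt E p).target, ContDiffAt ℝ ∞ (coef a p) y ∧
      ∀ u v w, ext2 (coef a p) y u v w = 0 := by
    intro p y hy
    obtain ⟨g, O, hO, ⟨q0, hq0, hg⟩, hs, hsm, hcl⟩ := hloc ((chartAt E p).symm y)
    obtain ⟨k, hk0, hk, hev⟩ := MkForm_loc a hy hO hq0 hg hs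
    have hsm' : ContDiffAt ℝ ∞ (tpb a g) (k y) := by
      rw [hk0]
      exact hsm.contDiffAt (hO.mem_nhds hq0)
    refine ⟨(contDiffAt_pull (tpb a g) k y hsm' hk).congr_of_eventuallyEq hev, ?_⟩
    intro u v w
    have h1 := ext2_pull (tpb a g) k y (hsm'.differentiableAt (by simp)) (fun u => halt _ _)
      (hk.of_le (WithTop.coe_le_coe.2 (le_top : (2 : ℕ∞) ≤ ⊤))) u v w
    have h2 : ext2 (coef a p) y u v w =
        ext2 (fun y => (tpb a g (k y)).bilinearComp (fderiv ℝ k y) (fderiv ℝ k y)) y u v w := by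
      unfold ext2
      rw [hev.fderiv_eq]
    rw [h2, h1]
    have h3 := hcl q0 hq0
    rw [← hk0] at h3
    exact h3 _ _ _
  exact ⟨{ val := a, alt := halt, j := hj
           smooth := fun p y hy => (hkey p y hy).1.contDiffWithinAt
           closed := fun p y hy u v w => (hkey p y hy).2 u v w }, rfl⟩

/-- the same with conditions on the coefficients in the charts only near the centre of each chart -/
theorem exists_form_coef (a : X → Bil E) (halt : ∀ x v, a x v v = 0)
    (hj : ∀ x u v, a x (Complex.I • u) (Complex.I • v) = a x u v)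
    (hs : ∀ p : X, ∀ y ∈ (chartAt E p).target, ContDiffAt ℝ ∞ (coef a p) y)
    (hc : ∀ p : X, ∀ y ∈ (chartAt E p).target, ∀ u v w, ext2 (coef a p) y u v w = 0) :
    ∃ b : Form E X, b.val = a := by
  exact ⟨{ val := a, alt := halt, j := hj
           smooth := fun p y hy => (hs p y hy).contDiffWithinAt
           closed := fun p y hy u v w => hc p y hy u v w }, rfl⟩

theorem alt_of_par (a : X → Bil E) {g : G → X} {q : G} (hb : Function.Surjective (dvec E g q))
    (h : ∀ v : G, tpb a g q v v = 0) (v : E) : a (g q) v v = 0 := by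
  obtain ⟨v', rfl⟩ := hb v
  exact h v'

theorem j_of_par (a : X → Bil E) {g : H → X} {q : H} (hg : Hol E g q) (hb : Function.Surjective (dvec E g q))
    (h : ∀ u v : H, tpb a g q (Complex.I • u) (Complex.I • v) = tpb a g q u v) (u v : E) :
    a (g q) (Complex.I • u) (Complex.I • v) = a (g q) u v := by
  obtain ⟨u', rfl⟩ := hb u
  obtain ⟨v', rfl⟩ := hb v
  rw [← hg.smul_I, ← hg.smul_I]
  exact h u' v'

end Pool.Agent.FBR
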