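import Pool.Agent.FBR.Spread

/-!
# FBR/Asc: a function which makes the form positive on all fibres

PROOF PLAN.  For `b : B` let `φ b` be the function of `hpt` and `N b = {x | ¬ VPos F π (c + ddcF (φ b)) x}`, closed by `vpos_open` (`c + ddcF φ` is the `val` of
a form: `exists_ddcF`, `exists_comb`), so compact; `O b = (π '' N b)ᶜ` is open (`π` is continuous: `h.hol`; `B` is Hausdorff) and contains `b`; for `x` with
`π x ∈ O b`, `c + ddcF (φ b)` is positive at `x`.  `pou` on `B`: `χ i` with support in `O (b i)`.  `φ = ∑ i, (χ i ∘ π) * φ (b i)`; `SmF.sum`, `SmF.mul`, `SmF.comp_holo`;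
for `ξ` vertical at `x`: `(c + ddcF φ) ξ (I ξ) = ∑ i, χ i (π x) * (c + ddcF (φ (b i))) ξ (I ξ)` (`ddcF_sum`, `ddcF_mul_vert`, `∑ χ i = 1`); all summands are
`≥ 0` (if `χ i (π x) ≠ 0` then `π x ∈ O (b i)`), one is `> 0`.
-/

set_option autoImplicit false

noncomputable section

open scoped Manifold ContDiff Classical

namespace Pool.Agent.FBR

variable {E X : Type*} [NormedAddCommGroup E] [NormedSpace ℂ E] [FiniteDimensional ℂ E]
  [TopologicalSpace X] [ChartedSpace E X] [IsManifold 𝓘(ℂ, E) ω X] [CompactSpace X] [T2Space X]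
  {F B : Type*} [NormedAddCommGroup F] [NormedSpace ℂ F] [FiniteDimensional ℂ F] [TopologicalSpace B]
  [ChartedSpace F B] [IsManifold 𝓘(ℂ, F) ω B] [CompactSpace B] [T2Space B] {π : X → B}

theorem ascend (h : CurveFib E F π) (c : Form E X)
    (hpt : ∀ b : B, ∃ φ : X → ℝ, SmF E φ ∧ ∀ x, π x = b → VPos F π (fun x => c.val x + ddcF E φ x) x) :
    ∃ φ : X → ℝ, SmF E φ ∧ ∀ x, VPos F π (fun x => c.val x + ddcF E φ x) x := by
  choose φ hφ hv using hpt
  have hfo : ∀ b : B, ∃ d : Form E X, d.val = fun x => c.val x + ddcF E (φ b) x := by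
    intro b
    obtain ⟨c1, hc1⟩ := exists_ddcF (hφ b)
    obtain ⟨d, hd⟩ := exists_comb c c1 1 1
    refine ⟨d, ?_⟩
    funext x
    rw [hd x, one_smul, one_smul, hc1]
  have hop : ∀ b : B, IsOpen {x | VPos F π (fun x => c.val x + ddcF E (φ b) x) x} := by
    intro b
    obtain ⟨d, hd⟩ := hfo b
    rw [← hd]
    exact vpos_open h d
  have hcont : Continuous π := h.hol.continuous
  let N : B → Set X := fun b => {x | VPos F π (fun x => c.val x + ddcF E (φ b) x) x}ᶜ
  have hNc : ∀ b, IsCompact (N b) := fun b => (hop b).isClosed_compl.isCompact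
  let O : B → Set B := fun b => (π '' N b)ᶜ
  have hO : ∀ b, IsOpen (O b) := fun b => ((hNc b).image hcont).isClosed.isOpen_compl
  have hbO : ∀ b, b ∈ O b := by
    rintro b ⟨x, hx, hxb⟩
    exact hx (hv b x hxb)
  have hpos : ∀ b x, π x ∈ O b → VPos F π (fun x => c.val x + ddcF E (φ b) x) x := by
    intro b x hx
    by_contra hn
    exact hx ⟨x, hn, rfl⟩
  obtain ⟨n, p, χ, hsm, hnn, hsupp, hsum⟩ := pou (E := F) O hO hbO
  have hsmi : ∀ i ∈ (Finset.univ : Finset (Fin n)), SmF E (fun x => χ i (π x) * φ (p i) x) := by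
    intro i _
    exact ((hsm i).comp_holo h.hol).mul (hφ (p i))
  refine ⟨fun x => ∑ i, χ i (π x) * φ (p i) x, SmF.sum Finset.univ hsmi, ?_⟩
  intro x ξ hξ hvert
  show 0 < (c.val x + ddcF E (fun x => ∑ i, χ i (π x) * φ (p i) x) x) ξ (Complex.I • ξ)
  have e1 : ddcF E (fun x => ∑ i, χ i (π x) * φ (p i) x) x ξ (Complex.I • ξ) =
      ∑ i, χ i (π x) * ddcF E (φ (p i)) x ξ (Complex.I • ξ) := by
    rw [ddcF_sum Finset.univ hsmi x]
    simp only [sum_apply]
    refine Finset.sum_congr rfl fun i _ => ?_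
    exact ddcF_mul_vert (hsm i) (hφ (p i)) h.hol hvert
  have e2 : (c.val x + ddcF E (fun x => ∑ i, χ i (π x) * φ (p i) x) x) ξ (Complex.I • ξ) =
      ∑ i, χ i (π x) * (c.val x ξ (Complex.I • ξ) + ddcF E (φ (p i)) x ξ (Complex.I • ξ)) := by
    simp only [add_apply, mul_add, Finset.sum_add_distrib]
    rw [e1, ← Finset.sum_mul, hsum (π x), one_mul]
  rw [e2]
  have hterm : ∀ i, χ i (π x) ≠ 0 →
      0 < c.val x ξ (Complex.I • ξ) + ddcF E (φ (p i)) x ξ (Complex.I • ξ) := by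
    intro i hi
    exact hpos (p i) x (hsupp i (subset_tsupport _ hi)) ξ hξ hvert
  refine Finset.sum_pos' (fun i _ => ?_) ?_
  · by_cases hi : χ i (π x) = 0
    · rw [hi, zero_mul]
    · exact mul_nonneg (hnn i _) (hterm i hi).le
  · have : ∃ i, χ i (π x) ≠ 0 := by
      by_contra hcon
      push Not at hcon
      have h1 := hsum (π x)
      simp [hcon] at h1
    obtain ⟨i, hi⟩ := this
    exact ⟨i, Finset.mem_univ i, mul_pos (lt_of_le_of_ne (hnn i _) (Ne.symm hi)) (hterm i hi)⟩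

end Pool.Agent.FBR
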