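import Pool.Agent.FBR.Ops

/-!
# FBR/Cpt: a form which is positive on the fibres becomes positive after adding `C π^* ω`
-/

set_option autoImplicit false

noncomputable section

open scoped Manifold ContDiff

namespace Pool.Agent.FBR

universe u

theorem compact_add {T : Type*} [TopologicalSpace T] {K : Set T} (hK : IsCompact K) (f g : T → ℝ)
    (hf : ContinuousOn f K) (hg : ContinuousOn g K) (h0 : ∀ k ∈ K, 0 ≤ g k)
    (h1 : ∀ k ∈ K, g k = 0 → 0 < f k) : ∃ n : ℕ, ∀ k ∈ K, ∀ c : ℝ, n ≤ c → 0 < f k + c * g k := by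
  obtain ⟨n, hn⟩ : ∃ n : ℕ, ∀ k ∈ K, k ∈ K → 0 < f k + n * g k := by
    refine hK.induction_on (p := fun S => ∃ n : ℕ, ∀ k ∈ S, k ∈ K → 0 < f k + n * g k) ?_ ?_ ?_ ?_
    · exact ⟨0, fun k hk => absurd hk (Set.notMem_empty k)⟩
    · rintro S S' hS ⟨n, hn⟩
      exact ⟨n, fun k hk => hn k (hS hk)⟩
    · rintro S S' ⟨n, hn⟩ ⟨m, hm⟩
      refine ⟨max n m, fun k hk hkK => ?_⟩
      have h2 : (n : ℝ) ≤ ((max n m : ℕ) : ℝ) := by exact_mod_cast le_max_left n m
      have h3 : (m : ℝ) ≤ ((max n m : ℕ) : ℝ) := by exact_mod_cast le_max_right n m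
      rcases hk with hk | hk
      · have h4 := mul_le_mul_of_nonneg_right h2 (h0 k hkK)
        linarith [hn k hk hkK]
      · have h4 := mul_le_mul_of_nonneg_right h3 (h0 k hkK)
        linarith [hm k hk hkK]
    · intro x hx
      obtain ⟨n, hn⟩ : ∃ n : ℕ, 0 < f x + n * g x := by
        rcases (h0 x hx).eq_or_lt with h2 | h2
        · exact ⟨0, by rw [← h2, mul_zero, add_zero]; exact h1 x hx h2.symm⟩
        · obtain ⟨n, hn⟩ := exists_nat_gt (-f x / g x)
          refine ⟨n, ?_⟩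
          rw [div_lt_iff₀ h2] at hn
          linarith
      refine ⟨{k | 0 < f k + n * g k}, ?_, n, fun k hk _ => hk⟩
      have hc : ContinuousWithinAt (fun k => f k + n * g k) K x :=
        (hf x hx).add ((hg x hx).const_mul (n : ℝ))
      exact hc.eventually (lt_mem_nhds hn)
  refine ⟨n, fun k hk c hc => ?_⟩
  have h2 := mul_le_mul_of_nonneg_right hc (h0 k hk)
  linarith [hn k hk hk]

section

variable {E X : Type*} [NormedAddCommGroup E] [NormedSpace ℂ E] [FiniteDimensional ℂ E]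
  [TopologicalSpace X] [ChartedSpace E X] [IsManifold 𝓘(ℂ, E) ω X]

omit [FiniteDimensional ℂ E] in
private theorem Cpt_coef (b : Form E X) {x0 : X} {y : E} (hy : y ∈ (chartAt E x0).target) (v : E) :
    coef b.val x0 y v (Complex.I • v) = b.val ((chartAt E x0).symm y) (dvec E (chartAt E x0).symm y v)
      (Complex.I • dvec E (chartAt E x0).symm y v) := by
  unfold coef
  rw [tpb_apply, (hol_symm hy).smul_I]

omit [FiniteDimensional ℂ E] in
private theorem Cpt_smul (A : Bil E) (r : ℝ) (v : E) :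
    A (r • v) (Complex.I • (r • v)) = r * (r * A v (Complex.I • v)) := by
  have h1 : Complex.I • (r • v) = r • (Complex.I • v) := by
    rw [← Complex.coe_smul r v, ← Complex.coe_smul r (Complex.I • v), smul_smul, smul_smul, mul_comm]
  have h2 : A (r • v) = r • A v := A.map_smul r v
  have h3 : A v (r • (Complex.I • v)) = r * A v (Complex.I • v) := (A v).map_smul r _
  rw [h1, h2]
  show r * A v (r • (Complex.I • v)) = _
  rw [h3]

private theorem Cpt_local (b c : Form E X) (hc : ∀ x v, 0 ≤ c.val x v (Complex.I • v))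
    (hbc : ∀ x v, v ≠ 0 → c.val x v (Complex.I • v) = 0 → 0 < b.val x v (Complex.I • v)) (x0 : X) :
    ∃ t ∈ nhds x0, ∃ n : ℕ, ∀ x ∈ t, ∀ v, v ≠ 0 →
      0 < b.val x v (Complex.I • v) + n * c.val x v (Complex.I • v) := by
  have : ProperSpace E := FiniteDimensional.proper ℂ E
  obtain ⟨N, hN, hN0, hNt⟩ := exists_compact_subset (chartAt E x0).open_target (mem_chart_target E x0)
  have hcont : ∀ a : Form E X, ContinuousOn (fun q : E × E => coef a.val x0 q.1 q.2 (Complex.I • q.2))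
      (N ×ˢ Metric.sphere (0 : E) 1) := by
    intro a
    have h1 : ContinuousOn (fun q : E × E => coef a.val x0 q.1) (N ×ˢ Metric.sphere (0 : E) 1) :=
      ((a.smooth x0).continuousOn.mono hNt).comp continuousOn_fst (fun q hq => hq.1)
    exact (h1.clm_apply continuousOn_snd).clm_apply (continuousOn_snd.const_smul Complex.I)
  obtain ⟨n, hn⟩ := compact_add (hN.prod (isCompact_sphere (0 : E) 1)) _ _ (hcont b) (hcont c)
    (by
      rintro ⟨y, v⟩ ⟨hy, _⟩
      show 0 ≤ coef c.val x0 y v (Complex.I • v)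
      rw [Cpt_coef c (hNt hy)]
      exact hc _ _)
    (by
      rintro ⟨y, v⟩ ⟨hy, hv⟩ h0
      have h0 : coef c.val x0 y v (Complex.I • v) = 0 := h0
      show 0 < coef b.val x0 y v (Complex.I • v)
      rw [Cpt_coef c (hNt hy)] at h0
      rw [Cpt_coef b (hNt hy)]
      refine hbc _ _ ?_ h0
      intro h1
      have h2 : v = 0 := (dvec_symm_bij (hNt hy)).1 (h1.trans (map_zero _).symm)
      have h3 : ‖v‖ = 1 := mem_sphere_zero_iff_norm.1 hv
      rw [h2, norm_zero] at h3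
      exact zero_ne_one h3)
  refine ⟨(chartAt E x0).source ∩ (chartAt E x0) ⁻¹' interior N, ?_, n, ?_⟩
  · refine Filter.inter_mem ((chartAt E x0).open_source.mem_nhds (mem_chart_source E x0)) ?_
    exact ((chartAt E x0).continuousAt (mem_chart_source E x0)).preimage_mem_nhds
      (isOpen_interior.mem_nhds hN0)
  · rintro x ⟨hx, hxN⟩ v hv
    have hy : chartAt E x0 x ∈ N := interior_subset hxN
    have hyt := hNt hy
    obtain ⟨v0, hv0⟩ := (dvec_symm_bij hyt).2 v
    have hv0' : v0 ≠ 0 := by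
      rintro rfl
      exact hv (hv0.symm.trans (map_zero _))
    have hr : 0 < ‖v0‖ := norm_pos_iff.2 hv0'
    have h1 := hn (chartAt E x0 x, (‖v0‖⁻¹ : ℝ) • v0) ⟨hy, by
      rw [mem_sphere_zero_iff_norm, norm_smul, norm_inv, norm_norm, inv_mul_cancel₀ hr.ne']⟩ n le_rfl
    have h2 : 0 < coef b.val x0 (chartAt E x0 x) ((‖v0‖⁻¹ : ℝ) • v0) (Complex.I • ((‖v0‖⁻¹ : ℝ) • v0)) +
      n * coef c.val x0 (chartAt E x0 x) ((‖v0‖⁻¹ : ℝ) • v0) (Complex.I • ((‖v0‖⁻¹ : ℝ) • v0)) := h1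
    rw [Cpt_smul, Cpt_smul, Cpt_coef b hyt, Cpt_coef c hyt, hv0, (chartAt E x0).left_inv hx] at h2
    have h3 : 0 < ‖v0‖⁻¹ * (‖v0‖⁻¹ * (b.val x v (Complex.I • v) + n * c.val x v (Complex.I • v))) := by
      have h4 : ‖v0‖⁻¹ * (‖v0‖⁻¹ * b.val x v (Complex.I • v)) +
          n * (‖v0‖⁻¹ * (‖v0‖⁻¹ * c.val x v (Complex.I • v))) =
          ‖v0‖⁻¹ * (‖v0‖⁻¹ * (b.val x v (Complex.I • v) + n * c.val x v (Complex.I • v))) := by ring
      rw [← h4]
      exact h2
    have hi := inv_pos.2 hr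
    exact (mul_pos_iff_of_pos_left hi).1 ((mul_pos_iff_of_pos_left hi).1 h3)

private theorem Cpt_global [CompactSpace X] (b c : Form E X) (hc : ∀ x v, 0 ≤ c.val x v (Complex.I • v))
    (hbc : ∀ x v, v ≠ 0 → c.val x v (Complex.I • v) = 0 → 0 < b.val x v (Complex.I • v)) :
    ∃ n : ℕ, ∀ x v, v ≠ 0 → 0 < b.val x v (Complex.I • v) + n * c.val x v (Complex.I • v) := by
  have h : ∃ n : ℕ, ∀ x ∈ (Set.univ : Set X), ∀ v, v ≠ 0 →
      0 < b.val x v (Complex.I • v) + n * c.val x v (Complex.I • v) := by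
    refine isCompact_univ.induction_on (p := fun S => ∃ n : ℕ, ∀ x ∈ S, ∀ v, v ≠ 0 →
      0 < b.val x v (Complex.I • v) + n * c.val x v (Complex.I • v)) ?_ ?_ ?_ ?_
    · exact ⟨0, fun k hk => absurd hk (Set.notMem_empty k)⟩
    · rintro S S' hS ⟨n, hn⟩
      exact ⟨n, fun k hk => hn k (hS hk)⟩
    · rintro S S' ⟨n, hn⟩ ⟨m, hm⟩
      refine ⟨max n m, fun k hk v hv => ?_⟩
      have h2 : (n : ℝ) ≤ ((max n m : ℕ) : ℝ) := by exact_mod_cast le_max_left n m
      have h3 : (m : ℝ) ≤ ((max n m : ℕ) : ℝ) := by exact_mod_cast le_max_right n m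
      rcases hk with hk | hk
      · have h4 := mul_le_mul_of_nonneg_right h2 (hc k v)
        linarith [hn k hk v hv]
      · have h4 := mul_le_mul_of_nonneg_right h3 (hc k v)
        linarith [hm k hk v hv]
    · intro x _
      obtain ⟨t, ht, n, hn⟩ := Cpt_local b c hc hbc x
      exact ⟨t, mem_nhdsWithin_of_mem_nhds ht, n, hn⟩
  obtain ⟨n, hn⟩ := h
  exact ⟨n, fun x v hv => hn x (Set.mem_univ x) v hv⟩

end

/-- `b` is positive on the kernel of `dπ` and `w` is a Kaehler form on the base: then `M` is a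
Kaehler manifold. -/
theorem fib_pos (M B : CM.{u}) (π : M.X → B.X) (hπ : ContMDiff 𝓘(ℂ, M.E) 𝓘(ℂ, B.E) ω π)
    (b : Form M.E M.X)
    (hb : ∀ x v, v ≠ 0 → dmap M.E B.E π x v = 0 → 0 < b.val x v (Complex.I • v))
    (hB : Kaehler B) : Kaehler M := by
  obtain ⟨w, hw⟩ := hB
  obtain ⟨c, hc⟩ := exists_comap w hπ
  have h1 : ∀ x v, c.val x v (Complex.I • v) =
      w.val (π x) (dmap M.E B.E π x v) (Complex.I • dmap M.E B.E π x v) := by
    intro x v
    rw [hc, ContinuousLinearMap.bilinearComp_apply, dmap_I hπ]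
  have h2 : ∀ x v, dmap M.E B.E π x v ≠ 0 → 0 < c.val x v (Complex.I • v) := by
    intro x v hv
    rw [h1]
    exact hw (π x) _ hv
  have h3 : ∀ x v, 0 ≤ c.val x v (Complex.I • v) := by
    intro x v
    by_cases hv : dmap M.E B.E π x v = 0
    · rw [h1, hv, map_zero, zero_apply]
    · exact (h2 x v hv).le
  have h4 : ∀ x v, v ≠ 0 → c.val x v (Complex.I • v) = 0 → 0 < b.val x v (Complex.I • v) := by
    intro x v hv h0
    refine hb x v hv ?_
    by_contra h5
    exact absurd h0 (h2 x v h5).ne'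
  obtain ⟨n, hn⟩ := Cpt_global b c h3 h4
  obtain ⟨a, ha⟩ := exists_comb b c 1 n
  refine ⟨a, fun x v hv => ?_⟩
  rw [ha, one_smul, add_apply, add_apply, smul_apply, smul_apply, smul_eq_mul]
  exact hn x v hv

end Pool.Agent.FBR
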