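import Pool.Agent.FBR.Spread

/-!
# FBR/FibA: positivity on a whole fibre

PROOF PLAN.  Let `S` be the set of the points `x` over `b` such that there is `φ` with `SmF E φ`, `c + ddcF φ` nonnegative on the vertical
vectors at all points over `b`, and positive at `x`.  (`c + ddcF φ` is the `val` of a form `c'`: `exists_ddcF`, `exists_comb` with `1, 1`.)
`x1 ∈ S` (`φ = 0`: `ddcF` of the constant `0` vanishes, e.g. `ddcF_smul` with `c = 0` or directly).  `S` is open in the fibre (`vpos_open`).  `S` is closed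
in the fibre: let `x` be over `b`, in the closure of `S`; `P` a product chart at `x` (`exists_PC`), `x = P.Ψ (y, wx)`, `y = chartAt F P.c b`; `r > 0` with
`(y, w) ∈ P.O` for `‖w - wx‖ ≤ 2 r`; the set `P.Ψ '' {q ∈ P.O | ‖q.2 - wx‖ < r}` is an open neighbourhood of `x` (`PC.isOpen_im`), so it contains `x' ∈ S`,
`x' = P.Ψ (y, w')` (`PC.base`), `‖w' - wx‖ < r`; apply `spread` to the form `c'` of `x'` with `w0 = w'`, `ρ = r`: the sum of the two functions
(`ddcF_add`) shows `x ∈ S`.  The fibre is connected (`h.conn`), so `S` is the fibre.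
Compactness of the fibre (closed in `X`): finitely many forms `c + ddcF φ_j`, `j < m`, `m ≥ 1`, such that every point over `b` is positive for one of them;
`φ = ∑ (1 / m) φ_j` (`ddcF_sum`, `ddcF_smul`): `c + ddcF φ = (1 / m) ∑ (c + ddcF φ_j)`.
-/

set_option autoImplicit false

noncomputable section

open scoped Manifold ContDiff Classical

namespace Pool.Agent.FBR

variable {E X : Type*} [NormedAddCommGroup E] [NormedSpace ℂ E] [FiniteDimensional ℂ E]
  [TopologicalSpace X] [ChartedSpace E X] [IsManifold 𝓘(ℂ, E) ω X] [CompactSpace X] [T2Space X]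
  {F B : Type*} [NormedAddCommGroup F] [NormedSpace ℂ F] [FiniteDimensional ℂ F] [TopologicalSpace B]
  [ChartedSpace F B] [IsManifold 𝓘(ℂ, F) ω B] [T2Space B] {π : X → B}

theorem fib_all (h : CurveFib E F π) (c : Form E X) (b : B) (hnn : ∀ x, π x = b → VNn F π c.val x) (x1 : X)
    (hx1 : π x1 = b) (hp : VPos F π c.val x1) :
    ∃ φ : X → ℝ, SmF E φ ∧ ∀ x, π x = b → VPos F π (fun x => c.val x + ddcF E φ x) x := by
  have hcont : Continuous π := h.hol.continuous
  have hfo : ∀ φ : X → ℝ, SmF E φ → ∃ d : Form E X, d.val = fun x => c.val x + ddcF E φ x := by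
    intro φ hφ
    obtain ⟨c1, hc1⟩ := exists_ddcF hφ
    obtain ⟨d, hd⟩ := exists_comb c c1 1 1
    refine ⟨d, ?_⟩
    funext x
    rw [hd x, one_smul, one_smul, hc1]
  have hop : ∀ φ : X → ℝ, SmF E φ → IsOpen {x | VPos F π (fun x => c.val x + ddcF E φ x) x} := by
    intro φ hφ
    obtain ⟨d, hd⟩ := hfo φ hφ
    rw [← hd]
    exact vpos_open h d
  have hcover : ∀ x, π x = b → ∃ φ : X → ℝ, (SmF E φ ∧
      ∀ x, π x = b → VNn F π (fun x => c.val x + ddcF E φ x) x) ∧
      VPos F π (fun x => c.val x + ddcF E φ x) x := by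
    have hpre : PreconnectedSpace (π ⁻¹' {b}) := Subtype.preconnectedSpace (h.conn b).isPreconnected
    let S : Set (π ⁻¹' {b}) := {x | ∃ φ : X → ℝ, (SmF E φ ∧
      ∀ x, π x = b → VNn F π (fun x => c.val x + ddcF E φ x) x) ∧
      VPos F π (fun x => c.val x + ddcF E φ x) x}
    have hSo : IsOpen S := by
      rw [isOpen_iff_mem_nhds]
      rintro x ⟨φ, hφ, hx⟩
      have h1 : IsOpen ((Subtype.val : (π ⁻¹' {b}) → X) ⁻¹'
          {x | VPos F π (fun x => c.val x + ddcF E φ x) x}) := (hop φ hφ.1).preimage continuous_subtype_val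
      refine Filter.mem_of_superset (h1.mem_nhds hx) ?_
      intro y hy
      exact ⟨φ, hφ, hy⟩
    have hSc : IsClosed S := by
      rw [isClosed_iff_frequently]
      rintro ⟨x, hxb⟩ hx
      have hxb' : π x = b := hxb
      obtain ⟨P, hPc, q, hq, hqx⟩ := exists_PC h x
      have hbs := P.base hq
      rw [hqx, hxb'] at hbs
      have hopen : IsOpen {w : ℂ | (q.1, w) ∈ P.O} := P.isOpen.preimage (by fun_prop)
      obtain ⟨ε, hε, hball⟩ := Metric.isOpen_iff.1 hopen q.2 (by exact hq)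
      have hO' : IsOpen {q' : F × ℂ | q' ∈ P.O ∧ ‖q'.2 - q.2‖ < ε / 3} := by
        have h1 : IsOpen {q' : F × ℂ | ‖q'.2 - q.2‖ < ε / 3} :=
          isOpen_lt (continuous_snd.sub continuous_const).norm continuous_const
        exact P.isOpen.inter h1
      have hN : IsOpen (P.Ψ '' {q' : F × ℂ | q' ∈ P.O ∧ ‖q'.2 - q.2‖ < ε / 3}) :=
        P.isOpen_im hO' fun q' hq' => hq'.1
      have hxN : x ∈ P.Ψ '' {q' : F × ℂ | q' ∈ P.O ∧ ‖q'.2 - q.2‖ < ε / 3} :=
        ⟨q, ⟨hq, by simpa using hε⟩, hqx⟩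
      have hN2 : (Subtype.val : (π ⁻¹' {b}) → X) ⁻¹'
          (P.Ψ '' {q' : F × ℂ | q' ∈ P.O ∧ ‖q'.2 - q.2‖ < ε / 3}) ∈ nhds (⟨x, hxb⟩ : π ⁻¹' {b}) :=
        (hN.preimage continuous_subtype_val).mem_nhds hxN
      obtain ⟨x', ⟨φ', hφ', hpos'⟩, hx'N⟩ := (hx.and_eventually hN2).exists
      obtain ⟨q', ⟨hq', hq'r⟩, hq'x⟩ := hx'N
      have hbs' := P.base hq'
      have hx'b : π (P.Ψ q') = b := by
        rw [hq'x]
        exact x'.2
      rw [hx'b] at hbs'
      have e1 : q.1 = q'.1 := hbs.2.symm.trans hbs'.2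
      obtain ⟨c', hc'⟩ := hfo φ' hφ'.1
      obtain ⟨ψ, hψ, hψn, hψp⟩ := spread h c' b P hbs.1 q'.2 (ε / 3) (by positivity)
        (by
          intro w hw
          rw [hbs.2]
          apply hball
          rw [Metric.mem_ball, dist_eq_norm]
          calc ‖w - q.2‖ = ‖(w - q'.2) + (q'.2 - q.2)‖ := by ring_nf
            _ ≤ ‖w - q'.2‖ + ‖q'.2 - q.2‖ := norm_add_le _ _
            _ < ε := by linarith)
        (by
          intro y hy
          rw [hc']
          exact hφ'.2 y hy)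
        (by
          rw [hbs.2, e1, hc']
          show VPos F π (fun x => c.val x + ddcF E φ' x) (P.Ψ q')
          rw [hq'x]
          exact hpos')
      have hsum : (fun x => c'.val x + ddcF E ψ x) =
          fun x => c.val x + ddcF E (fun x => φ' x + ψ x) x := by
        funext y
        rw [hc', ddcF_add hφ'.1 hψ]
        ext u v
        exact add_assoc (c.val y u v) (ddcF E φ' y u v) (ddcF E ψ y u v)
      rw [hsum] at hψn hψp
      refine ⟨fun x => φ' x + ψ x, ⟨hφ'.1.add hψ, hψn⟩, ?_⟩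
      have h2 := hψp q.2 (by rw [norm_sub_rev]; exact hq'r)
      rw [hbs.2] at h2
      have h3 : P.Ψ (q.1, q.2) = x := hqx
      rw [h3] at h2
      exact h2
    have hne : S.Nonempty := by
      have h0 : ∀ x : X, ddcF E (fun _ : X => (0 : ℝ)) x = 0 := by
        intro x
        have h1 := ddcF_sum (E := E) (X := X) (∅ : Finset (Fin 0)) (φ := fun _ _ => (0 : ℝ)) (by simp) x
        simpa using h1
      have h2 : (fun x => c.val x + ddcF E (fun _ : X => (0 : ℝ)) x) = c.val := by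
        funext x
        rw [h0 x]
        ext u v
        exact add_zero (c.val x u v)
      refine ⟨⟨x1, hx1⟩, fun _ => 0, ⟨SmF.const 0, ?_⟩, ?_⟩
      · rw [h2]
        exact hnn
      · rw [h2]
        exact hp
    have huniv : S = Set.univ := IsClopen.eq_univ ⟨hSc, hSo⟩ hne
    intro x hx
    have h1 : (⟨x, hx⟩ : π ⁻¹' {b}) ∈ S := by
      rw [huniv]
      exact Set.mem_univ _
    exact h1
  have hK : IsCompact (π ⁻¹' {b}) := (isClosed_singleton.preimage hcont).isCompact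
  obtain ⟨t, ht⟩ := hK.elim_finite_subcover
    (fun φ : {φ : X → ℝ // SmF E φ ∧ ∀ x, π x = b → VNn F π (fun x => c.val x + ddcF E φ x) x} =>
      {x | VPos F π (fun x => c.val x + ddcF E φ.1 x) x}) (fun φ => hop φ.1 φ.2.1)
    (by
      intro x hx
      obtain ⟨φ, hφ, hpos⟩ := hcover x hx
      exact Set.mem_iUnion.2 ⟨⟨φ, hφ⟩, hpos⟩)
  have htne : t.Nonempty := by
    have h1 := ht (show x1 ∈ π ⁻¹' {b} from hx1)
    obtain ⟨φ, hφ⟩ := Set.mem_iUnion.1 h1
    obtain ⟨hφt, _⟩ := Set.mem_iUnion.1 hφ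
    exact ⟨φ, hφt⟩
  have hm : (0 : ℝ) < t.card := by exact_mod_cast htne.card_pos
  have hsm : ∀ φ ∈ t, SmF E (fun x => (1 / (t.card : ℝ)) * φ.1 x) := fun φ _ =>
    (SmF.const (1 / (t.card : ℝ))).mul φ.2.1
  refine ⟨fun x => ∑ φ ∈ t, (1 / (t.card : ℝ)) * φ.1 x, SmF.sum t hsm, ?_⟩
  intro x hx ξ hξ hvert
  show 0 < (c.val x + ddcF E (fun x => ∑ φ ∈ t, (1 / (t.card : ℝ)) * φ.1 x) x) ξ (Complex.I • ξ)
  have e1 : (c.val x + ddcF E (fun x => ∑ φ ∈ t, (1 / (t.card : ℝ)) * φ.1 x) x) ξ (Complex.I • ξ) =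
      ∑ φ ∈ t, (1 / (t.card : ℝ)) * (c.val x ξ (Complex.I • ξ) + ddcF E φ.1 x ξ (Complex.I • ξ)) := by
    rw [ddcF_sum t hsm x]
    simp only [add_apply, sum_apply, mul_add, Finset.sum_add_distrib, Finset.sum_const, nsmul_eq_mul]
    congr 1
    · field_simp
    · refine Finset.sum_congr rfl fun φ _ => ?_
      rw [ddcF_smul _ φ.2.1]
      rfl
  rw [e1]
  have hpos : ∀ φ ∈ t, 0 < 1 / (t.card : ℝ) := fun _ _ => by positivity
  refine Finset.sum_pos' (fun φ hφ => mul_nonneg (hpos φ hφ).le (φ.2.2 x hx ξ hvert)) ?_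
  obtain ⟨φ, hφ⟩ := Set.mem_iUnion.1 (ht (show x ∈ π ⁻¹' {b} from hx))
  obtain ⟨hφt, hφp⟩ := Set.mem_iUnion.1 hφ
  exact ⟨φ, hφt, mul_pos (hpos φ hφt) (hφp ξ hξ hvert)⟩

end Pool.Agent.FBR
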