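import Pool.Agent.FBR.DerG
import Pool.Agent.FBR.Zero
import Pool.Agent.FBR.Ext

/-!
# FBR/HBc: the tensor `π_* (β ∧ β / 2)` on the base is smooth and closed

PROOF PLAN.  `hb_coef_smooth`: `coef` of the sum is the sum of the `coef`s (`coef`/`tpb` is linear in the tensor); `extT_smooth`, `J_smooth`,
`J_compact`, `Gi_smooth`, `cut_compact`, `cut_J_tsupport`.  `hb_coef_closed`: `ext2` of the sum is the sum (`extT_smooth` gives
differentiability), `extT_ext2` with `JG_alt`; put `b = (chartAt F p).symm y`, `u' = dvec F (chartAt F p).symm y u`, ...; by `ext2_JG` the sum is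
`∑ i, fi (d.P i) (D i) b` (both are `0` if `b` is not in the source), `D i x ξ = Z5 (dF E (d.χ i) x) (β.val x) (L1 x) (L2 x) (L3 x) ξ (I • ξ)`, `L1 x` a
vector with `dmap E F π x (L1 x) = u'` (`h.subm`, `dmap_eq`), ...; it vanishes by `zero_lemma` (`Z5_hom`, `Z5_vcont`, `dF_eq_zero`, `Z5_zero`;
`∑ i, Z5 (dF E (d.χ i) x) .. = Z5 (dF E (∑ i, d.χ i) x) .. = 0`: `Z5_sum`, `dF_sum`, `dF_const`, `d.sum`).
-/

set_option autoImplicit false

noncomputable section

open scoped Manifold ContDiff Classical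

open MeasureTheory

namespace Pool.Agent.FBR

variable {E X : Type*} [NormedAddCommGroup E] [NormedSpace ℂ E] [FiniteDimensional ℂ E]
  [TopologicalSpace X] [ChartedSpace E X] [IsManifold 𝓘(ℂ, E) ω X] [CompactSpace X] [T2Space X]
  {F B : Type*} [NormedAddCommGroup F] [NormedSpace ℂ F] [FiniteDimensional ℂ F] [TopologicalSpace B]
  [ChartedSpace F B] [IsManifold 𝓘(ℂ, F) ω B] [CompactSpace B] [T2Space B] {π : X → B}

private theorem HBc_cpt (P : PC E F π) (β : Form E X) {χ : X → ℝ} (hs : tsupport χ ⊆ P.Ψ '' P.O) :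
    HasCompactSupport (Gi P χ β) := by
  unfold Gi
  exact cut_compact P hs (fun q => A4F (tpb β.val P.Ψ q))

private theorem HBc_tsup (P : PC E F π) (β : Form E X) {χ : X → ℝ} (hs : tsupport χ ⊆ P.Ψ '' P.O) :
    tsupport (J (Gi P χ β)) ⊆ (chartAt F P.c).target := by
  unfold Gi
  exact cut_J_tsupport P hs (fun q => A4F (tpb β.val P.Ψ q))

private theorem HBc_Jsm (P : PC E F π) (β : Form E X) {χ : X → ℝ} (hχ : SmF E χ)
    (hs : tsupport χ ⊆ P.Ψ '' P.O) : ContDiff ℝ ∞ (J (Gi P χ β)) := by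
  have h1 := Gi_smooth P β hχ hs
  have h2 := HBc_cpt P β hs
  exact J_smooth h1 h2

private theorem HBc_Jc (P : PC E F π) (β : Form E X) {χ : X → ℝ}
    (hs : tsupport χ ⊆ P.Ψ '' P.O) : HasCompactSupport (J (Gi P χ β)) := by
  exact J_compact (HBc_cpt P β hs)

private theorem HBc_coef (d : FD E F π) (β : Form E X) (p : B) :
    coef (hb d β) p = fun y => ∑ i, coef (extT (d.P i).c (J (Gi (d.P i) (d.χ i) β))) p y := by
  funext y
  ext u v
  simp only [coef, tpb, hb, sum_apply, ContinuousLinearMap.bilinearComp_apply]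

private theorem HBc_smooth (d : FD E F π) (β : Form E X) {p : B} {y : F} (hy : y ∈ (chartAt F p).target)
    (i : Fin d.n) : ContDiffAt ℝ ∞ (coef (extT (d.P i).c (J (Gi (d.P i) (d.χ i) β))) p) y := by
  have h1 := HBc_Jsm (d.P i) β (d.sm i) (d.supp i)
  have h2 := HBc_Jc (d.P i) β (d.supp i)
  have h3 := HBc_tsup (d.P i) β (d.supp i)
  exact extT_smooth h1 h2 h3 hy

theorem hb_coef_smooth (d : FD E F π) (β : Form E X) {p : B} {y : F} (hy : y ∈ (chartAt F p).target) :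
    ContDiffAt ℝ ∞ (coef (hb d β) p) y := by
  rw [HBc_coef]
  exact ContDiffAt.sum fun i _ => HBc_smooth d β hy i

omit [FiniteDimensional ℂ F] in
private theorem HBc_ext2_sum {ι : Type*} (S : Finset ι) (a : ι → F → Bil F) (y : F)
    (ha : ∀ i ∈ S, DifferentiableAt ℝ (a i) y) (u v w : F) :
    ext2 (fun y => ∑ i ∈ S, a i y) y u v w = ∑ i ∈ S, ext2 (a i) y u v w := by
  have h : fderiv ℝ (fun y => ∑ i ∈ S, a i y) y = ∑ i ∈ S, fderiv ℝ (a i) y := by
    exact fderiv_fun_sum (𝕜 := ℝ) (E := F) (F := Bil F) (A := a) (x := y) (u := S) ha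
  unfold ext2
  rw [h]
  simp only [sum_apply, Finset.sum_add_distrib]

private theorem HBc_lift (h : CurveFib E F π) (u : F) : ∃ L : X → E, ∀ x, dmap E F π x (L x) = u := by
  have h1 : ∀ x : X, ∃ v : E, dmap E F π x v = u := by
    intro x
    obtain ⟨v, hv⟩ := h.subm x u
    exact ⟨v, (dmap_eq h.hol x v).trans hv⟩
  choose L hL using h1
  exact ⟨L, hL⟩

private theorem HBc_zero (h : CurveFib E F π) (d : FD E F π) (β : Form E X) (b : B) (L1 L2 L3 : X → E)
    {u1 u2 u3 : F} (h1 : ∀ x, dmap E F π x (L1 x) = u1) (h2 : ∀ x, dmap E F π x (L2 x) = u2)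
    (h3 : ∀ x, dmap E F π x (L3 x) = u3) :
    ∑ i, fi (d.P i) (fun x ξ => Z5 (dF E (d.χ i) x) (β.val x) (L1 x) (L2 x) (L3 x) ξ (Complex.I • ξ)) b = 0 := by
  refine zero_lemma h.hol d b _ (fun i x ξ r => ?_) (fun i => ?_) (fun i x hx ξ => ?_) (fun x _ ξ _ => ?_)
  · exact Z5_hom _ (β.alt x) _ _ _ r ξ
  · exact Z5_vcont h.hol β (d.sm i) (fun x _ => h1 x) (fun x _ => h2 x) (fun x _ => h3 x)
  · show Z5 _ _ _ _ _ _ _ = 0
    rw [dF_eq_zero hx, Z5_zero]
  · show ∑ i, Z5 (dF E (d.χ i) x) (β.val x) (L1 x) (L2 x) (L3 x) ξ (Complex.I • ξ) = 0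
    rw [← Z5_sum, ← dF_sum Finset.univ (fun i _ => d.sm i) x]
    have h4 : (fun x => ∑ i, d.χ i x) = fun _ => (1 : ℝ) := funext d.sum
    rw [h4, dF_const, Z5_zero]

private theorem HBc_one (h : CurveFib E F π) (d : FD E F π) (β : Form E X) {p : B} {y : F}
    (hy : y ∈ (chartAt F p).target) (u v w : F) (L1 L2 L3 : X → E)
    (h1 : ∀ x, dmap E F π x (L1 x) = dvec F (chartAt F p).symm y u)
    (h2 : ∀ x, dmap E F π x (L2 x) = dvec F (chartAt F p).symm y v)
    (h3 : ∀ x, dmap E F π x (L3 x) = dvec F (chartAt F p).symm y w) (i : Fin d.n) :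
    ext2 (coef (extT (d.P i).c (J (Gi (d.P i) (d.χ i) β))) p) y u v w =
      fi (d.P i) (fun x ξ => Z5 (dF E (d.χ i) x) (β.val x) (L1 x) (L2 x) (L3 x) ξ (Complex.I • ξ))
        ((chartAt F p).symm y) := by
  have g1 := HBc_Jsm (d.P i) β (d.sm i) (d.supp i)
  have g2 := HBc_Jc (d.P i) β (d.supp i)
  have g3 := HBc_tsup (d.P i) β (d.supp i)
  have g4 := JG_alt (d.P i) β (d.sm i) (d.supp i)
  rw [extT_ext2 g1 g2 g3 g4 hy u v w]
  split_ifs with hb
  · exact ext2_JG h.hol (d.P i) β (d.sm i) (d.supp i) hb (fun x _ => h1 x) (fun x _ => h2 x) (fun x _ => h3 x)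
  · unfold fi
    rw [if_neg hb]

theorem hb_coef_closed (h : CurveFib E F π) (d : FD E F π) (β : Form E X) {p : B} {y : F}
    (hy : y ∈ (chartAt F p).target) (u v w : F) : ext2 (coef (hb d β) p) y u v w = 0 := by
  rw [HBc_coef, HBc_ext2_sum Finset.univ _ y
    (fun i _ => (HBc_smooth d β hy i).differentiableAt (by simp))]
  obtain ⟨L1, h1⟩ := HBc_lift h (dvec F (chartAt F p).symm y u)
  obtain ⟨L2, h2⟩ := HBc_lift h (dvec F (chartAt F p).symm y v)
  obtain ⟨L3, h3⟩ := HBc_lift h (dvec F (chartAt F p).symm y w)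
  rw [← HBc_zero h d β ((chartAt F p).symm y) L1 L2 L3 h1 h2 h3]
  exact Finset.sum_congr rfl fun i _ => HBc_one h d β hy u v w L1 L2 L3 h1 h2 h3 i

end Pool.Agent.FBR
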