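import Pool.Agent.FBR.CDefs

/-!
# FBR/Alg: algebra of `l ∧ a`, `a ∧ a`

PROOF PLAN.  Everything is an identity in the values of the alternating forms (`a u v = - a v u` from `a u u = 0`:
expand `a (u + v) (u + v)`).  For the statements with `r : ℂ`: `r • ξ = r.re • ξ + r.im • (Complex.I • ξ)` and
`I • (r • ξ) = r.re • (I • ξ) - r.im • ξ` (real scalars), expand with `map_add`, `map_smul`, then `ring`/`linear_combination`;
`‖r‖ ^ 2 = r.re ^ 2 + r.im ^ 2`.
`A4F_nonneg`, `A4F_pos`: with `ξ = (0, 1)`, `a u (I u) a ξ (I ξ) - (a u ξ)^2 - (a u (I ξ))^2 ≥ 0` (use `hJ`: `a (I u) (I ξ) = a u ξ`,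
`a (I u) ξ = - a u (I ξ)`): Cauchy-Schwarz; evaluate `a v (I v) ≥ 0` at `v = (a ξ (I ξ)) • u + r • ξ` with a suitable `r : ℂ`
(if `a ξ (I ξ) = 0` then `a u ξ = a u (I ξ) = 0`: take `v = u + t • r • ξ`, `t → ∞`, or `discrim_le_zero`); in the positive case
`v ≠ 0` and `a ξ (I ξ) > 0`.
`d_Z3`, `d_Z5`: expand the derivatives of the products (`a q` evaluated at constant vectors is a function with
derivative `fderiv ℝ a q x u v`), the terms without derivative of `m` cancel by `hc` (closedness), applied to all the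
triples, multiplied by the remaining `a x y`: `linear_combination`.
-/

set_option autoImplicit false

noncomputable section

open scoped ContDiff

namespace Pool.Agent.FBR

section Real

variable {G : Type*} [NormedAddCommGroup G] [NormedSpace ℝ G]
  {G' : Type*} [NormedAddCommGroup G'] [NormedSpace ℝ G']

theorem Z3_pull (l : G →L[ℝ] ℝ) (a : Bil G) (L : G' →L[ℝ] G) (u s t : G') :
    Z3 (l.comp L) (a.bilinearComp L L) u s t = Z3 l a (L u) (L s) (L t) := rfl

theorem Z5_pull (l : G →L[ℝ] ℝ) (a : Bil G) (L : G' →L[ℝ] G) (u v w s t : G') :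
    Z5 (l.comp L) (a.bilinearComp L L) u v w s t = Z5 l a (L u) (L v) (L w) (L s) (L t) := rfl

theorem Z3_zero (a : Bil G) (u s t : G) : Z3 0 a u s t = 0 := by
  simp [Z3]

theorem Z5_zero (a : Bil G) (u v w s t : G) : Z5 0 a u v w s t = 0 := by
  simp [Z5]

theorem Z3_sum {ι : Type*} (S : Finset ι) (l : ι → G →L[ℝ] ℝ) (a : Bil G) (u s t : G) :
    Z3 (∑ i ∈ S, l i) a u s t = ∑ i ∈ S, Z3 (l i) a u s t := by
  simp only [Z3, _root_.sum_apply, Finset.sum_mul, Finset.sum_add_distrib,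
    Finset.sum_sub_distrib]

theorem Z5_sum {ι : Type*} (S : Finset ι) (l : ι → G →L[ℝ] ℝ) (a : Bil G) (u v w s t : G) :
    Z5 (∑ i ∈ S, l i) a u v w s t = ∑ i ∈ S, Z5 (l i) a u v w s t := by
  simp only [Z5, _root_.sum_apply, Finset.sum_mul, Finset.sum_add_distrib,
    Finset.sum_sub_distrib]

private theorem Alg_swap {a : Bil G} (ha : ∀ u, a u u = 0) (u v : G) : a u v = -a v u := by
  have h := ha (u + v)
  simp only [map_add, _root_.add_apply, ha] at h
  linarith

private theorem Alg_hasF (a : G → Bil G) (q : G) (ha : DifferentiableAt ℝ a q) (s t : G) :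
    HasFDerivAt (fun q' => a q' s t) (((fderiv ℝ a q).flip s).flip t) q := by
  have h1 : HasFDerivAt (fun q' => a q' s) ((fderiv ℝ a q).flip s) q := by
    have := ha.hasFDerivAt.clm_apply (hasFDerivAt_const s q)
    simpa using this
  have := h1.clm_apply (hasFDerivAt_const t q)
  simpa using this

private theorem Alg_dswap (a : G → Bil G) (q : G) (ha : DifferentiableAt ℝ a q)
    (halt : ∀ q u, a q u u = 0) (x u v : G) : fderiv ℝ a q x u v = -fderiv ℝ a q x v u := by
  have h1 := (Alg_hasF a q ha u v).unique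
    (((Alg_hasF a q ha v u).neg).congr_of_eventuallyEq (Filter.Eventually.of_forall fun q' => by
      exact Alg_swap (halt q') u v))
  have h2 := congrArg (fun L : G →L[ℝ] ℝ => L x) h1
  simpa using h2

/-- `d (m a) = dm ∧ a` for a closed 2-form `a` -/
theorem d_Z3 (m : G → ℝ) (a : G → Bil G) (q : G) (hm : DifferentiableAt ℝ m q) (ha : DifferentiableAt ℝ a q)
    (halt : ∀ q u, a q u u = 0) (hc : Closed2 a q) (u s t : G) :
    fderiv ℝ (fun q' => m q' * a q' s t) q u - fderiv ℝ (fun q' => m q' * a q' u t) q s +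
      fderiv ℝ (fun q' => m q' * a q' u s) q t = Z3 (fderiv ℝ m q) (a q) u s t := by
  have h : ∀ x p r : G, fderiv ℝ (fun q' => m q' * a q' p r) q x
      = m q * fderiv ℝ a q x p r + fderiv ℝ m q x * a q p r := by
    intro x p r
    have e1 : HasFDerivAt (fun q' => m q' * a q' p r) _ q :=
      hm.hasFDerivAt.mul (Alg_hasF a q ha p r)
    rw [e1.fderiv]
    simp
    ring
  rw [h, h, h]
  have h1 := hc u s t
  have h2 := Alg_dswap a q ha halt s t u
  unfold Z3
  linear_combination m q * h1 - m q * h2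

/-- `d (m (a ∧ a) / 2) = dm ∧ (a ∧ a) / 2` for a closed 2-form `a` -/
theorem d_Z5 (m : G → ℝ) (a : G → Bil G) (q : G) (hm : DifferentiableAt ℝ m q) (ha : DifferentiableAt ℝ a q)
    (halt : ∀ q u, a q u u = 0) (hc : Closed2 a q) (u v w s t : G) :
    fderiv ℝ (fun q' => m q' * A4 (a q') v w s t) q u - fderiv ℝ (fun q' => m q' * A4 (a q') u w s t) q v +
      fderiv ℝ (fun q' => m q' * A4 (a q') u v s t) q w - fderiv ℝ (fun q' => m q' * A4 (a q') u v w t) q s +
      fderiv ℝ (fun q' => m q' * A4 (a q') u v w s) q t = Z5 (fderiv ℝ m q) (a q) u v w s t := by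
  have h : ∀ x p1 p2 p3 p4 : G, fderiv ℝ (fun q' => m q' * A4 (a q') p1 p2 p3 p4) q x
      = m q * (fderiv ℝ a q x p1 p2 * a q p3 p4 + a q p1 p2 * fderiv ℝ a q x p3 p4
        - (fderiv ℝ a q x p1 p3 * a q p2 p4 + a q p1 p3 * fderiv ℝ a q x p2 p4)
        + (fderiv ℝ a q x p1 p4 * a q p2 p3 + a q p1 p4 * fderiv ℝ a q x p2 p3))
        + fderiv ℝ m q x * A4 (a q) p1 p2 p3 p4 := by
    intro x p1 p2 p3 p4
    have e := fun p r => Alg_hasF a q ha p r
    have e1 : HasFDerivAt (fun q' => A4 (a q') p1 p2 p3 p4) _ q :=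
      (((e p1 p2).mul (e p3 p4)).sub ((e p1 p3).mul (e p2 p4))).add ((e p1 p4).mul (e p2 p3))
    have e2 : HasFDerivAt (fun q' => m q' * A4 (a q') p1 p2 p3 p4) _ q := hm.hasFDerivAt.mul e1
    rw [e2.fderiv]
    simp
    ring
  have k : ∀ x y z : G, fderiv ℝ a q x y z - fderiv ℝ a q y x z + fderiv ℝ a q z x y = 0 := by
    intro x y z
    have h1 := hc x y z
    have h2 := Alg_dswap a q ha halt y z x
    linear_combination h1 - h2
  rw [h, h, h, h, h]
  unfold Z5
  linear_combination m q * a q s t * k u v w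
    - m q * a q w t * k u v s
    + m q * a q w s * k u v t
    + m q * a q v t * k u w s
    - m q * a q v s * k u w t
    + m q * a q v w * k u s t
    - m q * a q u t * k v w s
    + m q * a q u s * k v w t
    - m q * a q u w * k v s t
    + m q * a q u v * k w s t

end Real

section Cpx

variable {H : Type*} [NormedAddCommGroup H] [NormedSpace ℂ H]

private theorem Alg_split (r : ℂ) (ξ : H) : r • ξ = r.re • ξ + r.im • (Complex.I • ξ) := by
  nth_rewrite 1 [← Complex.re_add_im r]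
  rw [add_smul, mul_smul, Complex.coe_smul, Complex.coe_smul]

private theorem Alg_splitI (r : ℂ) (ξ : H) :
    Complex.I • (r • ξ) = r.re • (Complex.I • ξ) - r.im • ξ := by
  have h : Complex.I • (r • ξ) = (Complex.I * r) • ξ := by rw [mul_smul]
  rw [h, Alg_split (Complex.I * r) ξ]
  simp
  abel

private theorem Alg_norm (r : ℂ) : ‖r‖ ^ 2 = r.re ^ 2 + r.im ^ 2 := by
  rw [← Complex.normSq_eq_norm_sq, Complex.normSq_apply]
  ring

theorem hom_of_alt {a : Bil H} (ha : ∀ u, a u u = 0) (r : ℂ) (ξ : H) :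
    a (r • ξ) (Complex.I • (r • ξ)) = ‖r‖ ^ 2 * a ξ (Complex.I • ξ) := by
  rw [Alg_splitI r ξ, Alg_split r ξ, Alg_norm]
  generalize Complex.I • ξ = η
  simp only [map_add, map_sub, map_smul, _root_.add_apply, _root_.smul_apply, smul_eq_mul, ha]
  linear_combination (-r.im ^ 2) * Alg_swap ha η ξ

theorem Z3_hom (l : H →L[ℝ] ℝ) {a : Bil H} (ha : ∀ u, a u u = 0) (u : H) (r : ℂ) (ξ : H) :
    Z3 l a u (r • ξ) (Complex.I • (r • ξ)) = ‖r‖ ^ 2 * Z3 l a u ξ (Complex.I • ξ) := by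
  unfold Z3
  rw [hom_of_alt ha, Alg_splitI r ξ, Alg_split r ξ, Alg_norm]
  generalize Complex.I • ξ = η
  simp only [map_add, map_sub, map_smul, smul_eq_mul]
  ring

theorem Z5_hom (l : H →L[ℝ] ℝ) {a : Bil H} (ha : ∀ u, a u u = 0) (u v w : H) (r : ℂ) (ξ : H) :
    Z5 l a u v w (r • ξ) (Complex.I • (r • ξ)) = ‖r‖ ^ 2 * Z5 l a u v w ξ (Complex.I • ξ) := by
  unfold Z5 A4
  rw [hom_of_alt ha, Alg_splitI r ξ, Alg_split r ξ, Alg_norm]
  generalize Complex.I • ξ = η
  simp only [map_add, map_sub, map_smul, smul_eq_mul]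
  ring

theorem Z3_rep (l : H →L[ℝ] ℝ) {a : Bil H} (ha : ∀ u, a u u = 0) (u : H) (r : ℂ) (ξ : H) :
    Z3 l a (u + r • ξ) ξ (Complex.I • ξ) = Z3 l a u ξ (Complex.I • ξ) := by
  rw [Alg_split r ξ]
  generalize Complex.I • ξ = η
  unfold Z3
  simp only [map_add, map_smul, _root_.add_apply, _root_.smul_apply, smul_eq_mul, ha]
  linear_combination (l η * r.im) * Alg_swap ha η ξ

theorem Z5_rep (l : H →L[ℝ] ℝ) {a : Bil H} (ha : ∀ u, a u u = 0) (u v w : H) (r1 r2 r3 : ℂ) (ξ : H) :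
    Z5 l a (u + r1 • ξ) (v + r2 • ξ) (w + r3 • ξ) ξ (Complex.I • ξ) = Z5 l a u v w ξ (Complex.I • ξ) := by
  rw [Alg_split r1 ξ, Alg_split r2 ξ, Alg_split r3 ξ]
  generalize Complex.I • ξ = η
  have k1 : ∀ (x y : ℝ) (u v w : H), Z5 l a (u + (x • ξ + y • η)) v w ξ η = Z5 l a u v w ξ η := by
    intro x y u v w
    unfold Z5 A4
    simp only [map_add, map_smul, _root_.add_apply, _root_.smul_apply, smul_eq_mul, ha]
    rw [Alg_swap ha ξ v, Alg_swap ha ξ w, Alg_swap ha η v, Alg_swap ha η w, Alg_swap ha η ξ]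
    ring
  have k2 : ∀ (x y : ℝ) (u v w : H), Z5 l a u (v + (x • ξ + y • η)) w ξ η = Z5 l a u v w ξ η := by
    intro x y u v w
    unfold Z5 A4
    simp only [map_add, map_smul, _root_.add_apply, _root_.smul_apply, smul_eq_mul, ha]
    rw [Alg_swap ha ξ w, Alg_swap ha η w, Alg_swap ha η ξ]
    ring
  have k3 : ∀ (x y : ℝ) (u v w : H), Z5 l a u v (w + (x • ξ + y • η)) ξ η = Z5 l a u v w ξ η := by
    intro x y u v w
    unfold Z5 A4
    simp only [map_add, map_smul, _root_.add_apply, _root_.smul_apply, smul_eq_mul, ha]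
    rw [Alg_swap ha η ξ]
    ring
  rw [k1, k2, k3]

end Cpx

section Fib

variable {F : Type*} [NormedAddCommGroup F] [NormedSpace ℂ F]

theorem A4F_apply (a : Bil (F × ℂ)) (u v : F) :
    A4F a u v = A4 a (u, 0) (v, 0) (0, 1) (0, Complex.I) := by
  simp only [A4F, A4, _root_.add_apply, _root_.sub_apply, _root_.smul_apply,
    ContinuousLinearMap.smulRight_apply, ContinuousLinearMap.comp_apply,
    ContinuousLinearMap.bilinearComp_apply, ContinuousLinearMap.flip_apply,
    ContinuousLinearMap.inl_apply, smul_eq_mul]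
  ring

private theorem Alg_flip_smooth {G1 G2 : Type*} [NormedAddCommGroup G1] [NormedSpace ℝ G1]
    [NormedAddCommGroup G2] [NormedSpace ℝ G2] :
    ContDiff ℝ ∞ (fun a : G1 →L[ℝ] G2 →L[ℝ] ℝ => a.flip) := by
  have h : IsBoundedLinearMap ℝ (fun a : G1 →L[ℝ] G2 →L[ℝ] ℝ => a.flip) :=
    { map_add := fun _ _ => rfl
      map_smul := fun _ _ => rfl
      bound := ⟨1, one_pos, fun a => by simp⟩ }
  exact h.contDiff

private theorem Alg_smul_smooth {G1 V : Type*} [NormedAddCommGroup G1] [NormedSpace ℝ G1]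
    [NormedAddCommGroup V] [NormedSpace ℝ V] {c : G1 → ℝ} {f : G1 → V} (hc : ContDiff ℝ ∞ c)
    (hf : ContDiff ℝ ∞ f) : ContDiff ℝ ∞ (fun x => c x • f x) := hc.smul hf

theorem A4F_smooth : ContDiff ℝ ∞ (A4F : Bil (F × ℂ) → Bil F) := by
  have hflip : ContDiff ℝ ∞ (fun a : Bil (F × ℂ) => a.flip) := Alg_flip_smooth
  have hl : ∀ p : F × ℂ, ContDiff ℝ ∞ (fun a : Bil (F × ℂ) =>
      (a.flip p).comp (ContinuousLinearMap.inl ℝ F ℂ)) := fun p =>
    (hflip.clm_apply contDiff_const).clm_comp contDiff_const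
  have hb : ContDiff ℝ ∞ (fun a : Bil (F × ℂ) =>
      a.bilinearComp (ContinuousLinearMap.inl ℝ F ℂ) (ContinuousLinearMap.inl ℝ F ℂ)) := by
    have h1 : ContDiff ℝ ∞ (fun a : Bil (F × ℂ) => (a.comp (ContinuousLinearMap.inl ℝ F ℂ)).flip) :=
      Alg_flip_smooth.comp
        (contDiff_id.clm_comp contDiff_const)
    have h2 : ContDiff ℝ ∞ (fun a : Bil (F × ℂ) =>
        ((a.comp (ContinuousLinearMap.inl ℝ F ℂ)).flip.comp (ContinuousLinearMap.inl ℝ F ℂ)).flip) :=
      Alg_flip_smooth.comp (h1.clm_comp contDiff_const)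
    exact h2
  have hc : ContDiff ℝ ∞ (fun a : Bil (F × ℂ) => a (0, 1) (0, Complex.I)) :=
    (contDiff_id.clm_apply contDiff_const).clm_apply contDiff_const
  exact ((Alg_smul_smooth hc hb).sub ((hl _).smulRight (hl _))).add ((hl _).smulRight (hl _))

theorem A4F_alt {a : Bil (F × ℂ)} (ha : ∀ u, a u u = 0) (u : F) : A4F a u u = 0 := by
  rw [A4F_apply, A4, ha]
  ring

private theorem Alg_IF (u : F) : ((Complex.I • u, 0) : F × ℂ) = Complex.I • ((u, 0) : F × ℂ) := by
  simp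

private theorem Alg_Iq : ((0, Complex.I) : F × ℂ) = Complex.I • ((0, 1) : F × ℂ) := by
  simp

private theorem Alg_II (v : F × ℂ) : Complex.I • (Complex.I • v) = -v := by
  rw [smul_smul, Complex.I_mul_I, neg_one_smul]

private theorem Alg_J1 {a : Bil (F × ℂ)} (hJ : ∀ u v, a (Complex.I • u) (Complex.I • v) = a u v)
    (u v : F × ℂ) : a (Complex.I • u) v = -a u (Complex.I • v) := by
  have h := hJ (Complex.I • u) v
  rw [Alg_II] at h
  rw [← h]
  simp

theorem A4F_I {a : Bil (F × ℂ)} (ha : ∀ u, a u u = 0)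
    (hJ : ∀ u v, a (Complex.I • u) (Complex.I • v) = a u v) (u v : F) :
    A4F a (Complex.I • u) (Complex.I • v) = A4F a u v := by
  rw [A4F_apply, A4F_apply, Alg_IF, Alg_IF, Alg_Iq, A4, A4, hJ, hJ, hJ, Alg_J1 hJ, Alg_J1 hJ]
  ring

private theorem Alg_key {a : Bil (F × ℂ)}
    (hJ : ∀ u v, a (Complex.I • u) (Complex.I • v) = a u v) (u : F) :
    A4F a u (Complex.I • u) = a (u, 0) (Complex.I • (u, 0)) * a (0, 1) (Complex.I • (0, 1))
      - a (u, 0) (0, 1) ^ 2 - a (u, 0) (Complex.I • (0, 1)) ^ 2 := by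
  rw [A4F_apply, Alg_IF, Alg_Iq, A4, hJ, Alg_J1 hJ]
  ring

private theorem Alg_quad {a : Bil (F × ℂ)} (ha : ∀ u, a u u = 0)
    (hJ : ∀ u v, a (Complex.I • u) (Complex.I • v) = a u v) (U p : F × ℂ) (k x y : ℝ) :
    a (k • U + (x • p + y • (Complex.I • p))) (Complex.I • (k • U + (x • p + y • (Complex.I • p))))
      = k ^ 2 * a U (Complex.I • U) + 2 * k * (x * a U (Complex.I • p) - y * a U p)
        + (x ^ 2 + y ^ 2) * a p (Complex.I • p) := by
  have h1 : Complex.I • (k • U + (x • p + y • (Complex.I • p)))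
      = k • (Complex.I • U) + (x • (Complex.I • p) - y • p) := by
    rw [smul_add, smul_add, smul_comm Complex.I k, smul_comm Complex.I x, smul_comm Complex.I y,
      Alg_II, smul_neg]
    abel
  rw [h1]
  simp only [map_add, map_sub, map_smul, _root_.add_apply, _root_.smul_apply, smul_eq_mul, ha, hJ]
  rw [Alg_swap ha p (Complex.I • U), Alg_J1 hJ U p, Alg_swap ha p U,
    Alg_swap ha (Complex.I • p) p]
  ring

theorem A4F_nonneg {a : Bil (F × ℂ)} (ha : ∀ u, a u u = 0)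
    (hJ : ∀ u v, a (Complex.I • u) (Complex.I • v) = a u v) (hp : ∀ v, 0 ≤ a v (Complex.I • v)) (u : F) :
    0 ≤ A4F a u (Complex.I • u) := by
  rw [Alg_key hJ]
  have h1 := hp (u, 0)
  have h2 := hp (0, 1)
  have h3 := fun k x y : ℝ => Alg_quad ha hJ (u, 0) (0, 1) k x y
  have h4 := fun k x y : ℝ => (h3 k x y) ▸ hp (k • (u, 0) + (x • (0, 1) + y • (Complex.I • (0, 1))))
  generalize a (u, 0) (Complex.I • (u, 0)) = X at *
  generalize a (0, 1) (Complex.I • (0, 1)) = Y at *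
  generalize a (u, 0) (Complex.I • (0, 1)) = b at *
  generalize a (u, 0) (0, 1) = c at *
  rcases h2.eq_or_lt with h5 | h5
  · have h6 := h4 1 (-(X + 1) * b) ((X + 1) * c)
    rw [← h5] at h6
    have h7 : 0 ≤ X - 2 * (X + 1) * (b ^ 2 + c ^ 2) := by linarith
    have h8 := h4 1 (-(X + 1) * b / (b ^ 2 + c ^ 2)) ((X + 1) * c / (b ^ 2 + c ^ 2))
    rw [← h5] at h8
    by_cases h9 : b ^ 2 + c ^ 2 = 0
    · rw [← h5]
      nlinarith
    · exfalso
      have h10 : -(X + 1) * b / (b ^ 2 + c ^ 2) * b - (X + 1) * c / (b ^ 2 + c ^ 2) * c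
          = -(X + 1) := by
        field_simp
        ring
      rw [h10] at h8
      linarith
  · have h6 := h4 Y (-b) c
    have h7 : 0 ≤ Y * (X * Y - c ^ 2 - b ^ 2) := by linarith
    exact nonneg_of_mul_nonneg_right h7 h5

theorem A4F_pos {a : Bil (F × ℂ)} (ha : ∀ u, a u u = 0)
    (hJ : ∀ u v, a (Complex.I • u) (Complex.I • v) = a u v) (hp : ∀ v, v ≠ 0 → 0 < a v (Complex.I • v))
    {u : F} (hu : u ≠ 0) : 0 < A4F a u (Complex.I • u) := by
  rw [Alg_key hJ]
  have h2 : 0 < a (0, 1) (Complex.I • (0, 1)) := hp (0, 1) (by simp)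
  have h3 := Alg_quad ha hJ (u, 0) (0, 1) (a (0, 1) (Complex.I • (0, 1)))
    (-(a (u, 0) (Complex.I • (0, 1)))) (a (u, 0) (0, 1))
  have h4 := hp (a (0, 1) (Complex.I • (0, 1)) • (u, 0) + (-(a (u, 0) (Complex.I • (0, 1))) • (0, 1)
    + a (u, 0) (0, 1) • (Complex.I • (0, 1)))) (by
      intro h
      have h5 := congrArg Prod.fst h
      have h6 : (a (0, 1) (Complex.I • (0, 1)) : ℝ) • u = 0 := by simpa using h5
      rcases smul_eq_zero.1 h6 with h7 | h7
      · exact h2.ne' h7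
      · exact hu h7)
  rw [h3] at h4
  generalize a (u, 0) (Complex.I • (u, 0)) = X at *
  generalize a (0, 1) (Complex.I • (0, 1)) = Y at *
  generalize a (u, 0) (Complex.I • (0, 1)) = b at *
  generalize a (u, 0) (0, 1) = c at *
  have h7 : 0 < Y * (X * Y - c ^ 2 - b ^ 2) := by linarith
  exact (mul_pos_iff_of_pos_left h2).1 h7

end Fib

end Pool.Agent.FBR
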