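import Pool.Agent.FBR.Chx
import Pool.Agent.FBR.Push
import Pool.Agent.FBR.Alg

/-!
# FBR/HBp: the tensor `π_* (β ∧ β / 2)` on the base is of type (1,1) and semi-positive

PROOF PLAN.  `hb_apply`: unfold `hb`, `extT`, `J`, `Gi`; evaluation commutes with the integral (`ContinuousLinearMap.integral_apply`,
`J_integrable`, `Gi_smooth`, `cut_compact`); the integrand is written with the indicator.  `hb_alt`, `hb_I`, `hb_semi`, `hb_pos`: pointwise
from `A4F_alt`, `A4F_I`, `A4F_nonneg`, `A4F_pos` (`tpb_alt`, `tpb_I`, `tpb_semi`, `posAt_iff`, `tc_I`, `d.nonneg`).  For `hb_pos` choose `i` with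
`d.χ i x0 > 0` (`d.sum`), `x0 = (d.P i).Ψ q0` (`d.supp`, `subset_tsupport`), `b = π x0` is in the source and `chartAt F c b = q0.1` (`PC.base`); the
integrand is continuous, `≥ 0`, with compact support (a slice of `Gi`) and `> 0` at `q0.2` (`Continuous.integral_pos_of_hasCompactSupport_nonneg_nonzero`);
`tc F c b u ≠ 0` for `u ≠ 0` by `dvec_tc`.
-/

set_option autoImplicit false

noncomputable section

open scoped Manifold ContDiff Classical

open MeasureTheory

namespace Pool.Agent.FBR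

private theorem HBp_abs {G V : Type*} [NormedAddCommGroup G] [NormedSpace ℝ G] [FiniteDimensional ℝ G]
    [NormedAddCommGroup V] [NormedSpace ℝ V] [CompleteSpace V] {f : G × ℂ → V} (hf : ContDiff ℝ ∞ f)
    (hc : HasCompactSupport f) (y : G) (L : V →L[ℝ] ℝ) :
    Continuous (fun w : ℂ => L (f (y, w))) ∧ Integrable (fun w : ℂ => L (f (y, w))) ∧
      L (J f y) = ∫ w : ℂ, L (f (y, w)) :=
  ⟨L.continuous.comp (hf.continuous.comp (Continuous.prodMk_right y)), L.integrable_comp (J_integrable hf.continuous hc y),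
    (L.integral_comp_comm (J_integrable hf.continuous hc y)).symm⟩

private def HBp_ev {G : Type*} [NormedAddCommGroup G] [NormedSpace ℝ G] (u v : G) : Bil G →L[ℝ] ℝ :=
  (ContinuousLinearMap.apply ℝ ℝ v).comp (ContinuousLinearMap.apply ℝ (G →L[ℝ] ℝ) u)

private theorem HBp_ev_apply {G : Type*} [NormedAddCommGroup G] [NormedSpace ℝ G] (u v : G) (a : Bil G) :
    HBp_ev u v a = a u v := rfl

private theorem HBp_J {G : Type*} [NormedAddCommGroup G] [NormedSpace ℝ G] [FiniteDimensional ℝ G]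
    {f : G × ℂ → Bil G} (hf : ContDiff ℝ ∞ f)
    (hc : HasCompactSupport f) (y u v : G) :
    Continuous (fun w : ℂ => HBp_ev u v (f (y, w))) ∧ Integrable (fun w : ℂ => HBp_ev u v (f (y, w))) ∧
      HBp_ev u v (J f y) = ∫ w : ℂ, HBp_ev u v (f (y, w)) :=
  HBp_abs hf hc y (HBp_ev u v)

private theorem HBp_J' {G : Type*} [NormedAddCommGroup G] [NormedSpace ℝ G] [FiniteDimensional ℝ G]
    {f : G × ℂ → Bil G} (hf : ContDiff ℝ ∞ f)
    (hc : HasCompactSupport f) (y u v : G) :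
    Continuous (fun w : ℂ => f (y, w) u v) ∧ Integrable (fun w : ℂ => f (y, w) u v) ∧
      J f y u v = ∫ w : ℂ, f (y, w) u v := by
  have h := HBp_J hf hc y u v
  simp only [HBp_ev_apply] at h
  exact h

variable {E X : Type*} [NormedAddCommGroup E] [NormedSpace ℂ E] [FiniteDimensional ℂ E]
  [TopologicalSpace X] [ChartedSpace E X] [IsManifold 𝓘(ℂ, E) ω X] [CompactSpace X] [T2Space X]
  {F B : Type*} [NormedAddCommGroup F] [NormedSpace ℂ F] [FiniteDimensional ℂ F] [TopologicalSpace B]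
  [ChartedSpace F B] [IsManifold 𝓘(ℂ, F) ω B] {π : X → B}

private theorem HBp_Gi (P : PC E F π) (χ : X → ℝ) (β : Form E X) (q : F × ℂ) (u v : F) :
    Gi P χ β q u v = P.O.indicator (fun q => χ (P.Ψ q) * A4F (tpb β.val P.Ψ q) u v) q := by
  unfold Gi
  by_cases hq : q ∈ P.O
  · rw [Set.indicator_of_mem hq, Set.indicator_of_mem hq]
    rfl
  · rw [Set.indicator_of_notMem hq, Set.indicator_of_notMem hq]
    rfl

private theorem HBp_smulI (P : PC E F π) {q : F × ℂ} (hq : q ∈ P.O) (v : F × ℂ) :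
    dvec E P.Ψ q (Complex.I • v) = Complex.I • dvec E P.Ψ q v := (P.hol q hq).smul_I v

private theorem HBp_tI (P : PC E F π) (β : Form E X) {q : F × ℂ} (hq : q ∈ P.O) (u v : F × ℂ) :
    tpb β.val P.Ψ q (Complex.I • u) (Complex.I • v) = tpb β.val P.Ψ q u v := by
  rw [tpb_apply, tpb_apply, HBp_smulI P hq, HBp_smulI P hq, β.j]

private theorem HBp_tsemi (P : PC E F π) {β : Form E X} (hβ : β.Semi) {q : F × ℂ} (hq : q ∈ P.O) (v : F × ℂ) :
    0 ≤ tpb β.val P.Ψ q v (Complex.I • v) := by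
  rw [tpb_apply, HBp_smulI P hq]
  exact hβ _ _

private theorem HBp_tpos (P : PC E F π) {β : Form E X} {q : F × ℂ} (hq : q ∈ P.O) (hβ : β.PosAt (P.Ψ q))
    (v : F × ℂ) (hv : v ≠ 0) : 0 < tpb β.val P.Ψ q v (Complex.I • v) := by
  rw [tpb_apply, HBp_smulI P hq]
  refine hβ _ fun h0 => hv ?_
  exact (P.bij q hq).1 (h0.trans (map_zero (dvec E P.Ψ q)).symm)

private theorem HBp_A_alt (P : PC E F π) (β : Form E X) (q : F × ℂ) (u : F) :
    A4F (tpb β.val P.Ψ q) u u = 0 := A4F_alt (tpb_alt β P.Ψ q) u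

private theorem HBp_A_I (P : PC E F π) (β : Form E X) {q : F × ℂ} (hq : q ∈ P.O) (u v : F) :
    A4F (tpb β.val P.Ψ q) (Complex.I • u) (Complex.I • v) = A4F (tpb β.val P.Ψ q) u v :=
  A4F_I (tpb_alt β P.Ψ q) (HBp_tI P β hq) u v

private theorem HBp_A_semi (P : PC E F π) {β : Form E X} (hβ : β.Semi) {q : F × ℂ} (hq : q ∈ P.O) (u : F) :
    0 ≤ A4F (tpb β.val P.Ψ q) u (Complex.I • u) :=
  A4F_nonneg (tpb_alt β P.Ψ q) (HBp_tI P β hq) (HBp_tsemi P hβ hq) u

private theorem HBp_A_pos (P : PC E F π) {β : Form E X} {q : F × ℂ} (hq : q ∈ P.O) (hβ : β.PosAt (P.Ψ q))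
    {u : F} (hu : u ≠ 0) :
    0 < A4F (tpb β.val P.Ψ q) u (Complex.I • u) :=
  A4F_pos (tpb_alt β P.Ψ q) (HBp_tI P β hq) (HBp_tpos P hq hβ) hu

private theorem HBp_fun (P : PC E F π) {χ : X → ℝ} (hχ : SmF E χ) (hs : tsupport χ ⊆ P.Ψ '' P.O)
    (β : Form E X) (y u v : F) :
    Continuous (fun w : ℂ => P.O.indicator (fun q => χ (P.Ψ q) * A4F (tpb β.val P.Ψ q) u v) (y, w)) ∧
      Integrable (fun w : ℂ => P.O.indicator (fun q => χ (P.Ψ q) * A4F (tpb β.val P.Ψ q) u v) (y, w)) ∧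
      J (Gi P χ β) y u v =
        ∫ w : ℂ, P.O.indicator (fun q => χ (P.Ψ q) * A4F (tpb β.val P.Ψ q) u v) (y, w) := by
  have h1 : ContDiff ℝ ∞ (Gi P χ β) := Gi_smooth P β hχ hs
  have h2 := cut_compact (V := Bil F) P hs (fun q => A4F (tpb β.val P.Ψ q))
  have h := HBp_J' (f := Gi P χ β) h1 h2 y u v
  have he : (fun w : ℂ => Gi P χ β (y, w) u v) =
      fun w : ℂ => P.O.indicator (fun q => χ (P.Ψ q) * A4F (tpb β.val P.Ψ q) u v) (y, w) :=
    funext fun w => HBp_Gi P χ β (y, w) u v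
  rw [he] at h
  exact h

theorem hb_apply (d : FD E F π) (β : Form E X) (b : B) (u v : F) :
    hb d β b u v = ∑ i, if b ∈ (chartAt F (d.P i).c).source then
      ∫ w : ℂ, (d.P i).O.indicator (fun q => d.χ i ((d.P i).Ψ q) *
        A4F (tpb β.val (d.P i).Ψ q) (tc F (d.P i).c b u) (tc F (d.P i).c b v)) (chartAt F (d.P i).c b, w)
      else 0 := by
  unfold hb
  rw [_root_.sum_apply, _root_.sum_apply]
  refine Finset.sum_congr rfl fun i _ => ?_
  unfold extT
  by_cases hb : b ∈ (chartAt F (d.P i).c).source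
  · rw [if_pos hb, if_pos hb]
    exact (HBp_fun (d.P i) (d.sm i) (d.supp i) β (chartAt F (d.P i).c b) (tc F (d.P i).c b u)
      (tc F (d.P i).c b v)).2.2
  · rw [if_neg hb, if_neg hb]
    rfl

theorem hb_alt (d : FD E F π) (β : Form E X) (b : B) (u : F) : hb d β b u u = 0 := by
  rw [hb_apply]
  refine Finset.sum_eq_zero fun i _ => ?_
  by_cases hb : b ∈ (chartAt F (d.P i).c).source
  · rw [if_pos hb, ← integral_zero ℂ ℝ]
    refine integral_congr_ae (Filter.Eventually.of_forall fun w => ?_)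
    refine Set.indicator_apply_eq_zero.2 fun _ => ?_
    rw [HBp_A_alt, mul_zero]
  · rw [if_neg hb]

theorem hb_I (d : FD E F π) (β : Form E X) (b : B) (u v : F) :
    hb d β b (Complex.I • u) (Complex.I • v) = hb d β b u v := by
  rw [hb_apply, hb_apply]
  refine Finset.sum_congr rfl fun i _ => ?_
  by_cases hb : b ∈ (chartAt F (d.P i).c).source
  · rw [if_pos hb, if_pos hb]
    refine integral_congr_ae (Filter.Eventually.of_forall fun w => ?_)
    show (d.P i).O.indicator _ _ = (d.P i).O.indicator _ _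
    by_cases hq : ((chartAt F (d.P i).c b, w) : F × ℂ) ∈ (d.P i).O
    · rw [Set.indicator_of_mem hq, Set.indicator_of_mem hq, tc_I hb, tc_I hb, HBp_A_I (d.P i) β hq]
    · rw [Set.indicator_of_notMem hq, Set.indicator_of_notMem hq]
  · rw [if_neg hb, if_neg hb]

private theorem HBp_term (d : FD E F π) {β : Form E X} (hβ : β.Semi) {b : B} (i : Fin d.n)
    (hb : b ∈ (chartAt F (d.P i).c).source) (u : F) (w : ℂ) :
    0 ≤ (d.P i).O.indicator (fun q => d.χ i ((d.P i).Ψ q) *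
        A4F (tpb β.val (d.P i).Ψ q) (tc F (d.P i).c b u) (tc F (d.P i).c b (Complex.I • u)))
        (chartAt F (d.P i).c b, w) := by
  refine Set.indicator_apply_nonneg fun hq => ?_
  refine mul_nonneg (d.nonneg i _) ?_
  rw [tc_I hb]
  exact HBp_A_semi (d.P i) hβ hq _

private theorem HBp_nonneg (d : FD E F π) {β : Form E X} (hβ : β.Semi) (b : B) (u : F) (i : Fin d.n) :
    0 ≤ if b ∈ (chartAt F (d.P i).c).source then
      ∫ w : ℂ, (d.P i).O.indicator (fun q => d.χ i ((d.P i).Ψ q) *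
        A4F (tpb β.val (d.P i).Ψ q) (tc F (d.P i).c b u) (tc F (d.P i).c b (Complex.I • u)))
        (chartAt F (d.P i).c b, w)
      else 0 := by
  by_cases hb : b ∈ (chartAt F (d.P i).c).source
  · rw [if_pos hb]
    exact integral_nonneg fun w => HBp_term d hβ i hb u w
  · rw [if_neg hb]

theorem hb_semi (d : FD E F π) {β : Form E X} (hβ : β.Semi) (b : B) (u : F) :
    0 ≤ hb d β b u (Complex.I • u) := by
  rw [hb_apply]
  exact Finset.sum_nonneg fun i _ => HBp_nonneg d hβ b u i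

theorem hb_pos (d : FD E F π) {β : Form E X} (hβ : β.Semi) {x0 : X} (hx0 : β.PosAt x0) {u : F} (hu : u ≠ 0) :
    0 < hb d β (π x0) u (Complex.I • u) := by
  rw [hb_apply]
  obtain ⟨i, -, hi⟩ := Finset.exists_ne_zero_of_sum_ne_zero
    (s := Finset.univ) (f := fun i => d.χ i x0) (by rw [d.sum]; exact one_ne_zero)
  refine Finset.sum_pos' (fun j _ => HBp_nonneg d hβ (π x0) u j) ⟨i, Finset.mem_univ i, ?_⟩
  obtain ⟨q0, hq0, hx⟩ := d.supp i (subset_tsupport (d.χ i) hi)
  subst hx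
  obtain ⟨hb, hc⟩ := (d.P i).base hq0
  have hq1 : ((chartAt F (d.P i).c (π ((d.P i).Ψ q0)), q0.2) : F × ℂ) = q0 := by rw [hc]
  obtain ⟨h1, h2, -⟩ := HBp_fun (d.P i) (d.sm i) (d.supp i) β
    (chartAt F (d.P i).c (π ((d.P i).Ψ q0))) (tc F (d.P i).c (π ((d.P i).Ψ q0)) u)
      (tc F (d.P i).c (π ((d.P i).Ψ q0)) (Complex.I • u))
  rw [if_pos hb]
  refine integral_pos_of_integrable_nonneg_nonzero (x := q0.2) h1 h2
    (fun w => HBp_term d hβ i hb u w) (ne_of_gt ?_)
  rw [hq1, Set.indicator_of_mem hq0, tc_I hb]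
  refine mul_pos (lt_of_le_of_ne (d.nonneg i _) (Ne.symm hi)) ?_
  refine HBp_A_pos (d.P i) hq0 hx0 ?_
  intro h0
  apply hu
  have h3 := dvec_tc hb u
  rw [h0, map_zero] at h3
  exact h3.symm

end Pool.Agent.FBR
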