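import Pool.Agent.FBR.Vol
import Pool.Agent.FBR.HBc
import Pool.Agent.FBR.HBp
import Pool.Agent.FBR.FibA
import Pool.Agent.FBR.Asc
import Pool.Agent.FBR.Cpt

/-!
# FBR/CStep: fibre spaces with curves as fibres

PROOF PLAN.  `curve_base`: `exists_FD`, the tensor `hb d β` is a form by `exists_form_coef` (`hb_alt`, `hb_I`, `hb_coef_smooth`, `hb_coef_closed`), `hb_semi`, `hb_pos`.
`curve_total`: `fib_point`, `fib_all` (`VNn` from `Semi`), `ascend`; the form `β + ddcF φ` (`exists_ddcF`, `exists_comb`), `fib_pos`.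
-/

set_option autoImplicit false

noncomputable section

open scoped Manifold ContDiff Classical

namespace Pool.Agent.FBR

universe u

theorem curve_base (M B : CM.{u}) (π : M.X → B.X) (hπ : CurveFib M.E B.E π) (h : SemiPos M) : SemiPos B := by
  obtain ⟨β, hβ, x0, hx0⟩ := h
  obtain ⟨d⟩ := exists_FD hπ
  obtain ⟨c, hc⟩ := exists_form_coef (hb d β) (hb_alt d β) (hb_I d β)
    (fun p y hy => hb_coef_smooth d β hy) (fun p y hy u v w => hb_coef_closed hπ d β hy u v w)
  refine ⟨c, ?_, π x0, ?_⟩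
  · intro b v
    rw [hc]
    exact hb_semi d hβ b v
  · intro v hv
    rw [hc]
    exact hb_pos d hβ hx0 hv

theorem curve_total (M B : CM.{u}) (π : M.X → B.X) (hπ : CurveFib M.E B.E π) (h : SemiPos M)
    (hB : Kaehler B) : Kaehler M := by
  obtain ⟨β, hβ, x0, hx0⟩ := h
  obtain ⟨φ, hφ, hp⟩ := ascend hπ β (fun b => by
    obtain ⟨x, hx, hxp⟩ := fib_point hπ β hβ x0 hx0 b
    exact fib_all hπ β b (fun x _ ξ _ => hβ x ξ) x hx hxp)
  obtain ⟨e, he⟩ := exists_ddcF hφ
  obtain ⟨c, hc⟩ := exists_comb β e 1 1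
  refine fib_pos M B π hπ.hol c ?_ hB
  intro x v hv h0
  have := hp x v hv h0
  rw [hc, he]
  simpa using this

end Pool.Agent.FBR
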