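import Pool.Agent.FBR.Chg

/-!
# FBR/Inv: local inverses of parametrizations

PROOF PLAN.  Apply the inverse function theorem (`ContDiffAt.toOpenPartialHomeomorph`,
`ContDiffAt.to_localInverse`, or `HasStrictFDerivAt.to_localInverse`) to `θ = chartAt E p ∘ g` at `q0`;
its derivative at `q0` is bijective (`dvec_chart`, and
`fderiv ℝ (chartAt E p ∘ (chartAt E x).symm)` is bijective: `dvec_chart'`, `dvec_symm_bij`).  For `ContDiffAt ∞`
at all points of a neighbourhood: the derivative of `θ` is invertible near `q0` (it is continuous),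
apply the inverse function theorem at each point, or shrink `O` to an open `O'` on which `θ` is
injective with invertible derivatives and open, and use `OpenPartialHomeomorph.contDiffAt_symm`.
`hol_...` is the same over `ℂ`.  `isOpen_image`: from the local inverses.
-/

set_option autoImplicit false

noncomputable section

open scoped Manifold ContDiff

namespace Pool.Agent.FBR

variable {E X : Type*} [NormedAddCommGroup E] [NormedSpace ℂ E] [FiniteDimensional ℂ E]
  [TopologicalSpace X] [ChartedSpace E X] [IsManifold 𝓘(ℂ, E) ω X]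
  {G : Type*} [NormedAddCommGroup G] [NormedSpace ℝ G] [FiniteDimensional ℝ G]
  {H : Type*} [NormedAddCommGroup H] [NormedSpace ℂ H] [FiniteDimensional ℂ H]

/-- the inverse function theorem, with a smooth local inverse on a neighbourhood -/
private theorem Inv_gen {𝕂 : Type*} [RCLike 𝕂] {A B : Type*} [NormedAddCommGroup A] [NormedSpace 𝕂 A]
    [FiniteDimensional 𝕂 A] [NormedAddCommGroup B] [NormedSpace 𝕂 B] [FiniteDimensional 𝕂 B]
    {θ : A → B} {O : Set A} (hO : IsOpen O) (hθ : ∀ q ∈ O, ContDiffAt 𝕂 ∞ θ q) {q0 : A} (h0 : q0 ∈ O)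
    (hb : Function.Bijective (fderiv 𝕂 θ q0)) :
    ∃ (W : Set B) (k : B → A), IsOpen W ∧ θ q0 ∈ W ∧ k (θ q0) = q0 ∧
      ∀ y ∈ W, k y ∈ O ∧ θ (k y) = y ∧ ContDiffAt 𝕂 ∞ k y := by
  haveI : CompleteSpace A := FiniteDimensional.complete 𝕂 A
  haveI : CompleteSpace B := FiniteDimensional.complete 𝕂 B
  set L : A ≃L[𝕂] B :=
    (LinearEquiv.ofBijective (fderiv 𝕂 θ q0 : A →ₗ[𝕂] B) hb).toContinuousLinearEquiv with hL
  have hLe : (L : A →L[𝕂] B) = fderiv 𝕂 θ q0 := by
    ext v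
    rfl
  have hd : HasFDerivAt θ (L : A →L[𝕂] B) q0 := by
    rw [hLe]
    exact ((hθ q0 h0).differentiableAt (by simp)).hasFDerivAt
  set e : OpenPartialHomeomorph A B :=
    (hθ q0 h0).toOpenPartialHomeomorph θ hd (by simp) with he
  have hec : (e : A → B) = θ := (hθ q0 h0).toOpenPartialHomeomorph_coe hd (by simp)
  have hes : q0 ∈ e.source := (hθ q0 h0).mem_toOpenPartialHomeomorph_source hd (by simp)
  -- the derivative is invertible near `q0`
  have hcont : ContinuousAt (fderiv 𝕂 θ) q0 := (hθ q0 h0).continuousAt_fderiv (by simp)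
  have hR : Set.range ((↑) : (A ≃L[𝕂] B) → A →L[𝕂] B) ∈ nhds (fderiv 𝕂 θ q0) :=
    ContinuousLinearEquiv.isOpen.mem_nhds ⟨L, hLe⟩
  obtain ⟨V, hV1, hV2, hV3⟩ := mem_nhds_iff.1 (Filter.inter_mem (hcont.preimage_mem_nhds hR)
    (hO.mem_nhds h0))
  have hθe : e q0 = θ q0 := by rw [hec]
  have hsq : e.symm (θ q0) = q0 := by rw [← hθe]; exact e.left_inv hes
  refine ⟨e.target ∩ e.symm ⁻¹' V, e.symm, e.symm.isOpen_inter_preimage hV2, ⟨?_, ?_⟩, hsq, ?_⟩
  · rw [← hθe]
    exact e.map_source hes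
  · change e.symm (θ q0) ∈ V
    rw [hsq]
    exact hV3
  · rintro y ⟨hy1, hy2⟩
    have hyV : e.symm y ∈ V := hy2
    have hO2 : e.symm y ∈ O := (hV1 hyV).2
    have hr : θ (e.symm y) = y := by
      have := e.right_inv hy1
      rwa [hec] at this
    refine ⟨hO2, hr, ?_⟩
    obtain ⟨M, hM⟩ := (hV1 hyV).1
    refine e.contDiffAt_symm (f₀' := M) hy1 ?_ ?_
    · rw [hec, hM]
      exact ((hθ _ hO2).differentiableAt (by simp)).hasFDerivAt
    · rw [hec]
      exact hθ _ hO2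

/-- the derivative in the chart at `p` is bijective -/
private theorem Inv_bij {g : G → X} {q0 : G} (hs : Sm E g q0)
    (hb : Function.Bijective (dvec E g q0)) {p : X} (hp : g q0 ∈ (chartAt E p).source) :
    Function.Bijective (fderiv ℝ (chartAt E p ∘ g) q0) := by
  have h1 := dvec_chart' (E := E) hs hp
  have h2 : Function.Bijective (dvec E (chartAt E p).symm (chartAt E p (g q0))) :=
    dvec_symm_bij ((chartAt E p).map_source hp)
  rw [h1] at hb
  have h3 : Function.Bijective ((dvec E (chartAt E p).symm (chartAt E p (g q0))) ∘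
      (fderiv ℝ (chartAt E p ∘ g) q0)) := hb
  exact (Function.Bijective.of_comp_iff' h2 _).1 h3

theorem sm_inv {g : G → X} {O : Set G} (hO : IsOpen O) (hs : ∀ q ∈ O, Sm E g q) {q0 : G} (h0 : q0 ∈ O)
    (hb : Function.Bijective (dvec E g q0)) {p : X} (hp : g q0 ∈ (chartAt E p).source) :
    ∃ (W : Set E) (k : E → G), IsOpen W ∧ chartAt E p (g q0) ∈ W ∧ W ⊆ (chartAt E p).target ∧
      k (chartAt E p (g q0)) = q0 ∧
      ∀ y ∈ W, k y ∈ O ∧ g (k y) = (chartAt E p).symm y ∧ ContDiffAt ℝ ∞ k y := by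
  haveI : FiniteDimensional ℝ E := FiniteDimensional.complexToReal E
  have hO' : IsOpen (O ∩ g ⁻¹' (chartAt E p).source) :=
    ContinuousOn.isOpen_inter_preimage (fun q hq => (hs q hq).1.continuousWithinAt) hO
      (chartAt E p).open_source
  obtain ⟨W, k, hW, h1, h2, h3⟩ := Inv_gen (𝕂 := ℝ) (θ := chartAt E p ∘ g) hO'
    (fun q hq => (sm_iff (hs q hq.1).1 hq.2).1 (hs q hq.1)) ⟨h0, hp⟩ (Inv_bij (hs q0 h0) hb hp)
  refine ⟨W, k, hW, h1, fun y hy => ?_, h2, fun y hy => ?_⟩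
  · obtain ⟨h4, h5, -⟩ := h3 y hy
    rw [← h5]
    exact (chartAt E p).map_source h4.2
  · obtain ⟨h4, h5, h6⟩ := h3 y hy
    refine ⟨h4.1, ?_, h6⟩
    have h7 : (chartAt E p).symm (chartAt E p (g (k y))) = g (k y) := (chartAt E p).left_inv h4.2
    rw [← h7]
    exact congrArg _ h5

theorem hol_inv {g : H → X} {O : Set H} (hO : IsOpen O) (hs : ∀ q ∈ O, Hol E g q) {q0 : H} (h0 : q0 ∈ O)
    (hb : Function.Bijective (dvec E g q0)) {p : X} (hp : g q0 ∈ (chartAt E p).source) :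
    ∃ (W : Set E) (k : E → H), IsOpen W ∧ chartAt E p (g q0) ∈ W ∧ W ⊆ (chartAt E p).target ∧
      k (chartAt E p (g q0)) = q0 ∧
      ∀ y ∈ W, k y ∈ O ∧ g (k y) = (chartAt E p).symm y ∧ ContDiffAt ℂ ∞ k y := by
  haveI : FiniteDimensional ℝ H := FiniteDimensional.complexToReal H
  have hO' : IsOpen (O ∩ g ⁻¹' (chartAt E p).source) :=
    ContinuousOn.isOpen_inter_preimage (fun q hq => (hs q hq).1.continuousWithinAt) hO
      (chartAt E p).open_source
  have hc : ∀ q ∈ O ∩ g ⁻¹' (chartAt E p).source, ContDiffAt ℂ ∞ (chartAt E p ∘ g) q :=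
    fun q hq => (hol_iff (hs q hq.1).1 hq.2).1 (hs q hq.1)
  have hb' : Function.Bijective (fderiv ℂ (chartAt E p ∘ g) q0) := by
    have h1 := Inv_bij (hs q0 h0).sm hb hp
    rw [((hc q0 ⟨h0, hp⟩).differentiableAt (by simp)).fderiv_restrictScalars ℝ] at h1
    exact h1
  obtain ⟨W, k, hW, h1, h2, h3⟩ := Inv_gen (𝕂 := ℂ) (θ := chartAt E p ∘ g) hO' hc ⟨h0, hp⟩ hb'
  refine ⟨W, k, hW, h1, fun y hy => ?_, h2, fun y hy => ?_⟩
  · obtain ⟨h4, h5, -⟩ := h3 y hy
    rw [← h5]
    exact (chartAt E p).map_source h4.2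
  · obtain ⟨h4, h5, h6⟩ := h3 y hy
    refine ⟨h4.1, ?_, h6⟩
    have h7 : (chartAt E p).symm (chartAt E p (g (k y))) = g (k y) := (chartAt E p).left_inv h4.2
    rw [← h7]
    exact congrArg _ h5

/-- a map with bijective derivatives is open -/
theorem isOpen_image {g : G → X} {O : Set G} (hO : IsOpen O) (hs : ∀ q ∈ O, Sm E g q)
    (hb : ∀ q ∈ O, Function.Bijective (dvec E g q)) : IsOpen (g '' O) := by
  rw [isOpen_iff_forall_mem_open]
  rintro _ ⟨q, hq, rfl⟩
  obtain ⟨W, k, hW, h1, h2, -, h3⟩ := sm_inv hO hs hq (hb q hq) (mem_chart_source E (g q))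
  refine ⟨(chartAt E (g q)).symm '' W, ?_, ?_, ?_⟩
  · rintro _ ⟨y, hy, rfl⟩
    obtain ⟨h4, h5, -⟩ := h3 y hy
    exact ⟨k y, h4, h5⟩
  · exact (chartAt E (g q)).symm.isOpen_image_of_subset_source hW h2
  · exact ⟨_, h1, (chartAt E (g q)).left_inv (mem_chart_source E (g q))⟩

end Pool.Agent.FBR
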