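import Pool.Agent.FBR.CDefs
import Pool.Agent.FBR.Inv
import Pool.Agent.FBR.Tpb

/-!
# FBR/Prod: product charts

PROOF PLAN.  `dmap_dvec`: near `q`, `π ∘ P.Ψ = (chartAt F P.c).symm ∘ Prod.fst` (`P.isOpen`, `P.proj`); `dvec_holo`, `dvec_comp`,
`hol_symm`.  `vert_iff`: by `dmap_dvec`, `dvec_symm_bij` (injective) and `P.bij`.  `dvec_vert`: `(0, r) = r • (0, 1)`; `Hol.smul_I`
gives complex linearity of `dvec E P.Ψ q`.  `isOpen_im`: `isOpen_image` of Inv (for the open `S ⊆ P.O`).
`isCompact_preim`: `P.Ψ` is a homeomorphism from `P.O` to the open set `P.Ψ '' P.O` (continuous, injective, open);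
`isOpenEmbedding`-lemmas, or sequences/filters.
`exists_PC`: `x0`, `c = π x0`; `dmap E F π x0` is complex linear (`dmap_I`) and surjective with kernel of dimension one
(`rank-nullity`, `h.dim`); choose `ℓ : E →L[ℂ] ℂ` which is nonzero on the kernel.  `θ : E → F × ℂ`,
`θ y = (chartAt F c (π ((chartAt E x0).symm y)), ℓ y)` is holomorphic near `y0 = chartAt E x0 x0` with bijective derivative
(at `y0`: `(dmap E F π x0, ℓ)`).  The inverse function theorem (`ContDiffAt.toOpenPartialHomeomorph` over `ℂ`) gives `k` inverse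
to `θ` near `θ y0`; `Ψ = (chartAt E x0).symm ∘ k`, `O` a small open neighbourhood of `θ y0` (contained in the target of the
local homeomorphism, in `{q | k q ∈ (chartAt E x0).target}`, `{q | q.1 ∈ (chartAt F c).target}`, and in
`{q | π (Ψ q) ∈ (chartAt F c).source}`).
`tc_dvec`, `dvec_tc`: chain rule for `(chartAt F b).symm = (chartAt F c).symm ∘ (chartAt F c ∘ (chartAt F b).symm)`
and `dvec_symm_self`.
-/

set_option autoImplicit false

noncomputable section

open scoped Manifold ContDiff Classical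

namespace Pool.Agent.FBR

variable {E X : Type*} [NormedAddCommGroup E] [NormedSpace ℂ E] [FiniteDimensional ℂ E]
  [TopologicalSpace X] [ChartedSpace E X] [IsManifold 𝓘(ℂ, E) ω X]
  {F B : Type*} [NormedAddCommGroup F] [NormedSpace ℂ F] [FiniteDimensional ℂ F] [TopologicalSpace B]
  [ChartedSpace F B] [IsManifold 𝓘(ℂ, F) ω B] {π : X → B}

omit [FiniteDimensional ℂ E] [IsManifold 𝓘(ℂ, E) ω X] in
private theorem Prod_dvec_congr {G : Type*} [NormedAddCommGroup G] [NormedSpace ℝ G] {f f' : G → X} {q : G}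
    (h : f =ᶠ[nhds q] f') : dvec E f q = dvec E f' q := by
  have h1 : f q = f' q := h.eq_of_nhds
  unfold dvec
  rw [h1]
  exact Filter.EventuallyEq.fderiv_eq (h.fun_comp (chartAt E (f' q)))

private theorem Prod_smul {H E : Type*} [NormedAddCommGroup H] [NormedSpace ℂ H] [NormedAddCommGroup E]
    [NormedSpace ℂ E] (L : H →L[ℝ] E) (h : ∀ v, L (Complex.I • v) = Complex.I • L v) (r : ℂ) (v : H) :
    L (r • v) = r • L v := by
  have h1 : r • v = (r.re : ℝ) • v + (r.im : ℝ) • (Complex.I • v) := by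
    conv_lhs => rw [← Complex.re_add_im r]
    rw [add_smul, mul_smul, Complex.coe_smul, Complex.coe_smul]
  have h2 : r • L v = (r.re : ℝ) • L v + (r.im : ℝ) • (Complex.I • L v) := by
    conv_lhs => rw [← Complex.re_add_im r]
    rw [add_smul, mul_smul, Complex.coe_smul, Complex.coe_smul]
  rw [h1, h2, map_add, map_smul, map_smul, h]

/-- derivative of the change of charts at `b` followed by the inverse of the chart at `c` -/
theorem dvec_tc {c b : B} (hb : b ∈ (chartAt F c).source) (u : F) :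
    dvec F (chartAt F c).symm (chartAt F c b) (tc F c b u) = u := by
  have h0 : (chartAt F b).symm (chartAt F b b) = b := (chartAt F b).left_inv (mem_chart_source F b)
  have h1 := dvec_chart' (E := F) (f := (chartAt F b).symm) (q := chartAt F b b) (p := c)
    (hol_symm (mem_chart_target F b)).sm (by rw [h0]; exact hb)
  rw [dvec_symm_self, h0] at h1
  exact (DFunLike.congr_fun h1 u).symm

theorem tc_dvec {c b : B} (hb : b ∈ (chartAt F c).source) (u : F) :
    tc F c b (dvec F (chartAt F c).symm (chartAt F c b) u) = u := by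
  have h1 := (dvec_symm_bij (E := F) ((chartAt F c).map_source hb)).1
  exact h1 (dvec_tc hb _)

theorem tc_I {c b : B} (hb : b ∈ (chartAt F c).source) (u : F) :
    tc F c b (Complex.I • u) = Complex.I • tc F c b u := by
  have h1 := (dvec_symm_bij (E := F) ((chartAt F c).map_source hb)).1
  apply h1
  rw [dvec_tc hb, (hol_symm ((chartAt F c).map_source hb)).smul_I, dvec_tc hb]

theorem PC.dmap_dvec (hπ : ContMDiff 𝓘(ℂ, E) 𝓘(ℂ, F) ω π) (P : PC E F π) {q : F × ℂ} (hq : q ∈ P.O)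
    (v : F × ℂ) :
    dmap E F π (P.Ψ q) (dvec E P.Ψ q v) = dvec F (chartAt F P.c).symm q.1 v.1 := by
  have h1 := dvec_holo hπ (P.hol q hq).sm
  have h2 : π ∘ P.Ψ =ᶠ[nhds q] (chartAt F P.c).symm ∘ Prod.fst := by
    filter_upwards [P.isOpen.mem_nhds hq] with q' hq'
    exact P.proj q' hq'
  have h3 : dvec F (π ∘ P.Ψ) q = (dvec F (chartAt F P.c).symm q.1).comp (fderiv ℝ Prod.fst q) := by
    rw [Prod_dvec_congr h2]
    exact dvec_comp (k := Prod.fst) (hol_symm (P.mem q hq)).sm differentiableAt_fst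
  have h4 := DFunLike.congr_fun (h1.symm.trans h3) v
  rw [fderiv_fst] at h4
  exact h4

/-- the lift of a tangent vector of the base in a product chart -/
theorem PC.dmap_tc (hπ : ContMDiff 𝓘(ℂ, E) 𝓘(ℂ, F) ω π) (P : PC E F π) {b : B}
    (hb : b ∈ (chartAt F P.c).source) {w : ℂ} (hq : (chartAt F P.c b, w) ∈ P.O) (u : F) :
    dmap E F π (P.Ψ (chartAt F P.c b, w)) (dvec E P.Ψ (chartAt F P.c b, w) (tc F P.c b u, 0)) = u := by
  rw [P.dmap_dvec hπ hq]
  exact dvec_tc hb u

theorem PC.dvec_vert (P : PC E F π) {q : F × ℂ} (hq : q ∈ P.O) (r : ℂ) :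
    dvec E P.Ψ q (0, r) = r • dvec E P.Ψ q (0, 1) := by
  have h1 := Prod_smul (dvec E P.Ψ q) (P.hol q hq).smul_I r (0, 1)
  rw [← h1]
  congr 1
  simp

/-- the vertical tangent vectors -/
theorem PC.vert_iff (hπ : ContMDiff 𝓘(ℂ, E) 𝓘(ℂ, F) ω π) (P : PC E F π) {q : F × ℂ} (hq : q ∈ P.O) (v : E) :
    dmap E F π (P.Ψ q) v = 0 ↔ ∃ r : ℂ, v = r • dvec E P.Ψ q (0, 1) := by
  constructor
  · intro h
    obtain ⟨⟨a, w⟩, rfl⟩ := (P.bij q hq).2 v
    rw [P.dmap_dvec hπ hq] at h
    have h1 := (dvec_symm_bij (E := F) (P.mem q hq)).1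
    have h2 : a = 0 := h1 (h.trans (map_zero _).symm)
    subst h2
    exact ⟨w, P.dvec_vert hq w⟩
  · rintro ⟨r, rfl⟩
    rw [← P.dvec_vert hq, P.dmap_dvec hπ hq]
    exact map_zero _

theorem PC.dvec_ne (P : PC E F π) {q : F × ℂ} (hq : q ∈ P.O) : dvec E P.Ψ q (0, 1) ≠ 0 := by
  intro h
  have h1 := (P.bij q hq).1 (h.trans (map_zero _).symm)
  have h2 := congrArg Prod.snd h1
  exact one_ne_zero h2

/-- the point of the base -/
theorem PC.base (P : PC E F π) {q : F × ℂ} (hq : q ∈ P.O) :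
    π (P.Ψ q) ∈ (chartAt F P.c).source ∧ chartAt F P.c (π (P.Ψ q)) = q.1 := by
  rw [P.proj q hq]
  exact ⟨(chartAt F P.c).map_target (P.mem q hq), (chartAt F P.c).right_inv (P.mem q hq)⟩

theorem PC.isOpen_im (P : PC E F π) {S : Set (F × ℂ)} (hS : IsOpen S) (hSO : S ⊆ P.O) :
    IsOpen (P.Ψ '' S) := by
  exact isOpen_image hS (fun q hq => (P.hol q (hSO hq)).sm) (fun q hq => P.bij q (hSO hq))

theorem PC.isCompact_preim (P : PC E F π) {K : Set X} (hK : IsCompact K) (hKO : K ⊆ P.Ψ '' P.O) :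
    IsCompact {q | q ∈ P.O ∧ P.Ψ q ∈ K} := by
  have h1 : Continuous (fun q : P.O => P.Ψ q) := by
    rw [continuous_iff_continuousAt]
    intro q
    exact (P.hol q q.2).1.comp continuousAt_subtype_val
  have h2 : Function.Injective (fun q : P.O => P.Ψ q) := fun q q' h => Subtype.ext (P.inj q.2 q'.2 h)
  have h3 : IsOpenMap (fun q : P.O => P.Ψ q) := by
    intro S hS
    have h4 : (fun q : P.O => P.Ψ q) '' S = P.Ψ '' (Subtype.val '' S) := by
      rw [Set.image_image]
    rw [h4]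
    refine P.isOpen_im (P.isOpen.isOpenMap_subtype_val S hS) ?_
    rintro _ ⟨q, -, rfl⟩
    exact q.2
  have h5 : Topology.IsOpenEmbedding (fun q : P.O => P.Ψ q) :=
    Topology.IsOpenEmbedding.of_continuous_injective_isOpenMap h1 h2 h3
  have h6 : IsCompact ((fun q : P.O => P.Ψ q) ⁻¹' K) := by
    rw [h5.isInducing.isCompact_iff, Set.image_preimage_eq_of_subset]
    · exact hK
    · intro x hx
      obtain ⟨q, hq, rfl⟩ := hKO hx
      exact ⟨⟨q, hq⟩, rfl⟩
  have h7 : {q | q ∈ P.O ∧ P.Ψ q ∈ K} = Subtype.val '' ((fun q : P.O => P.Ψ q) ⁻¹' K) := by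
    ext q
    constructor
    · rintro ⟨hq, hqK⟩
      exact ⟨⟨q, hq⟩, hqK, rfl⟩
    · rintro ⟨q', hq', rfl⟩
      exact ⟨q'.2, hq'⟩
  rw [h7]
  exact h6.image continuous_subtype_val

/-- a linear form on `E` which is nonzero on the kernel of a surjection onto a space of dimension one less -/
private theorem Prod_form {E F : Type*} [NormedAddCommGroup E] [NormedSpace ℂ E] [FiniteDimensional ℂ E]
    [NormedAddCommGroup F] [NormedSpace ℂ F] [FiniteDimensional ℂ F] (M : E →L[ℂ] F)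
    (hM : Function.Surjective M) (hd : Module.finrank ℂ E = Module.finrank ℂ F + 1) :
    ∃ l : E →L[ℂ] ℂ, ∀ v, M v = 0 → l v = 0 → v = 0 := by
  have h1 := LinearMap.finrank_range_add_finrank_ker (M : E →ₗ[ℂ] F)
  have h2 : LinearMap.range (M : E →ₗ[ℂ] F) = ⊤ := LinearMap.range_eq_top.2 hM
  rw [h2, finrank_top] at h1
  have h3 : Module.finrank ℂ (LinearMap.ker (M : E →ₗ[ℂ] F)) = 1 := by omega
  obtain ⟨k, hk0, hk⟩ := finrank_eq_one_iff'.1 h3
  have hk1 : (k : E) ≠ 0 := fun h => hk0 (Subtype.ext h)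
  obtain ⟨l, hl⟩ := SeparatingDual.exists_ne_zero (R := ℂ) hk1
  refine ⟨l, fun v hv hlv => ?_⟩
  obtain ⟨t, ht⟩ := hk ⟨v, hv⟩
  have ht' : t • (k : E) = v := congrArg Subtype.val ht
  rw [← ht', map_smul, smul_eq_mul] at hlv
  rcases mul_eq_zero.1 hlv with h4 | h4
  · rw [← ht', h4, zero_smul]
  · exact absurd h4 hl

private theorem Prod_bij {E F : Type*} [NormedAddCommGroup E] [NormedSpace ℂ E] [FiniteDimensional ℂ E]
    [NormedAddCommGroup F] [NormedSpace ℂ F] [FiniteDimensional ℂ F] (L : E →L[ℝ] F)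
    (hL : Function.Injective L) (hd : Module.finrank ℂ E = Module.finrank ℂ F) :
    Function.Bijective L := by
  have h1 : Module.finrank ℝ E = Module.finrank ℝ F := by
    rw [finrank_real_of_complex, finrank_real_of_complex, hd]
  exact ⟨hL, (LinearMap.injective_iff_surjective_of_finrank_eq_finrank (f := (L : E →ₗ[ℝ] F)) h1).1 hL⟩

theorem exists_PC (h : CurveFib E F π) (x0 : X) :
    ∃ P : PC E F π, P.c = π x0 ∧ x0 ∈ P.Ψ '' P.O := by
  have hπ := h.hol
  set c : B := π x0 with hc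
  set e := chartAt E x0 with he
  set y0 : E := e x0 with hy0
  have hy0t : y0 ∈ e.target := mem_chart_target E x0
  have hsy0 : e.symm y0 = x0 := e.left_inv (mem_chart_source E x0)
  -- the derivative at the centre and the linear form
  obtain ⟨l, hl⟩ := Prod_form (E := E) (F := F) (mfderiv 𝓘(ℂ, E) 𝓘(ℂ, F) π x0) (h.subm x0) h.dim
  -- the inverse chart
  set θ : E → F × ℂ := fun y => (chartAt F c (π (e.symm y)), l y) with hθ
  set OE : Set E := e.target ∩ e.symm ⁻¹' (π ⁻¹' (chartAt F c).source) with hOE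
  have hOEo : IsOpen OE :=
    e.symm.isOpen_inter_preimage ((chartAt F c).open_source.preimage hπ.continuous)
  have hy0O : y0 ∈ OE := by
    refine ⟨hy0t, ?_⟩
    show π (e.symm y0) ∈ (chartAt F c).source
    rw [hsy0]
    exact mem_chart_source F c
  have hcd : ∀ y ∈ OE, ContDiffAt ℂ ∞ (chartAt F c ∘ (π ∘ e.symm)) y := by
    intro y hy
    have h1 : Hol F (π ∘ e.symm) y := holo_comp hπ (hol_symm hy.1)
    exact (hol_iff h1.1 hy.2).1 h1
  have hθd : ∀ y ∈ OE, ContDiffAt ℂ ∞ θ y := fun y hy => (hcd y hy).prodMk l.contDiff.contDiffAt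
  have hθh : ∀ y ∈ OE, Hol (F × ℂ) θ y := fun y hy => ⟨(hθd y hy).continuousAt, hθd y hy⟩
  have hdim : Module.finrank ℂ E = Module.finrank ℂ (F × ℂ) := by
    rw [h.dim, Module.finrank_prod, Module.finrank_self]
  have hθb : Function.Bijective (dvec (F × ℂ) θ y0) := by
    refine Prod_bij _ ?_ hdim
    rw [injective_iff_map_eq_zero]
    intro v hv
    have h1 : dvec (F × ℂ) θ y0 = fderiv ℝ θ y0 := rfl
    have h2 : fderiv ℝ θ y0 = (fderiv ℝ (chartAt F c ∘ (π ∘ e.symm)) y0).prod (fderiv ℝ l y0) :=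
      DifferentiableAt.fderiv_prodMk
        (((hcd y0 hy0O).differentiableAt (by simp)).restrictScalars ℝ)
        (l.differentiableAt.restrictScalars ℝ)
    rw [h1, h2] at hv
    have h3 : fderiv ℝ (chartAt F c ∘ (π ∘ e.symm)) y0 v = 0 := congrArg Prod.fst hv
    have h4 : fderiv ℝ l y0 v = 0 := congrArg Prod.snd hv
    have h5 : dmap E F π x0 v = 0 := h3
    rw [dmap_eq hπ] at h5
    have h6 : fderiv ℝ (l : E → ℂ) y0 = (fderiv ℂ l y0).restrictScalars ℝ :=
      l.differentiableAt.fderiv_restrictScalars ℝ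
    rw [h6, l.fderiv] at h4
    exact hl v h5 h4
  obtain ⟨W, k, hW, hyW, -, hk0, hk⟩ := hol_inv (E := F × ℂ) (X := F × ℂ) (H := E) hOEo hθh hy0O hθb
    (p := θ y0) (mem_chart_source _ _)
  have hyW' : θ y0 ∈ W := hyW
  have hk0' : k (θ y0) = y0 := hk0
  have hkθ : ∀ q ∈ W, θ (k q) = q := fun q hq => (hk q hq).2.1
  refine ⟨{ c := c, O := W, Ψ := e.symm ∘ k, isOpen := hW
            hol := ?_, bij := ?_, inj := ?_, mem := ?_, proj := ?_ }, rfl, θ y0, hyW', ?_⟩
  · intro q hq
    exact (hol_symm (hk q hq).1.1).comp (hk q hq).2.2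
  · intro q hq
    have hkd : DifferentiableAt ℝ k q := ((hk q hq).2.2.differentiableAt (by simp)).restrictScalars ℝ
    have h1 : dvec E (e.symm ∘ k) q = (dvec E e.symm (k q)).comp (fderiv ℝ k q) :=
      dvec_comp (hol_symm (hk q hq).1.1).sm hkd
    have h2 : Function.Bijective (fderiv ℝ k q) := by
      refine Prod_bij _ ?_ hdim.symm
      rw [injective_iff_map_eq_zero]
      intro v hv
      have hθk : θ ∘ k =ᶠ[nhds q] id := by
        filter_upwards [hW.mem_nhds hq] with q' hq'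
        exact hkθ q' hq'
      have h3 : fderiv ℝ (θ ∘ k) q = (fderiv ℝ θ (k q)).comp (fderiv ℝ k q) :=
        fderiv_comp q (((hθd _ (hk q hq).1).differentiableAt (by simp)).restrictScalars ℝ) hkd
      rw [hθk.fderiv_eq, fderiv_id] at h3
      have h4 := DFunLike.congr_fun h3 v
      rw [ContinuousLinearMap.comp_apply, hv, map_zero] at h4
      exact h4
    rw [h1]
    exact (dvec_symm_bij (hk q hq).1.1).comp h2
  · intro q hq q' hq' hqq
    have h1 : k q = k q' := e.symm.injOn (hk q hq).1.1 (hk q' hq').1.1 hqq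
    rw [← hkθ q hq, ← hkθ q' hq', h1]
  · intro q hq
    have h1 := (chartAt F c).map_source (hk q hq).1.2
    have h2 : chartAt F c (π (e.symm (k q))) = q.1 := congrArg Prod.fst (hkθ q hq)
    rw [h2] at h1
    exact h1
  · intro q hq
    have h2 : chartAt F c (π (e.symm (k q))) = q.1 := congrArg Prod.fst (hkθ q hq)
    rw [← h2]
    exact ((chartAt F c).left_inv (hk q hq).1.2).symm
  · show e.symm (k (θ y0)) = x0
    rw [hk0', hsy0]

end Pool.Agent.FBR
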