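import Pool.Agent.FBR.Ddc

/-!
# FBR/Bump: a radial bump function on `ℂ`, strictly subharmonic on an annulus

PROOF PLAN.  `κ w = expNegInvGlue ((ρ ^ 2 - ‖w - w0‖ ^ 2) / A)`, `A = 4 ρ ^ 4 / ε ^ 2` (so `κ = exp (- A / (ρ ^ 2 - t))`, `t = ‖w - w0‖ ^ 2 = (re) ^ 2 + (im) ^ 2`, for
`t < ρ ^ 2`, and `0` for `t ≥ ρ ^ 2`); smooth (`expNegInvGlue.contDiff`).  `ddc κ w 1 I = (κ_xx + κ_yy) / 2` (`ddc_self`), and for `κ = f(t)`:
`κ_xx + κ_yy = 4 (t f'' + f') = 4 f A / (ρ² - t)⁴ * (t A - 2 t (ρ² - t) - (ρ² - t)²) > 0` for `ε² ≤ t < ρ²`, since `t A ≥ 4 ρ⁴`.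
For `t > ρ²`, `κ = 0` near `w`, so `ddc κ w = 0`; for `t = ρ²` use the continuity of `ddc κ` (limit of points with `t > ρ²`).
-/

set_option autoImplicit false

noncomputable section

open scoped ContDiff

namespace Pool.Agent.FBR

private theorem Bump_chain {h : ℝ → ℝ} {r : ℂ → ℝ} (hh : ContDiff ℝ ∞ h) (hr : ContDiff ℝ ∞ r)
    (w a b : ℂ) :
    fderiv ℝ (fderiv ℝ (fun x => h (r x))) w a b =
      deriv (deriv h) (r w) * fderiv ℝ r w a * fderiv ℝ r w b +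
        deriv h (r w) * fderiv ℝ (fderiv ℝ r) w a b := by
  have hh1 : ContDiff ℝ ∞ (deriv h) := by
    have := (contDiff_infty_iff_deriv.1 hh).2
    exact this
  have hr1 : ContDiff ℝ ∞ (fderiv ℝ r) := hr.fderiv_right (by norm_num)
  have hd : ∀ x, HasDerivAt h (deriv h x) x := fun x =>
    (hh.differentiable (by norm_num) x).hasDerivAt
  have hd1 : ∀ x, HasDerivAt (deriv h) (deriv (deriv h) x) x := fun x =>
    (hh1.differentiable (by norm_num) x).hasDerivAt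
  have hrd : ∀ x, HasFDerivAt r (fderiv ℝ r x) x := fun x =>
    (hr.differentiable (by norm_num) x).hasFDerivAt
  have hrd1 : ∀ x, HasFDerivAt (fderiv ℝ r) (fderiv ℝ (fderiv ℝ r) x) x := fun x =>
    (hr1.differentiable (by norm_num) x).hasFDerivAt
  have h1 : fderiv ℝ (fun x => h (r x)) = fun x => deriv h (r x) • fderiv ℝ r x := by
    funext x
    exact ((hd (r x)).comp_hasFDerivAt x (hrd x)).fderiv
  rw [h1]
  have h2 := ((hd1 (r w)).comp_hasFDerivAt w (hrd w)).smul (hrd1 w)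
  have h3 : HasFDerivAt (fun x => deriv h (r x) • fderiv ℝ r x) _ w := h2
  rw [h3.fderiv]
  simp only [add_apply, smul_apply, ContinuousLinearMap.smulRight_apply, smul_eq_mul,
    Function.comp_apply]
  ring

private theorem Bump_r (w0 : ℂ) (ρ : ℝ) (w a : ℂ) :
    fderiv ℝ (fun x => ρ ^ 2 - ‖x - w0‖ ^ 2) w a = -(2 * inner ℝ (w - w0) a) ∧
      ∀ b, fderiv ℝ (fderiv ℝ (fun x => ρ ^ 2 - ‖x - w0‖ ^ 2)) w a b = -(2 * inner ℝ a b) := by
  have h1 : ∀ x : ℂ, HasFDerivAt (fun x : ℂ => ρ ^ 2 - ‖x - w0‖ ^ 2)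
      (-((2 : ℝ) • innerSL ℝ (x - w0))) x := by
    intro x
    have h2 := (((hasFDerivAt_id x).sub_const w0).norm_sq).const_sub (ρ ^ 2)
    refine h2.congr_fderiv ?_
    ext v
    simp
  have h2 : fderiv ℝ (fun x : ℂ => ρ ^ 2 - ‖x - w0‖ ^ 2) =
      fun x => -((2 : ℝ) • innerSL ℝ (x - w0)) := by
    funext x
    exact (h1 x).fderiv
  refine ⟨?_, ?_⟩
  · rw [h2]
    simp
    ring
  · intro b
    rw [h2]
    have h3 : HasFDerivAt (fun x : ℂ => -((2 : ℝ) • innerSL ℝ (x - w0)))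
        (-((2 : ℝ) • (innerSL ℝ : ℂ →L[ℝ] ℂ →L[ℝ] ℝ))) w := by
      have h4 := (((innerSL ℝ : ℂ →L[ℝ] ℂ →L[ℝ] ℝ).hasFDerivAt (x := w - w0)).comp w
        ((hasFDerivAt_id w).sub_const w0)).const_smul (2 : ℝ)
      exact h4.neg
    rw [h3.fderiv]
    simp only [neg_apply, smul_apply, smul_eq_mul]
    rfl

/-- the profile `exp (- A / s)` -/
private def Bump_k (A s : ℝ) : ℝ := expNegInvGlue (s / A)

private theorem Bump_k_smooth (A : ℝ) : ContDiff ℝ ∞ (Bump_k A) := by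
  unfold Bump_k
  exact expNegInvGlue.contDiff.comp (contDiff_id.div_const A)

private theorem Bump_k_pos {A : ℝ} (hA : 0 < A) {s : ℝ} (hs : 0 < s) :
    deriv (Bump_k A) s = Real.exp (-(A / s)) * (A / s ^ 2) ∧
      deriv (deriv (Bump_k A)) s =
        Real.exp (-(A / s)) * (A / s ^ 2) ^ 2 - Real.exp (-(A / s)) * (2 * A / s ^ 3) := by
  have h0 : ∀ s : ℝ, 0 < s → HasDerivAt (fun s => Real.exp (-(A / s)))
      (Real.exp (-(A / s)) * (A / s ^ 2)) s := by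
    intro s hs
    have h1 : HasDerivAt (fun s : ℝ => -(A / s)) (A / s ^ 2) s := by
      have h2 := ((hasDerivAt_inv hs.ne').const_mul A).neg
      have h3 : HasDerivAt (fun s : ℝ => -(A / s)) (-(A * -(s ^ 2)⁻¹)) s := h2
      rw [show A / s ^ 2 = -(A * -(s ^ 2)⁻¹) by rw [mul_neg, neg_neg, div_eq_mul_inv]]
      exact h3
    exact h1.exp
  have h1 : ∀ s : ℝ, 0 < s → deriv (Bump_k A) s = Real.exp (-(A / s)) * (A / s ^ 2) := by
    intro s hs
    have h2 : Bump_k A =ᶠ[nhds s] fun s => Real.exp (-(A / s)) := by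
      filter_upwards [lt_mem_nhds hs] with t ht
      unfold Bump_k expNegInvGlue
      rw [if_neg (not_le.2 (div_pos ht hA)), inv_div]
    rw [h2.deriv_eq]
    exact (h0 s hs).deriv
  refine ⟨h1 s hs, ?_⟩
  have h2 : deriv (Bump_k A) =ᶠ[nhds s] fun s => Real.exp (-(A / s)) * (A / s ^ 2) := by
    filter_upwards [lt_mem_nhds hs] with t ht
    exact h1 t ht
  rw [h2.deriv_eq]
  have h3 : HasDerivAt (fun s : ℝ => A / s ^ 2) (-(2 * A / s ^ 3)) s := by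
    have h4 := ((hasDerivAt_pow 2 s).inv (pow_ne_zero 2 hs.ne')).const_mul A
    have h5 : HasDerivAt (fun s : ℝ => A / s ^ 2)
        (A * (-(((2 : ℕ) : ℝ) * s ^ (2 - 1)) / (s ^ 2) ^ 2)) s := h4
    rw [show -(2 * A / s ^ 3) = A * (-(((2 : ℕ) : ℝ) * s ^ (2 - 1)) / (s ^ 2) ^ 2) by
      field_simp
      push_cast
      ring]
    exact h5
  have h4 := (h0 s hs).mul h3
  have h5 : HasDerivAt (fun s : ℝ => Real.exp (-(A / s)) * (A / s ^ 2)) _ s := h4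
  rw [h5.deriv]
  ring

private theorem Bump_k_nonpos {A : ℝ} (hA : 0 < A) {s : ℝ} (hs : s ≤ 0) :
    deriv (Bump_k A) s = 0 ∧ deriv (deriv (Bump_k A)) s = 0 := by
  have hh := Bump_k_smooth A
  have hh1 : ContDiff ℝ ∞ (deriv (Bump_k A)) := (contDiff_infty_iff_deriv.1 hh).2
  have hh2 : ContDiff ℝ ∞ (deriv (deriv (Bump_k A))) := (contDiff_infty_iff_deriv.1 hh1).2
  have key : ∀ f : ℝ → ℝ, Continuous f → (∀ t < 0, f t = 0) → ∀ t ≤ 0, f t = 0 := by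
    intro f hf h0 t ht
    have h1 : IsClosed {t | f t = 0} := isClosed_eq hf continuous_const
    have h2 : closure (Set.Iio (0 : ℝ)) ⊆ {t | f t = 0} := h1.closure_subset_iff.2 fun t ht => h0 t ht
    rw [closure_Iio] at h2
    exact h2 ht
  have h1 : ∀ t < 0, deriv (Bump_k A) t = 0 := by
    intro t ht
    have h2 : Bump_k A =ᶠ[nhds t] fun _ => (0 : ℝ) := by
      filter_upwards [gt_mem_nhds ht] with u hu
      unfold Bump_k
      exact expNegInvGlue.zero_of_nonpos (div_nonpos_of_nonpos_of_nonneg hu.le hA.le)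
    rw [h2.deriv_eq]
    exact deriv_const t 0
  have h2 : ∀ t < 0, deriv (deriv (Bump_k A)) t = 0 := by
    intro t ht
    have h3 : deriv (Bump_k A) =ᶠ[nhds t] fun _ => (0 : ℝ) := by
      filter_upwards [gt_mem_nhds ht] with u hu
      exact h1 u hu
    rw [h3.deriv_eq]
    exact deriv_const t 0
  exact ⟨key _ hh1.continuous h1 s hs, key _ hh2.continuous h2 s hs⟩

theorem exists_kappa {ε ρ : ℝ} (hε : 0 < ε) (hρ : ε < ρ) (w0 : ℂ) :
    ∃ κ : ℂ → ℝ, ContDiff ℝ ∞ κ ∧ tsupport κ ⊆ Metric.closedBall w0 ρ ∧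
      (∀ w, ε ≤ ‖w - w0‖ → 0 ≤ ddc κ w 1 (Complex.I • (1 : ℂ))) ∧
      ∀ w, ε ≤ ‖w - w0‖ → ‖w - w0‖ < ρ → 0 < ddc κ w 1 (Complex.I • (1 : ℂ)) := by
  have hρ0 : 0 < ρ := hε.trans hρ
  set A : ℝ := 4 * ρ ^ 4 / ε ^ 2 with hAd
  have hA : 0 < A := by positivity
  have hr : ContDiff ℝ ∞ (fun x : ℂ => ρ ^ 2 - ‖x - w0‖ ^ 2) :=
    contDiff_const.sub ((contDiff_id.sub contDiff_const).norm_sq ℝ)
  have hform : ∀ w : ℂ, ddc (fun x : ℂ => Bump_k A (ρ ^ 2 - ‖x - w0‖ ^ 2)) w 1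
      (Complex.I • (1 : ℂ)) = 2 * (‖w - w0‖ ^ 2 * deriv (deriv (Bump_k A)) (ρ ^ 2 - ‖w - w0‖ ^ 2) -
        deriv (Bump_k A) (ρ ^ 2 - ‖w - w0‖ ^ 2)) := by
    intro w
    rw [ddc_self, Bump_chain (Bump_k_smooth A) hr, Bump_chain (Bump_k_smooth A) hr,
      (Bump_r w0 ρ w _).1, (Bump_r w0 ρ w _).1, (Bump_r w0 ρ w _).2, (Bump_r w0 ρ w _).2]
    have h1 : ‖w - w0‖ ^ 2 = (w - w0).re ^ 2 + (w - w0).im ^ 2 := by
      rw [Complex.sq_norm, Complex.normSq_apply]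
      ring
    have h2 : inner ℝ (w - w0) (1 : ℂ) = (w - w0).re := by simp
    have h3 : inner ℝ (w - w0) (Complex.I • (1 : ℂ)) = (w - w0).im := by
      simp
      ring
    have h4 : inner ℝ (1 : ℂ) (1 : ℂ) = (1 : ℝ) := by simp
    have h5 : inner ℝ (Complex.I • (1 : ℂ)) (Complex.I • (1 : ℂ)) = (1 : ℝ) := by simp
    rw [h2, h3, h4, h5, h1]
    ring
  have hposs : ∀ w, ε ≤ ‖w - w0‖ → ‖w - w0‖ < ρ → 0 < ddc (fun x : ℂ =>
      Bump_k A (ρ ^ 2 - ‖x - w0‖ ^ 2)) w 1 (Complex.I • (1 : ℂ)) := by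
    intro w hw hwρ
    rw [hform w]
    obtain ⟨t, ht⟩ : ∃ t : ℝ, t = ‖w - w0‖ ^ 2 := ⟨_, rfl⟩
    have ht1 : ε ^ 2 ≤ t := by
      rw [ht]
      exact pow_le_pow_left₀ hε.le hw 2
    have ht2 : t < ρ ^ 2 := by
      rw [ht]
      exact pow_lt_pow_left₀ hwρ (norm_nonneg _) two_ne_zero
    rw [← ht]
    have hs : 0 < ρ ^ 2 - t := by linarith
    obtain ⟨s, hsd⟩ : ∃ s : ℝ, s = ρ ^ 2 - t := ⟨_, rfl⟩
    rw [← hsd] at hs ⊢
    rw [(Bump_k_pos hA hs).1, (Bump_k_pos hA hs).2]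
    have he := Real.exp_pos (-(A / s))
    have h1 : t * (Real.exp (-(A / s)) * (A / s ^ 2) ^ 2 - Real.exp (-(A / s)) * (2 * A / s ^ 3)) -
        Real.exp (-(A / s)) * (A / s ^ 2) =
        Real.exp (-(A / s)) * A / s ^ 4 * (t * A - (2 * t * s + s ^ 2)) := by
      field_simp
      ring
    rw [h1]
    have h2 : 4 * ρ ^ 4 ≤ t * A := by
      have h3 : ε ^ 2 * A = 4 * ρ ^ 4 := by
        rw [hAd]
        field_simp
      calc 4 * ρ ^ 4 = ε ^ 2 * A := h3.symm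
        _ ≤ t * A := mul_le_mul_of_nonneg_right ht1 hA.le
    have h4 : 2 * t * s + s ^ 2 = ρ ^ 4 - t ^ 2 := by
      rw [hsd]
      ring
    have h5 : 0 < ρ ^ 4 := by positivity
    have h6 : 0 < t * A - (2 * t * s + s ^ 2) := by
      rw [h4]
      nlinarith [sq_nonneg t]
    have h7 : 0 < Real.exp (-(A / s)) * A / s ^ 4 := by positivity
    have h8 := mul_pos h7 h6
    linarith
  refine ⟨fun x => Bump_k A (ρ ^ 2 - ‖x - w0‖ ^ 2), (Bump_k_smooth A).comp hr, ?_, ?_, hposs⟩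
  · refine closure_minimal ?_ Metric.isClosed_closedBall
    intro w hw
    rw [Function.mem_support] at hw
    rw [Metric.mem_closedBall, dist_eq_norm]
    by_contra h
    push Not at h
    apply hw
    unfold Bump_k
    apply expNegInvGlue.zero_of_nonpos
    apply div_nonpos_of_nonpos_of_nonneg _ hA.le
    have h1 : ρ ^ 2 < ‖w - w0‖ ^ 2 := pow_lt_pow_left₀ h hρ0.le two_ne_zero
    linarith
  · intro w hw
    rcases lt_or_ge ‖w - w0‖ ρ with h | h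
    · exact (hposs w hw h).le
    · rw [hform w]
      have h1 : ρ ^ 2 ≤ ‖w - w0‖ ^ 2 := pow_le_pow_left₀ hρ0.le h 2
      have h2 := Bump_k_nonpos hA (s := ρ ^ 2 - ‖w - w0‖ ^ 2) (by linarith)
      rw [h2.1, h2.2]
      simp

end Pool.Agent.FBR
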