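import Pool.Agent.FBR.CDefs

/-!
# FBR: fibre integrals on curve fibrations (definitions)
-/

set_option autoImplicit false

noncomputable section

open scoped Manifold ContDiff Classical

open MeasureTheory

namespace Pool.Agent.FBR

variable {E F X B : Type*} [NormedAddCommGroup E] [NormedSpace ℂ E] [TopologicalSpace X]
  [ChartedSpace E X] [NormedAddCommGroup F] [NormedSpace ℂ F] [TopologicalSpace B]
  [ChartedSpace F B] {π : X → B}

/-- the cut off vertical part of `β` in a product chart -/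
def Fi (P : PC E F π) (χ : X → ℝ) (β : Form E X) : F × ℂ → ℝ :=
  P.O.indicator fun q => χ (P.Ψ q) • tpb β.val P.Ψ q (0, 1) (0, Complex.I)

/-- the cut off coefficients of `β ∧ β / 2` in a product chart -/
def Gi (P : PC E F π) (χ : X → ℝ) (β : Form E X) : F × ℂ → Bil F :=
  P.O.indicator fun q => χ (P.Ψ q) • A4F (tpb β.val P.Ψ q)

/-- `∫_{fibre} β` -/
def fvol (d : FD E F π) (β : Form E X) (b : B) : ℝ :=
  ∑ i, fi (d.P i) (fun x ξ => d.χ i x * β.val x ξ (Complex.I • ξ)) b

/-- `π_* (β ∧ β / 2)` -/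
def hb (d : FD E F π) (β : Form E X) (b : B) : Bil F :=
  ∑ i, extT (d.P i).c (J (Gi (d.P i) (d.χ i) β)) b

end Pool.Agent.FBR
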