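import Pool.Agent.FBR.Loc

/-!
# FBR: fibre spaces with curves as fibres (definitions)
-/

set_option autoImplicit false

noncomputable section

open scoped Manifold ContDiff Classical

open MeasureTheory

namespace Pool.Agent.FBR

section Maps

variable (E F : Type*) {X B : Type*} [NormedAddCommGroup E] [NormedSpace ℂ E] [TopologicalSpace X]
  [ChartedSpace E X] [NormedAddCommGroup F] [NormedSpace ℂ F] [TopologicalSpace B]
  [ChartedSpace F B]

/-- A product chart of `π : X → B`: a biholomorphic parametrization `Ψ` of an open subset of `X` by an open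
subset `O` of `F × ℂ`; the first component is the coordinate of the point of the base in the chart at `c`. -/
structure PC (π : X → B) where
  c : B
  O : Set (F × ℂ)
  Ψ : F × ℂ → X
  isOpen : IsOpen O
  hol : ∀ q ∈ O, Hol E Ψ q
  bij : ∀ q ∈ O, Function.Bijective (dvec E Ψ q)
  inj : Set.InjOn Ψ O
  mem : ∀ q ∈ O, q.1 ∈ (chartAt F c).target
  proj : ∀ q ∈ O, π (Ψ q) = (chartAt F c).symm q.1

/-- Finitely many product charts with a subordinate partition of unity. -/
structure FD (π : X → B) where
  n : ℕ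
  P : Fin n → PC E F π
  χ : Fin n → X → ℝ
  sm : ∀ i, SmF E (χ i)
  nonneg : ∀ i x, 0 ≤ χ i x
  supp : ∀ i, tsupport (χ i) ⊆ (P i).Ψ '' (P i).O
  sum : ∀ x, ∑ i, χ i x = 1

/-- The change of charts at `b`: from the preferred chart at `b` to the chart at `c`. -/
def tc (c b : B) : F →L[ℝ] F :=
  fderiv ℝ (chartAt F c ∘ (chartAt F b).symm) (chartAt F b b)

variable {E F}

/-- The integral of the vertical density `D` over the part of the fibre over `b` which is in the image of the
product chart `P`.  A vertical density is given by `D x ξ`, `ξ` a vertical tangent vector at `x`, and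
`D x (r • ξ) = |r| ^ 2 * D x ξ` for `r : ℂ`. -/
def fi {π : X → B} (P : PC E F π) (D : X → E → ℝ) (b : B) : ℝ :=
  if b ∈ (chartAt F P.c).source then
    ∫ w : ℂ, P.O.indicator (fun q => D (P.Ψ q) (dvec E P.Ψ q (0, 1))) (chartAt F P.c b, w)
  else 0

variable (F) in
/-- The density `D` is continuous along the fibre over `b`. -/
def VCont (π : X → B) (D : X → E → ℝ) (b : B) : Prop :=
  ∀ P : PC E F π, b ∈ (chartAt F P.c).source → ∀ w : ℂ, (chartAt F P.c b, w) ∈ P.O →
    ContinuousAt (fun w' : ℂ => D (P.Ψ (chartAt F P.c b, w')) (dvec E P.Ψ (chartAt F P.c b, w') (0, 1))) w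

/-- extension by zero of a function on the chart at `c` -/
def extF {V : Type*} [Zero V] (c : B) (f : F → V) (b : B) : V :=
  if b ∈ (chartAt F c).source then f (chartAt F c b) else 0

/-- extension by zero of a tensor on the chart at `c` -/
def extT (c : B) (f : F → Bil F) (b : B) : Bil F :=
  if b ∈ (chartAt F c).source then (f (chartAt F c b)).bilinearComp (tc F c b) (tc F c b) else 0

end Maps

section Alg

variable {G : Type*} [NormedAddCommGroup G] [NormedSpace ℝ G]
  {F : Type*} [NormedAddCommGroup F] [NormedSpace ℂ F]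
  {V : Type*} [NormedAddCommGroup V] [NormedSpace ℝ V]

/-- integration over the fibres of `G × ℂ → G` -/
def J (f : G × ℂ → V) (y : G) : V := ∫ w : ℂ, f (y, w)

/-- `(a ∧ a) / 2` -/
def A4 (a : Bil G) (u v s t : G) : ℝ := a u v * a s t - a u s * a v t + a u t * a v s

/-- `l ∧ a` -/
def Z3 (l : G →L[ℝ] ℝ) (a : Bil G) (u s t : G) : ℝ := l u * a s t - l s * a u t + l t * a u s

/-- `l ∧ (a ∧ a) / 2` -/
def Z5 (l : G →L[ℝ] ℝ) (a : Bil G) (u v w s t : G) : ℝ :=
  l u * A4 a v w s t - l v * A4 a u w s t + l w * A4 a u v s t - l s * A4 a u v w t + l t * A4 a u v w s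

/-- The 2-form `(u, v) ↦ ((a ∧ a) / 2) (u, v, 1, i)` on `F`, for a 2-form `a` on `F × ℂ`. -/
def A4F (a : Bil (F × ℂ)) : Bil F :=
  (a (0, 1) (0, Complex.I)) • a.bilinearComp (ContinuousLinearMap.inl ℝ F ℂ) (ContinuousLinearMap.inl ℝ F ℂ)
    - ((a.flip (0, 1)).comp (ContinuousLinearMap.inl ℝ F ℂ)).smulRight
        ((a.flip (0, Complex.I)).comp (ContinuousLinearMap.inl ℝ F ℂ))
    + ((a.flip (0, Complex.I)).comp (ContinuousLinearMap.inl ℝ F ℂ)).smulRight
        ((a.flip (0, 1)).comp (ContinuousLinearMap.inl ℝ F ℂ))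

end Alg

end Pool.Agent.FBR
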