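import Pool.Agent.FBR.Loc

/-!
# FBR/Chg: changes of charts, chain rule

PROOF PLAN.  The transition maps `chartAt E p ∘ (chartAt E p').symm` are analytic
(`contDiffOn` from `IsManifold 𝓘(ℂ, E) ω X`: `contDiffGroupoid`, `StructureGroupoid.compatible`,
or `contDiffOn_extend_coord_change` / `contDiffOn_ext_coord_change`); a complex `ContDiffAt` is a
real one (`ContDiffAt.restrict_scalars`).  Everything else is `EventuallyEq` + the chain rule:
near `q`, `chartAt E p ∘ f = (chartAt E p ∘ (chartAt E (f q)).symm) ∘ (chartAt E (f q) ∘ f)`, because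
`f` is continuous at `q` and the source of the chart is open.
`holo_comp`: near `g q`, `f = (chartAt F (f (g q))).symm ∘ (written in charts) ∘ chartAt E (g q)`,
and `chartAt F (f x) ∘ f ∘ (chartAt E x).symm` is `ContDiffAt ℂ ω` at `chartAt E x x`
(`contMDiffAt_iff`, `extChartAt` of `𝓘(ℂ, E)` is `chartAt`; `range 𝓘(ℂ, E) = univ`).
`dmap_eq`: `mfderiv` is by definition the `fderivWithin` of this map; `fderiv ℝ = restrictScalars (fderiv ℂ)`
(`DifferentiableAt.fderiv_restrictScalars`).
-/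

set_option autoImplicit false

noncomputable section

open scoped Manifold ContDiff

namespace Pool.Agent.FBR

variable {E X : Type*} [NormedAddCommGroup E] [NormedSpace ℂ E] [TopologicalSpace X]
  [ChartedSpace E X] [IsManifold 𝓘(ℂ, E) ω X]
  {G : Type*} [NormedAddCommGroup G] [NormedSpace ℝ G]
  {G' : Type*} [NormedAddCommGroup G'] [NormedSpace ℝ G']
  {H : Type*} [NormedAddCommGroup H] [NormedSpace ℂ H]
  {H' : Type*} [NormedAddCommGroup H'] [NormedSpace ℂ H']
  {F B : Type*} [NormedAddCommGroup F] [NormedSpace ℂ F] [TopologicalSpace B]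
  [ChartedSpace F B] [IsManifold 𝓘(ℂ, F) ω B]

/-- the transition maps are analytic -/
private theorem Chg_trans {p p' : X} {y : E} (hy : y ∈ (chartAt E p').target)
    (hp : (chartAt E p').symm y ∈ (chartAt E p).source) :
    ContDiffAt ℂ ω (chartAt E p ∘ (chartAt E p').symm) y := by
  have h := contDiffWithinAt_ext_coord_change (I := 𝓘(ℂ, E)) (n := ω) p p' (y := y)
    (by simp [hy, hp])
  simpa [contDiffWithinAt_univ] using h

omit [IsManifold 𝓘(ℂ, E) ω X] in
/-- near `q`, the change of charts -/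
private theorem Chg_ev {G : Type*} [TopologicalSpace G] {f : G → X} {q : G} (p p' : X)
    (hc : ContinuousAt f q) (hp' : f q ∈ (chartAt E p').source) :
    chartAt E p ∘ f =ᶠ[nhds q]
      (chartAt E p ∘ (chartAt E p').symm) ∘ (chartAt E p' ∘ f) := by
  have h : ∀ᶠ z in nhds q, f z ∈ (chartAt E p').source :=
    hc.eventually ((chartAt E p').open_source.mem_nhds hp')
  filter_upwards [h] with z hz
  simp [Function.comp, (chartAt E p').left_inv hz]

private theorem Chg_transR {p p' : X} {y : E} (hy : y ∈ (chartAt E p').target)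
    (hp : (chartAt E p').symm y ∈ (chartAt E p).source) :
    ContDiffAt ℝ ω (chartAt E p ∘ (chartAt E p').symm) y :=
  (Chg_trans hy hp).restrict_scalars ℝ

omit [IsManifold 𝓘(ℂ, E) ω X] in
theorem Hol.sm {f : H → X} {q : H} (h : Hol E f q) : Sm E f q :=
  ⟨h.1, h.2.restrict_scalars ℝ⟩

private theorem Chg_smTo {f : G → X} {q : G} {p p' : X} (hc : ContinuousAt f q)
    (hp : f q ∈ (chartAt E p).source) (hp' : f q ∈ (chartAt E p').source)
    (h : ContDiffAt ℝ ∞ (chartAt E p' ∘ f) q) : ContDiffAt ℝ ∞ (chartAt E p ∘ f) q := by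
  refine ContDiffAt.congr_of_eventuallyEq ?_ (Chg_ev p p' hc hp')
  refine ContDiffAt.comp q ?_ h
  have := Chg_transR (p := p) (p' := p') (y := (chartAt E p' ∘ f) q)
    ((chartAt E p').map_source hp') (by simpa [(chartAt E p').left_inv hp'] using hp)
  exact this.of_le le_top

private theorem Chg_holTo {f : H → X} {q : H} {p p' : X} (hc : ContinuousAt f q)
    (hp : f q ∈ (chartAt E p).source) (hp' : f q ∈ (chartAt E p').source)
    (h : ContDiffAt ℂ ∞ (chartAt E p' ∘ f) q) : ContDiffAt ℂ ∞ (chartAt E p ∘ f) q := by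
  refine ContDiffAt.congr_of_eventuallyEq ?_ (Chg_ev p p' hc hp')
  refine ContDiffAt.comp q ?_ h
  have := Chg_trans (p := p) (p' := p') (y := (chartAt E p' ∘ f) q)
    ((chartAt E p').map_source hp') (by simpa [(chartAt E p').left_inv hp'] using hp)
  exact this.of_le le_top

theorem sm_iff {f : G → X} {q : G} {p : X} (hc : ContinuousAt f q) (hp : f q ∈ (chartAt E p).source) :
    Sm E f q ↔ ContDiffAt ℝ ∞ (chartAt E p ∘ f) q :=
  ⟨fun h => Chg_smTo hc hp (mem_chart_source E (f q)) h.2,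
    fun h => ⟨hc, Chg_smTo hc (mem_chart_source E (f q)) hp h⟩⟩

theorem hol_iff {f : H → X} {q : H} {p : X} (hc : ContinuousAt f q) (hp : f q ∈ (chartAt E p).source) :
    Hol E f q ↔ ContDiffAt ℂ ∞ (chartAt E p ∘ f) q :=
  ⟨fun h => Chg_holTo hc hp (mem_chart_source E (f q)) h.2,
    fun h => ⟨hc, Chg_holTo hc (mem_chart_source E (f q)) hp h⟩⟩

omit [IsManifold 𝓘(ℂ, E) ω X] in
private theorem Chg_symm_ev {p : X} {y : E} (hy : y ∈ (chartAt E p).target) :
    chartAt E p ∘ (chartAt E p).symm =ᶠ[nhds y] id := by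
  filter_upwards [(chartAt E p).open_target.mem_nhds hy] with z hz
  simp [(chartAt E p).right_inv hz]

theorem hol_symm {p : X} {y : E} (hy : y ∈ (chartAt E p).target) : Hol E (chartAt E p).symm y := by
  rw [hol_iff (p := p) ((chartAt E p).continuousAt_symm hy) ((chartAt E p).map_target hy)]
  exact contDiffAt_id.congr_of_eventuallyEq (Chg_symm_ev hy)

theorem Sm.comp {f : G → X} {k : G' → G} {q : G'} (hf : Sm E f (k q)) (hk : ContDiffAt ℝ ∞ k q) :
    Sm E (f ∘ k) q :=
  ⟨ContinuousAt.comp hf.1 hk.continuousAt,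
    ContDiffAt.comp (g := chartAt E (f (k q)) ∘ f) (f := k) q hf.2 hk⟩

theorem Hol.comp {f : H → X} {k : H' → H} {q : H'} (hf : Hol E f (k q)) (hk : ContDiffAt ℂ ∞ k q) :
    Hol E (f ∘ k) q :=
  ⟨ContinuousAt.comp hf.1 hk.continuousAt,
    ContDiffAt.comp (g := chartAt E (f (k q)) ∘ f) (f := k) q hf.2 hk⟩

omit [IsManifold 𝓘(ℂ, E) ω X] [IsManifold 𝓘(ℂ, F) ω B] in
/-- `f` written in the charts at `x` and `f x` -/
private theorem Chg_wr {f : X → B} (hf : ContMDiff 𝓘(ℂ, E) 𝓘(ℂ, F) ω f) (x : X) :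
    ContDiffAt ℂ ω (chartAt F (f x) ∘ f ∘ (chartAt E x).symm) (chartAt E x x) := by
  have h := (contMDiffAt_iff.1 (hf x)).2
  simpa [contDiffWithinAt_univ] using h

omit [IsManifold 𝓘(ℂ, E) ω X] [IsManifold 𝓘(ℂ, F) ω B] in
private theorem Chg_wr_ev {G : Type*} [TopologicalSpace G] {f : X → B} {g : G → X} {q : G}
    (hg : ContinuousAt g q) :
    chartAt F (f (g q)) ∘ (f ∘ g) =ᶠ[nhds q]
      (chartAt F (f (g q)) ∘ f ∘ (chartAt E (g q)).symm) ∘ (chartAt E (g q) ∘ g) := by
  have h : ∀ᶠ z in nhds q, g z ∈ (chartAt E (g q)).source :=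
    hg.eventually ((chartAt E (g q)).open_source.mem_nhds (mem_chart_source E (g q)))
  filter_upwards [h] with z hz
  simp [Function.comp, (chartAt E (g q)).left_inv hz]

theorem holo_comp {f : X → B} (hf : ContMDiff 𝓘(ℂ, E) 𝓘(ℂ, F) ω f) {g : H → X} {q : H} (hg : Hol E g q) :
    Hol F (f ∘ g) q := by
  refine ⟨ContinuousAt.comp hf.continuous.continuousAt hg.1, ?_⟩
  refine ContDiffAt.congr_of_eventuallyEq ?_ (Chg_wr_ev (E := E) (F := F) (f := f) hg.1)
  exact ContDiffAt.comp q ((Chg_wr hf (g q)).of_le le_top) hg.2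

theorem sm_comp {f : X → B} (hf : ContMDiff 𝓘(ℂ, E) 𝓘(ℂ, F) ω f) {g : G → X} {q : G} (hg : Sm E g q) :
    Sm F (f ∘ g) q := by
  refine ⟨ContinuousAt.comp hf.continuous.continuousAt hg.1, ?_⟩
  refine ContDiffAt.congr_of_eventuallyEq ?_ (Chg_wr_ev (E := E) (F := F) (f := f) hg.1)
  exact ContDiffAt.comp q (((Chg_wr hf (g q)).restrict_scalars ℝ).of_le le_top) hg.2

private theorem Chg_fderiv_I {K : Type*} [NormedAddCommGroup K] [NormedSpace ℂ K] {h : H → K} {q : H}
    (hh : DifferentiableAt ℂ h q) (v : H) :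
    fderiv ℝ h q (Complex.I • v) = Complex.I • fderiv ℝ h q v := by
  rw [hh.fderiv_restrictScalars ℝ]
  simp

theorem Hol.smul_I {f : H → X} {q : H} (h : Hol E f q) (v : H) :
    dvec E f q (Complex.I • v) = Complex.I • dvec E f q v :=
  Chg_fderiv_I (h.2.differentiableAt (by simp)) v

/-- chain rule for `k` followed by `f : G → X` -/
theorem dvec_comp {f : G → X} {k : G' → G} {q : G'} (hf : Sm E f (k q)) (hk : DifferentiableAt ℝ k q) :
    dvec E (f ∘ k) q = (dvec E f (k q)).comp (fderiv ℝ k q) :=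
  fderiv_comp q (hf.2.differentiableAt (by simp)) hk

/-- chain rule for `g : G → X` followed by `f : X → B` -/
theorem dvec_holo {f : X → B} (hf : ContMDiff 𝓘(ℂ, E) 𝓘(ℂ, F) ω f) {g : G → X} {q : G} (hg : Sm E g q) :
    dvec F (f ∘ g) q = (dmap E F f (g q)).comp (dvec E g q) := by
  have h1 := (Chg_wr_ev (E := E) (F := F) (f := f) hg.1).fderiv_eq (𝕜 := ℝ)
  refine h1.trans ?_
  exact fderiv_comp q (((Chg_wr hf (g q)).restrict_scalars ℝ).differentiableAt (by simp))
    (hg.2.differentiableAt (by simp))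

/-- the derivative in the chart at `p` and in the preferred chart -/
theorem dvec_chart {f : G → X} {q : G} {p : X} (hf : Sm E f q) (hp : f q ∈ (chartAt E p).source) :
    fderiv ℝ (chartAt E p ∘ f) q =
      (fderiv ℝ (chartAt E p ∘ (chartAt E (f q)).symm) (chartAt E (f q) (f q))).comp (dvec E f q) := by
  have h1 := (Chg_ev (E := E) p (f q) hf.1 (mem_chart_source E (f q))).fderiv_eq (𝕜 := ℝ)
  refine h1.trans ?_
  refine fderiv_comp q ?_ (hf.2.differentiableAt (by simp))
  have := Chg_transR (p := p) (p' := f q) (y := (chartAt E (f q) ∘ f) q)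
    ((chartAt E (f q)).map_source (mem_chart_source E (f q)))
    (by simpa [(chartAt E (f q)).left_inv (mem_chart_source E (f q))] using hp)
  exact this.differentiableAt (by simp)

/-- the derivative in the preferred chart and in the chart at `p` -/
theorem dvec_chart' {f : G → X} {q : G} {p : X} (hf : Sm E f q) (hp : f q ∈ (chartAt E p).source) :
    dvec E f q = (dvec E (chartAt E p).symm (chartAt E p (f q))).comp (fderiv ℝ (chartAt E p ∘ f) q) := by
  have h0 : (chartAt E p).symm (chartAt E p (f q)) = f q := (chartAt E p).left_inv hp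
  have h1 := (Chg_ev (E := E) (f q) p hf.1 hp).fderiv_eq (𝕜 := ℝ)
  have h2 : dvec E (chartAt E p).symm (chartAt E p (f q)) =
      fderiv ℝ (chartAt E (f q) ∘ (chartAt E p).symm) ((chartAt E p ∘ f) q) := by
    unfold dvec
    rw [h0]
    rfl
  rw [h2]
  refine h1.trans ?_
  refine fderiv_comp q ?_ (((sm_iff hf.1 hp).1 hf).differentiableAt (by simp))
  have := Chg_transR (p := f q) (p' := p) (y := (chartAt E p ∘ f) q)
    ((chartAt E p).map_source hp)
    (by simp [h0])
  exact this.differentiableAt (by simp)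

omit [IsManifold 𝓘(ℂ, E) ω X] in
theorem dvec_symm_self (x : X) : dvec E (chartAt E x).symm (chartAt E x x) = ContinuousLinearMap.id ℝ E := by
  have h0 : (chartAt E x).symm (chartAt E x x) = x := (chartAt E x).left_inv (mem_chart_source E x)
  unfold dvec
  rw [h0]
  rw [(Chg_symm_ev (E := E) (p := x) (y := chartAt E x x) (mem_chart_target E x)).fderiv_eq]
  exact fderiv_id

theorem dvec_symm_bij {p : X} {y : E} (hy : y ∈ (chartAt E p).target) :
    Function.Bijective (dvec E (chartAt E p).symm y) := by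
  set x := (chartAt E p).symm y with hx
  have hxp : x ∈ (chartAt E p).source := (chartAt E p).map_target hy
  have hyx : chartAt E p x = y := (chartAt E p).right_inv hy
  have hA : dvec E (chartAt E p).symm y =
      fderiv ℝ (chartAt E x ∘ (chartAt E p).symm) y := rfl
  have hx0 : (chartAt E x).symm (chartAt E x x) = x := (chartAt E x).left_inv (mem_chart_source E x)
  have d1 : DifferentiableAt ℝ (chartAt E x ∘ (chartAt E p).symm) y :=
    (Chg_transR (p := x) (p' := p) (y := y) hy (mem_chart_source E x)).differentiableAt (by simp)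
  have d2 : DifferentiableAt ℝ (chartAt E p ∘ (chartAt E x).symm) (chartAt E x x) :=
    (Chg_transR (p := p) (p' := x) (y := chartAt E x x) (mem_chart_target E x)
      (by rw [hx0]; exact hxp)).differentiableAt (by simp)
  have c1 : (fderiv ℝ (chartAt E p ∘ (chartAt E x).symm) (chartAt E x x)).comp
      (fderiv ℝ (chartAt E x ∘ (chartAt E p).symm) y) = ContinuousLinearMap.id ℝ E := by
    have e : (chartAt E p ∘ (chartAt E x).symm) ∘ (chartAt E x ∘ (chartAt E p).symm)
        =ᶠ[nhds y] id :=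
      ((Chg_ev (E := E) p x ((chartAt E p).continuousAt_symm hy)
        (mem_chart_source E x)).symm).trans (Chg_symm_ev hy)
    have e2 := e.fderiv_eq (𝕜 := ℝ)
    rw [fderiv_id] at e2
    rw [← e2]
    exact (fderiv_comp y d2 d1).symm
  have c2 : (fderiv ℝ (chartAt E x ∘ (chartAt E p).symm) y).comp
      (fderiv ℝ (chartAt E p ∘ (chartAt E x).symm) (chartAt E x x)) = ContinuousLinearMap.id ℝ E := by
    have hy2 : (chartAt E p ∘ (chartAt E x).symm) (chartAt E x x) = y := by
      simp [hx0, hyx]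
    have e : (chartAt E x ∘ (chartAt E p).symm) ∘ (chartAt E p ∘ (chartAt E x).symm)
        =ᶠ[nhds (chartAt E x x)] id :=
      ((Chg_ev (E := E) x p ((chartAt E x).continuousAt_symm (mem_chart_target E x))
        (by rw [hx0]; exact hxp)).symm).trans (Chg_symm_ev (mem_chart_target E x))
    have e2 := e.fderiv_eq (𝕜 := ℝ)
    rw [fderiv_id] at e2
    rw [← e2]
    have d1' : DifferentiableAt ℝ (chartAt E x ∘ (chartAt E p).symm)
        ((chartAt E p ∘ (chartAt E x).symm) (chartAt E x x)) := by rw [hy2]; exact d1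
    have := fderiv_comp (𝕜 := ℝ) (chartAt E x x) d1' d2
    rw [hy2] at this
    exact this.symm
  rw [hA]
  constructor
  · intro u v huv
    have hu := DFunLike.congr_fun c1 u
    have hv := DFunLike.congr_fun c1 v
    simp only [ContinuousLinearMap.comp_apply, ContinuousLinearMap.id_apply] at hu hv
    rw [← hu, ← hv, huv]
  · intro w
    exact ⟨_, DFunLike.congr_fun c2 w⟩

private theorem Chg_dmap_fun {f : X → B} (hf : ContMDiff 𝓘(ℂ, E) 𝓘(ℂ, F) ω f) (x : X) :
    DifferentiableAt ℂ (chartAt F (f x) ∘ f ∘ (chartAt E x).symm) (chartAt E x x) :=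
  (Chg_wr hf x).differentiableAt (by simp)

theorem dmap_eq {f : X → B} (hf : ContMDiff 𝓘(ℂ, E) 𝓘(ℂ, F) ω f) (x : X) (v : E) :
    dmap E F f x v = mfderiv 𝓘(ℂ, E) 𝓘(ℂ, F) f x v := by
  have h1 : MDifferentiableAt 𝓘(ℂ, E) 𝓘(ℂ, F) f x := (hf x).mdifferentiableAt (by simp)
  unfold dmap
  rw [(Chg_dmap_fun hf x).fderiv_restrictScalars ℝ]
  unfold mfderiv
  rw [if_pos h1]
  simp [writtenInExtChartAt]
  rfl

theorem dmap_I {f : X → B} (hf : ContMDiff 𝓘(ℂ, E) 𝓘(ℂ, F) ω f) (x : X) (v : E) :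
    dmap E F f x (Complex.I • v) = Complex.I • dmap E F f x v :=
  Chg_fderiv_I (Chg_dmap_fun hf x) v

theorem mfderiv_vec {f : H → X} {q : H} (hf : Hol E f q) (v : H) :
    mfderiv 𝓘(ℂ, H) 𝓘(ℂ, E) f q v = dvec E f q v := by
  have hd : DifferentiableAt ℂ (chartAt E (f q) ∘ f) q := hf.2.differentiableAt (by simp)
  have h1 : MDifferentiableAt 𝓘(ℂ, H) 𝓘(ℂ, E) f q := by
    rw [mdifferentiableAt_iff]
    refine ⟨hf.1, ?_⟩
    simpa [differentiableWithinAt_univ] using hd
  unfold dvec
  rw [hd.fderiv_restrictScalars ℝ]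
  unfold mfderiv
  rw [if_pos h1]
  simp [writtenInExtChartAt]
  rfl

theorem hol_of_contMDiffOn {f : H → X} {O : Set H} (hO : IsOpen O)
    (h : ContMDiffOn 𝓘(ℂ, H) 𝓘(ℂ, E) ω f O) {q : H} (hq : q ∈ O) : Hol E f q := by
  have h1 : ContMDiffAt 𝓘(ℂ, H) 𝓘(ℂ, E) ω f q := h.contMDiffAt (hO.mem_nhds hq)
  refine ⟨h1.continuousAt, ?_⟩
  have h2 := (contMDiffAt_iff.1 h1).2
  have h3 : ContDiffAt ℂ ω (chartAt E (f q) ∘ f) q := by
    simpa [contDiffWithinAt_univ] using h2
  exact h3.of_le le_top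

end Pool.Agent.FBR
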