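import Pool.Agent.FBR.CD2
import Pool.Agent.FBR.Alg
import Pool.Agent.FBR.Prod
import Pool.Agent.FBR.SmFn

/-!
# FBR/Chx: the densities `dχ ∧ β`, `dχ ∧ β ∧ β / 2` in product charts

PROOF PLAN.  Let `q = (chartAt F P.c b, w)`, `ξ = dvec E P.Ψ q (0, 1)`, so `I • ξ = dvec E P.Ψ q (0, I)` (`Hol.smul_I` or `PC.dvec_vert`).
`dmap π (L - dvec E P.Ψ q (tc u, 0)) = 0` (`PC.dmap_tc`), so `L = dvec E P.Ψ q (tc u, 0) + r • ξ` (`PC.vert_iff`); `Z3_rep`, `Z5_rep`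
remove `r • ξ`; `fderiv_fun` gives `fderiv ℝ (φ ∘ P.Ψ) q = (dF E φ (P.Ψ q)).comp (dvec E P.Ψ q)`; `tpb_apply`; `Z3_pull`, `Z5_pull`.
`..._vcont`: near `w` the density equals `Z3 (fderiv ℝ (φ ∘ P.Ψ) q') (tpb β.val P.Ψ q') ...`, `q' = (chartAt F P.c b, w')`, which is continuous:
`tpb_smooth` on `P.O`, `SmF.at` at the points of `P.O` (so `φ ∘ P.Ψ` is `ContDiffOn ℝ ∞` on the open `P.O` and `fderiv` is continuous there);
`π (P.Ψ q') = b` (`P.proj`), so `hL` applies.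
-/

set_option autoImplicit false

noncomputable section

open scoped Manifold ContDiff Classical

open MeasureTheory

namespace Pool.Agent.FBR

variable {E X : Type*} [NormedAddCommGroup E] [NormedSpace ℂ E] [FiniteDimensional ℂ E]
  [TopologicalSpace X] [ChartedSpace E X] [IsManifold 𝓘(ℂ, E) ω X]
  {F B : Type*} [NormedAddCommGroup F] [NormedSpace ℂ F] [FiniteDimensional ℂ F] [TopologicalSpace B]
  [ChartedSpace F B] [IsManifold 𝓘(ℂ, F) ω B] {π : X → B}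

private theorem Chx_rep (hπ : ContMDiff 𝓘(ℂ, E) 𝓘(ℂ, F) ω π) (P : PC E F π) {b : B}
    (hb : b ∈ (chartAt F P.c).source) {w : ℂ} (hq : (chartAt F P.c b, w) ∈ P.O) {L : E} {u : F}
    (hL : dmap E F π (P.Ψ (chartAt F P.c b, w)) L = u) :
    ∃ r : ℂ, L = dvec E P.Ψ (chartAt F P.c b, w) (tc F P.c b u, 0) +
      r • dvec E P.Ψ (chartAt F P.c b, w) (0, 1) := by
  have h1 : dmap E F π (P.Ψ (chartAt F P.c b, w))
      (L - dvec E P.Ψ (chartAt F P.c b, w) (tc F P.c b u, 0)) = 0 := by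
    rw [map_sub, hL, P.dmap_tc hπ hb hq, sub_self]
  obtain ⟨r, hr⟩ := (P.vert_iff hπ hq _).1 h1
  exact ⟨r, by rw [← hr]; abel⟩

omit [FiniteDimensional ℂ E] [FiniteDimensional ℂ F] [IsManifold 𝓘(ℂ, E) ω X] [IsManifold 𝓘(ℂ, F) ω B] in
private theorem Chx_cont1 (P : PC E F π) {φ : X → ℝ} (hφ : SmF E φ) :
    ContinuousOn (fderiv ℝ (φ ∘ P.Ψ)) P.O := by
  have h : ContDiffOn ℝ ∞ (φ ∘ P.Ψ) P.O := fun q hq => (hφ.at (P.hol q hq).sm).contDiffWithinAt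
  exact h.continuousOn_fderiv_of_isOpen P.isOpen (by simp)

omit [FiniteDimensional ℂ E] [FiniteDimensional ℂ F] [IsManifold 𝓘(ℂ, F) ω B] in
private theorem Chx_sm2 (P : PC E F π) (β : Form E X) : ContDiffOn ℝ ∞ (tpb β.val P.Ψ) P.O :=
  tpb_smooth β P.isOpen fun q hq => (P.hol q hq).sm

omit [FiniteDimensional ℂ E] [FiniteDimensional ℂ F] [IsManifold 𝓘(ℂ, E) ω X] [IsManifold 𝓘(ℂ, F) ω B] in
private theorem Chx_pt (P : PC E F π) {b : B} (hb : b ∈ (chartAt F P.c).source) {w : ℂ}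
    (hq : (chartAt F P.c b, w) ∈ P.O) : π (P.Ψ (chartAt F P.c b, w)) = b := by
  rw [P.proj _ hq]
  exact (chartAt F P.c).left_inv hb

private theorem Chx_ind {V : Type*} [NormedAddCommGroup V] [NormedSpace ℝ V] [CompactSpace X] [T2Space X]
    (P : PC E F π) {χ : X → ℝ} (hχ : SmF E χ) (hs : tsupport χ ⊆ P.Ψ '' P.O) {m : F × ℂ → V}
    (hm : ContDiffOn ℝ ∞ m P.O) : ContDiff ℝ ∞ (P.O.indicator fun q => χ (P.Ψ q) • m q) := by
  have hK : IsCompact {q | q ∈ P.O ∧ P.Ψ q ∈ tsupport χ} :=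
    P.isCompact_preim (isClosed_tsupport χ).isCompact hs
  rw [contDiff_iff_contDiffAt]
  intro q
  by_cases hq : q ∈ P.O
  · have h1 : ContDiffAt ℝ ∞ (fun q => χ (P.Ψ q) • m q) q :=
      (hχ.at (P.hol q hq).sm).smul (hm.contDiffAt (P.isOpen.mem_nhds hq))
    refine h1.congr_of_eventuallyEq ?_
    filter_upwards [P.isOpen.mem_nhds hq] with q' hq'
    exact Set.indicator_of_mem hq' _
  · have h2 : {q | q ∈ P.O ∧ P.Ψ q ∈ tsupport χ}ᶜ ∈ nhds q :=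
      hK.isClosed.isOpen_compl.mem_nhds fun h => hq h.1
    refine (contDiffAt_const (c := (0 : V))).congr_of_eventuallyEq ?_
    filter_upwards [h2] with q' hq'
    by_cases h3 : q' ∈ P.O
    · rw [Set.indicator_of_mem h3, image_eq_zero_of_notMem_tsupport fun h => hq' ⟨h3, h⟩, zero_smul]
    · exact Set.indicator_of_notMem h3 _

theorem Z3_chart (hπ : ContMDiff 𝓘(ℂ, E) 𝓘(ℂ, F) ω π) (P : PC E F π) (β : Form E X) {φ : X → ℝ}
    (hφ : SmF E φ) {b : B} (hb : b ∈ (chartAt F P.c).source) {w : ℂ} (hq : (chartAt F P.c b, w) ∈ P.O)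
    {L : E} {u : F} (hL : dmap E F π (P.Ψ (chartAt F P.c b, w)) L = u) :
    Z3 (dF E φ (P.Ψ (chartAt F P.c b, w))) (β.val (P.Ψ (chartAt F P.c b, w))) L
        (dvec E P.Ψ (chartAt F P.c b, w) (0, 1)) (Complex.I • dvec E P.Ψ (chartAt F P.c b, w) (0, 1)) =
      Z3 (fderiv ℝ (φ ∘ P.Ψ) (chartAt F P.c b, w)) (tpb β.val P.Ψ (chartAt F P.c b, w))
        (tc F P.c b u, 0) (0, 1) (0, Complex.I) := by
  obtain ⟨r, hr⟩ := Chx_rep hπ P hb hq hL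
  rw [hr, Z3_rep _ (β.alt _), fderiv_fun hφ (P.hol _ hq).sm, ← P.dvec_vert hq]
  rfl

theorem Z5_chart (hπ : ContMDiff 𝓘(ℂ, E) 𝓘(ℂ, F) ω π) (P : PC E F π) (β : Form E X) {φ : X → ℝ}
    (hφ : SmF E φ) {b : B} (hb : b ∈ (chartAt F P.c).source) {w : ℂ} (hq : (chartAt F P.c b, w) ∈ P.O)
    {L1 L2 L3 : E} {u1 u2 u3 : F} (h1 : dmap E F π (P.Ψ (chartAt F P.c b, w)) L1 = u1)
    (h2 : dmap E F π (P.Ψ (chartAt F P.c b, w)) L2 = u2)
    (h3 : dmap E F π (P.Ψ (chartAt F P.c b, w)) L3 = u3) :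
    Z5 (dF E φ (P.Ψ (chartAt F P.c b, w))) (β.val (P.Ψ (chartAt F P.c b, w))) L1 L2 L3
        (dvec E P.Ψ (chartAt F P.c b, w) (0, 1)) (Complex.I • dvec E P.Ψ (chartAt F P.c b, w) (0, 1)) =
      Z5 (fderiv ℝ (φ ∘ P.Ψ) (chartAt F P.c b, w)) (tpb β.val P.Ψ (chartAt F P.c b, w))
        (tc F P.c b u1, 0) (tc F P.c b u2, 0) (tc F P.c b u3, 0) (0, 1) (0, Complex.I) := by
  obtain ⟨r1, hr1⟩ := Chx_rep hπ P hb hq h1
  obtain ⟨r2, hr2⟩ := Chx_rep hπ P hb hq h2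
  obtain ⟨r3, hr3⟩ := Chx_rep hπ P hb hq h3
  rw [hr1, hr2, hr3, Z5_rep _ (β.alt _), fderiv_fun hφ (P.hol _ hq).sm, ← P.dvec_vert hq]
  rfl

theorem Z3_vcont (hπ : ContMDiff 𝓘(ℂ, E) 𝓘(ℂ, F) ω π) (β : Form E X) {φ : X → ℝ} (hφ : SmF E φ) {b : B}
    {L : X → E} {u : F} (hL : ∀ x, π x = b → dmap E F π x (L x) = u) :
    VCont F π (fun x ξ => Z3 (dF E φ x) (β.val x) (L x) ξ (Complex.I • ξ)) b := by
  intro P hb w hw
  have hc : ContinuousAt (fun w' : ℂ => (chartAt F P.c b, w')) w := by fun_prop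
  have hev : ∀ᶠ w' in nhds w, (chartAt F P.c b, w') ∈ P.O := hc.eventually (P.isOpen.mem_nhds hw)
  have h1 : ContinuousAt (fderiv ℝ (φ ∘ P.Ψ)) (chartAt F P.c b, w) :=
    (Chx_cont1 P hφ).continuousAt (P.isOpen.mem_nhds hw)
  have h2 : ContinuousAt (tpb β.val P.Ψ) (chartAt F P.c b, w) :=
    (Chx_sm2 P β).continuousOn.continuousAt (P.isOpen.mem_nhds hw)
  have h3 : ContinuousAt (fun q => Z3 (fderiv ℝ (φ ∘ P.Ψ) q) (tpb β.val P.Ψ q) (tc F P.c b u, 0) (0, 1)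
      (0, Complex.I)) (chartAt F P.c b, w) := by
    simp only [Z3]
    fun_prop
  have h4 : ContinuousAt (fun w' : ℂ => Z3 (fderiv ℝ (φ ∘ P.Ψ) (chartAt F P.c b, w'))
      (tpb β.val P.Ψ (chartAt F P.c b, w')) (tc F P.c b u, 0) (0, 1) (0, Complex.I)) w :=
    ContinuousAt.comp (f := fun w' : ℂ => (chartAt F P.c b, w')) h3 hc
  refine h4.congr ?_
  filter_upwards [hev] with w' hw'
  exact (Z3_chart hπ P β hφ hb hw' (hL _ (Chx_pt P hb hw'))).symm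

theorem Z5_vcont (hπ : ContMDiff 𝓘(ℂ, E) 𝓘(ℂ, F) ω π) (β : Form E X) {φ : X → ℝ} (hφ : SmF E φ) {b : B}
    {L1 L2 L3 : X → E} {u1 u2 u3 : F} (h1 : ∀ x, π x = b → dmap E F π x (L1 x) = u1)
    (h2 : ∀ x, π x = b → dmap E F π x (L2 x) = u2) (h3 : ∀ x, π x = b → dmap E F π x (L3 x) = u3) :
    VCont F π (fun x ξ => Z5 (dF E φ x) (β.val x) (L1 x) (L2 x) (L3 x) ξ (Complex.I • ξ)) b := by
  intro P hb w hw
  have hc : ContinuousAt (fun w' : ℂ => (chartAt F P.c b, w')) w := by fun_prop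
  have hev : ∀ᶠ w' in nhds w, (chartAt F P.c b, w') ∈ P.O := hc.eventually (P.isOpen.mem_nhds hw)
  have g1 : ContinuousAt (fderiv ℝ (φ ∘ P.Ψ)) (chartAt F P.c b, w) :=
    (Chx_cont1 P hφ).continuousAt (P.isOpen.mem_nhds hw)
  have g2 : ContinuousAt (tpb β.val P.Ψ) (chartAt F P.c b, w) :=
    (Chx_sm2 P β).continuousOn.continuousAt (P.isOpen.mem_nhds hw)
  have g3 : ContinuousAt (fun q => Z5 (fderiv ℝ (φ ∘ P.Ψ) q) (tpb β.val P.Ψ q) (tc F P.c b u1, 0)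
      (tc F P.c b u2, 0) (tc F P.c b u3, 0) (0, 1) (0, Complex.I)) (chartAt F P.c b, w) := by
    simp only [Z5, A4]
    fun_prop
  have g4 : ContinuousAt (fun w' : ℂ => Z5 (fderiv ℝ (φ ∘ P.Ψ) (chartAt F P.c b, w'))
      (tpb β.val P.Ψ (chartAt F P.c b, w')) (tc F P.c b u1, 0) (tc F P.c b u2, 0) (tc F P.c b u3, 0)
      (0, 1) (0, Complex.I)) w :=
    ContinuousAt.comp (f := fun w' : ℂ => (chartAt F P.c b, w')) g3 hc
  refine g4.congr ?_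
  filter_upwards [hev] with w' hw'
  exact (Z5_chart hπ P β hφ hb hw' (h1 _ (Chx_pt P hb hw')) (h2 _ (Chx_pt P hb hw'))
    (h3 _ (Chx_pt P hb hw'))).symm

/-- the vertical part of `β` in a product chart -/
theorem beta_chart (P : PC E F π) (β : Form E X) {q : F × ℂ} (hq : q ∈ P.O) :
    β.val (P.Ψ q) (dvec E P.Ψ q (0, 1)) (Complex.I • dvec E P.Ψ q (0, 1)) =
      tpb β.val P.Ψ q (0, 1) (0, Complex.I) := by
  rw [← P.dvec_vert hq]
  rfl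

theorem Fi_smooth [CompactSpace X] [T2Space X] (P : PC E F π) (β : Form E X) {χ : X → ℝ} (hχ : SmF E χ)
    (hs : tsupport χ ⊆ P.Ψ '' P.O) : ContDiff ℝ ∞ (Fi P χ β) := by
  exact Chx_ind P hχ hs (((Chx_sm2 P β).clm_apply contDiffOn_const).clm_apply contDiffOn_const)

theorem Gi_smooth [CompactSpace X] [T2Space X] (P : PC E F π) (β : Form E X) {χ : X → ℝ} (hχ : SmF E χ)
    (hs : tsupport χ ⊆ P.Ψ '' P.O) : ContDiff ℝ ∞ (Gi P χ β) := by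
  exact Chx_ind P hχ hs (A4F_smooth.comp_contDiffOn (Chx_sm2 P β))

end Pool.Agent.FBR
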