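import Mathlib

/-!
# FBR: semi-positive forms on fibre spaces (MP_d9a86d_gt): definitions

`X` is a complex manifold modelled on the finite dimensional complex vector space `E` (Mathlib:
`ChartedSpace E X`, `IsManifold 𝓘(ℂ, E) ω X`).  The tangent space of `X` at `x` is `E`, by means of
the chart `chartAt E x` (this is Mathlib's `TangentSpace 𝓘(ℂ, E) x`).

A closed real `(1,1)`-form (`Form`) is given by its values `val x`, an alternating real bilinear
form on the tangent space at `x` which is invariant under multiplication by `i`; the coefficients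
in the charts are smooth, and `dβ = 0`.
-/

set_option autoImplicit false

noncomputable section

open scoped Manifold ContDiff

namespace Pool.Agent.FBR

universe u

/-- Real bilinear forms on `G`. -/
abbrev Bil (G : Type*) [NormedAddCommGroup G] [NormedSpace ℝ G] := G →L[ℝ] G →L[ℝ] ℝ

section Forms

variable {E X : Type*} [NormedAddCommGroup E] [NormedSpace ℂ E] [TopologicalSpace X]
  [ChartedSpace E X] {G : Type*} [NormedAddCommGroup G] [NormedSpace ℝ G]

/-- The pull back under `f : G → X` of the tensor `a` on `X` with the values `a x`, a bilinear form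
on the tangent space at `x` (which is `E` by means of the chart `chartAt E x`). -/
def tpb (a : X → Bil E) (f : G → X) (q : G) : Bil G :=
  (a (f q)).bilinearComp (fderiv ℝ (chartAt E (f q) ∘ f) q) (fderiv ℝ (chartAt E (f q) ∘ f) q)

/-- The coefficients of the tensor `a` in the chart at `p`. -/
def coef (a : X → Bil E) (p : X) : E → Bil E := tpb a (chartAt E p).symm

variable (E X) in
/-- A closed real `(1,1)`-form on the complex manifold `X`. -/
structure Form where
  /-- the value at `x` -/
  val : X → Bil E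
  alt : ∀ x v, val x v v = 0
  j : ∀ x u v, val x (Complex.I • u) (Complex.I • v) = val x u v
  smooth : ∀ p, ContDiffOn ℝ ∞ (coef val p) (chartAt E p).target
  closed : ∀ p, ∀ y ∈ (chartAt E p).target, ∀ u v w : E,
    fderiv ℝ (coef val p) y u v w + fderiv ℝ (coef val p) y v w u +
      fderiv ℝ (coef val p) y w u v = 0

/-- `β` is positive definite at `x`: `β(v, iv) > 0` for all tangent vectors `v ≠ 0`. -/
def Form.PosAt (b : Form E X) (x : X) : Prop := ∀ v : E, v ≠ 0 → 0 < b.val x v (Complex.I • v)

/-- `β ≥ 0`: `β(v, iv) ≥ 0` for all tangent vectors `v`. -/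
def Form.Semi (b : Form E X) : Prop := ∀ (x : X) (v : E), 0 ≤ b.val x v (Complex.I • v)

end Forms

/-! ### Compact complex manifolds -/

/-- A compact connected complex manifold `X`, modelled on the finite dimensional complex vector
space `E`. -/
structure CM where
  /-- the model space -/
  E : Type u
  /-- the points -/
  X : Type u
  [nE : NormedAddCommGroup E]
  [sE : NormedSpace ℂ E]
  [fE : FiniteDimensional ℂ E]
  [tX : TopologicalSpace X]
  [cX : ChartedSpace E X]
  [mX : IsManifold 𝓘(ℂ, E) ω X]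
  [kX : CompactSpace X]
  [hX : T2Space X]
  [nX : ConnectedSpace X]

attribute [instance] CM.nE CM.sE CM.fE CM.tX CM.cX CM.mX CM.kX CM.hX CM.nX

/-- `M` is a Kaehler manifold. -/
def Kaehler (M : CM.{u}) : Prop := ∃ w : Form M.E M.X, ∀ x, w.PosAt x

/-- `M` has a closed real `(1,1)`-form `β ≥ 0` with `∫ β ^ n > 0`, i.e. which is positive definite
at some point. -/
def SemiPos (M : CM.{u}) : Prop := ∃ b : Form M.E M.X, b.Semi ∧ ∃ x, b.PosAt x

/-- `M` is in the class `C` of Fujiki: it is the image of a compact Kaehler manifold. -/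
def Fujiki (M : CM.{u}) : Prop := ∃ (Z : CM.{u}) (f : Z.X → M.X), Kaehler Z ∧
  ContMDiff 𝓘(ℂ, Z.E) 𝓘(ℂ, M.E) ω f ∧ Function.Surjective f

/-! ### Maps -/

section Maps

variable {E X F B : Type*} [NormedAddCommGroup E] [NormedSpace ℂ E] [TopologicalSpace X]
  [ChartedSpace E X] [NormedAddCommGroup F] [NormedSpace ℂ F] [TopologicalSpace B]
  [ChartedSpace F B]

variable (E F) in
/-- `π` is a holomorphic submersion, all fibres of which are connected and of dimension one. -/
structure CurveFib (π : X → B) : Prop where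
  hol : ContMDiff 𝓘(ℂ, E) 𝓘(ℂ, F) ω π
  subm : ∀ x, Function.Surjective (mfderiv 𝓘(ℂ, E) 𝓘(ℂ, F) π x)
  dim : Module.finrank ℂ E = Module.finrank ℂ F + 1
  conn : ∀ b, IsConnected (π ⁻¹' {b})

variable (E F) in
/-- `Φ : V × ℂᵏ → X` identifies the part of `X` over the open set `V` of the chart of `B` at `b₀`
with the quotient of `V × ℂᵏ` by the lattices generated by `lam j y`, `j < 2k`. -/
structure TorusChart (π : X → B) (k : ℕ) (b₀ : B) where
  V : Set F
  isOpen : IsOpen V
  sub : V ⊆ (chartAt F b₀).target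
  mem : chartAt F b₀ b₀ ∈ V
  /-- the periods -/
  lam : Fin (2 * k) → F → (Fin k → ℂ)
  lam_hol : ∀ j, ContDiffOn ℂ ω (lam j) V
  indep : ∀ y ∈ V, LinearIndependent ℝ fun j => lam j y
  Φ : F × (Fin k → ℂ) → X
  hol : ContMDiffOn 𝓘(ℂ, F × (Fin k → ℂ)) 𝓘(ℂ, E) ω Φ (V ×ˢ Set.univ)
  bij : ∀ q ∈ V ×ˢ (Set.univ : Set (Fin k → ℂ)),
    Function.Bijective (mfderiv 𝓘(ℂ, F × (Fin k → ℂ)) 𝓘(ℂ, E) Φ q)
  proj : ∀ y ∈ V, ∀ z, π (Φ (y, z)) = (chartAt F b₀).symm y
  surj : ∀ x, π x ∈ (chartAt F b₀).source → chartAt F b₀ (π x) ∈ V →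
    ∃ z, Φ (chartAt F b₀ (π x), z) = x
  ker : ∀ y ∈ V, ∀ z z', Φ (y, z) = Φ (y, z') ↔
    ∃ m : Fin (2 * k) → ℤ, z' = z + ∑ j, m j • lam j y

variable (E F) in
/-- `π` is a holomorphic fibration by complex tori of dimension `k`. -/
structure TorusFib (π : X → B) (k : ℕ) : Prop where
  hol : ContMDiff 𝓘(ℂ, E) 𝓘(ℂ, F) ω π
  chart : ∀ b₀ : B, Nonempty (TorusChart E F π k b₀)

variable (E F) in
/-- `p` is a holomorphic finite unramified covering (of a compact manifold): a surjective local
biholomorphism. -/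
structure Cover (p : X → B) : Prop where
  hol : ContMDiff 𝓘(ℂ, E) 𝓘(ℂ, F) ω p
  bij : ∀ x, Function.Bijective (mfderiv 𝓘(ℂ, E) 𝓘(ℂ, F) p x)
  surj : Function.Surjective p

variable (E F) in
/-- `i` is a holomorphic immersion. -/
structure Immersion (i : X → B) : Prop where
  hol : ContMDiff 𝓘(ℂ, E) 𝓘(ℂ, F) ω i
  inj : ∀ x, Function.Injective (mfderiv 𝓘(ℂ, E) 𝓘(ℂ, F) i x)

end Maps

/-- The class `T`: the smallest class of compact connected complex manifolds which contains the
Kaehler manifolds and which is closed under: fibre spaces with connected curves as fibres, fibre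
spaces with complex tori as fibres, unramified quotients, and which contains every manifold such
that through every point passes an immersed non-Kaehler member of the class. -/
inductive Tow : CM.{u} → Prop
  | kaehler (M : CM.{u}) : Kaehler M → Tow M
  | curve (M B : CM.{u}) (π : M.X → B.X) : CurveFib M.E B.E π → Tow B → Tow M
  | torus (M B : CM.{u}) (π : M.X → B.X) (k : ℕ) : TorusFib M.E B.E π k → Tow B → Tow M
  | quot (M' M : CM.{u}) (p : M'.X → M.X) : Cover M'.E M.E p → Tow M' → Tow M
  | cov (M : CM.{u}) (F : M.X → CM.{u}) (i : ∀ x, (F x).X → M.X) :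
      (∀ x, Immersion (F x).E M.E (i x)) → (∀ x, x ∈ Set.range (i x)) →
      (∀ x, ¬ Kaehler (F x)) → (∀ x, Tow (F x)) → Tow M

end Pool.Agent.FBR
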