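import Pool.Agent.FBR.Chx
import Pool.Agent.FBR.Push

/-!
# FBR/DerF: derivative of the fibre integral of `χ β` in a product chart

`deriv_JF`: at the points of `P.O` the derivative of the cut off vertical part is the density `d χ ∧ β` plus two
derivatives in the fibre directions (`d_Z3`), off `P.O` all the functions vanish; the integrals of the derivatives in
the fibre directions vanish (`J_vert`), and the density is identified by `Z3_chart`.
-/

set_option autoImplicit false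

noncomputable section

open scoped Manifold ContDiff Classical

open MeasureTheory

namespace Pool.Agent.FBR

variable {E X : Type*} [NormedAddCommGroup E] [NormedSpace ℂ E] [FiniteDimensional ℂ E]
  [TopologicalSpace X] [ChartedSpace E X] [IsManifold 𝓘(ℂ, E) ω X] [CompactSpace X] [T2Space X]
  {F B : Type*} [NormedAddCommGroup F] [NormedSpace ℂ F] [FiniteDimensional ℂ F] [TopologicalSpace B]
  [ChartedSpace F B] [IsManifold 𝓘(ℂ, F) ω B] {π : X → B}

private theorem DerF_off (P : PC E F π) {χ : X → ℝ} (hs : tsupport χ ⊆ P.Ψ '' P.O) (f : F × ℂ → ℝ)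
    {q : F × ℂ} (hq : q ∉ P.O) (v : F × ℂ) :
    fderiv ℝ (P.O.indicator fun q => χ (P.Ψ q) • f q) q v = 0 := by
  have h1 : q ∉ tsupport (P.O.indicator fun q => χ (P.Ψ q) • f q) := fun h => hq (cut_tsupport P hs f h)
  have h2 := notMem_tsupport_iff_eventuallyEq.1 h1
  rw [h2.fderiv_eq]
  simp

private theorem DerF_on (P : PC E F π) (β : Form E X) {χ : X → ℝ} (hχ : SmF E χ)
    {q : F × ℂ} (hq : q ∈ P.O) (u s t : F × ℂ) :
    fderiv ℝ (P.O.indicator fun q => χ (P.Ψ q) • tpb β.val P.Ψ q s t) q u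
        - fderiv ℝ (P.O.indicator fun q => χ (P.Ψ q) • tpb β.val P.Ψ q u t) q s
        + fderiv ℝ (P.O.indicator fun q => χ (P.Ψ q) • tpb β.val P.Ψ q u s) q t =
      Z3 (fderiv ℝ (χ ∘ P.Ψ) q) (tpb β.val P.Ψ q) u s t := by
  have hev : ∀ x y : F × ℂ, (P.O.indicator fun q => χ (P.Ψ q) • tpb β.val P.Ψ q x y)
      =ᶠ[nhds q] fun q' => (χ ∘ P.Ψ) q' * tpb β.val P.Ψ q' x y := by
    intro x y
    filter_upwards [P.isOpen.mem_nhds hq] with z hz
    rw [Set.indicator_of_mem hz]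
    rfl
  rw [(hev s t).fderiv_eq, (hev u t).fderiv_eq, (hev u s).fderiv_eq]
  refine d_Z3 (χ ∘ P.Ψ) (tpb β.val P.Ψ) q ?_ ?_ (fun q u => tpb_alt β P.Ψ q u)
    (tpb_closed β P.isOpen (fun q hq => (P.hol q hq).sm) hq) u s t
  · exact (hχ.at (P.hol q hq).sm).differentiableAt (by simp)
  · exact ((tpb_smooth β P.isOpen fun q hq => (P.hol q hq).sm).contDiffAt
      (P.isOpen.mem_nhds hq)).differentiableAt (by simp)

theorem deriv_JF (hπ : ContMDiff 𝓘(ℂ, E) 𝓘(ℂ, F) ω π) (P : PC E F π) (β : Form E X) {χ : X → ℝ} (hχ : SmF E χ)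
    (hs : tsupport χ ⊆ P.Ψ '' P.O) {b : B} (hb : b ∈ (chartAt F P.c).source)
    {L : X → E} {u : F} (hL : ∀ x, π x = b → dmap E F π x (L x) = u) :
    fderiv ℝ (J (Fi P χ β)) (chartAt F P.c b) (tc F P.c b u) =
      fi P (fun x ξ => Z3 (dF E χ x) (β.val x) (L x) ξ (Complex.I • ξ)) b := by
  obtain ⟨y, hy⟩ : ∃ y, y = chartAt F P.c b := ⟨_, rfl⟩
  obtain ⟨u', hu'⟩ : ∃ u', u' = tc F P.c b u := ⟨_, rfl⟩
  have hsm : ContDiffOn ℝ ∞ (tpb β.val P.Ψ) P.O := tpb_smooth β P.isOpen fun q hq => (P.hol q hq).sm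
  have hS : ∀ s t : F × ℂ, ContDiff ℝ ∞ (P.O.indicator fun q => χ (P.Ψ q) • tpb β.val P.Ψ q s t) :=
    fun s t => cut_smooth P hχ hs ((hsm.clm_apply contDiffOn_const).clm_apply contDiffOn_const)
  have hC : ∀ s t : F × ℂ, HasCompactSupport (P.O.indicator fun q => χ (P.Ψ q) • tpb β.val P.Ψ q s t) :=
    fun s t => cut_compact P hs _
  have hF : Fi P χ β = P.O.indicator fun q => χ (P.Ψ q) • tpb β.val P.Ψ q (0, 1) (0, Complex.I) := rfl
  rw [hF, J_fderiv (hS _ _) (hC _ _), fi, if_pos hb, ← hy, ← hu']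
  have hpt : ∀ w : ℂ, P.O.indicator (fun q => Z3 (dF E χ (P.Ψ q)) (β.val (P.Ψ q)) (L (P.Ψ q))
        (dvec E P.Ψ q (0, 1)) (Complex.I • dvec E P.Ψ q (0, 1))) (y, w) =
      fderiv ℝ (P.O.indicator fun q => χ (P.Ψ q) • tpb β.val P.Ψ q (0, 1) (0, Complex.I)) (y, w) (u', 0)
        - fderiv ℝ (P.O.indicator fun q => χ (P.Ψ q) • tpb β.val P.Ψ q (u', 0) (0, Complex.I)) (y, w) (0, 1)
        + fderiv ℝ (P.O.indicator fun q => χ (P.Ψ q) • tpb β.val P.Ψ q (u', 0) (0, 1)) (y, w)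
            (0, Complex.I) := by
    intro w
    by_cases hq : (y, w) ∈ P.O
    · rw [Set.indicator_of_mem hq, DerF_on P β hχ hq, hu']
      subst hy
      have hπb : π (P.Ψ (chartAt F P.c b, w)) = b := by
        rw [P.proj _ hq]
        exact (chartAt F P.c).left_inv hb
      exact Z3_chart hπ P β hχ hb hq (hL _ hπb)
    · rw [Set.indicator_of_notMem hq, DerF_off P hs _ hq, DerF_off P hs _ hq, DerF_off P hs _ hq]
      simp
  have h1 := J_fderiv_integrable (hS (0, 1) (0, Complex.I)) (hC (0, 1) (0, Complex.I)) y (u', 0)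
  have h2 := J_fderiv_integrable (hS (u', 0) (0, Complex.I)) (hC (u', 0) (0, Complex.I)) y (0, 1)
  have h3 := J_fderiv_integrable (hS (u', 0) (0, 1)) (hC (u', 0) (0, 1)) y (0, Complex.I)
  have h12 : Integrable (fun w : ℂ =>
      fderiv ℝ (P.O.indicator fun q => χ (P.Ψ q) • tpb β.val P.Ψ q (0, 1) (0, Complex.I)) (y, w) (u', 0)
        - fderiv ℝ (P.O.indicator fun q => χ (P.Ψ q) • tpb β.val P.Ψ q (u', 0) (0, Complex.I)) (y, w)
            (0, 1)) := h1.sub h2
  rw [integral_congr_ae (Filter.Eventually.of_forall hpt), integral_add h12 h3,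
    integral_sub h1 h2, J_vert (hS _ _) (hC _ _), J_vert (hS _ _) (hC _ _)]
  simp

end Pool.Agent.FBR
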