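import Pool.Agent.FBR.Chx
import Pool.Agent.FBR.Push

/-!
# FBR/DerG: exterior derivative of the fibre integral of `χ β ∧ β / 2` in a product chart
-/

set_option autoImplicit false

noncomputable section

open scoped Manifold ContDiff Classical

open MeasureTheory

namespace Pool.Agent.FBR

section Gen

variable {G V : Type*} [NormedAddCommGroup G] [NormedSpace ℝ G] [NormedAddCommGroup V] [NormedSpace ℝ V]

private theorem DerG_fd1 (g : G → V) (Λ : V →L[ℝ] ℝ) (q : G) (hg : DifferentiableAt ℝ g q) (X : G) :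
    Λ (fderiv ℝ g q X) = fderiv ℝ (fun q' => Λ (g q')) q X := by
  have h2 := (Λ.hasFDerivAt (x := g q)).comp q hg.hasFDerivAt
  have h3 : (fun q' => Λ (g q')) = Λ ∘ g := rfl
  rw [h3, h2.fderiv]
  rfl

variable [CompleteSpace V] [FiniteDimensional ℝ G]

private theorem DerG_J1 {g : G × ℂ → V} (hg : ContDiff ℝ ∞ g) (hc : HasCompactSupport g) (Λ : V →L[ℝ] ℝ)
    (y U : G) : Λ (fderiv ℝ (J g) y U) = ∫ w : ℂ, fderiv ℝ (fun q' => Λ (g q')) (y, w) (U, 0) := by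
  rw [J_fderiv hg hc, ← Λ.integral_comp_comm (J_fderiv_integrable hg hc y ((U, 0) : G × ℂ))]
  refine integral_congr_ae (Filter.Eventually.of_forall fun w => ?_)
  exact DerG_fd1 g Λ (y, w) (hg.contDiffAt.differentiableAt (by simp)) (U, 0)

private theorem DerG_J2 {g : G × ℂ → V} (hg : Continuous g) (hc : HasCompactSupport g) (Λ : V →L[ℝ] ℝ)
    (h : ∀ q, Λ (g q) = 0) (y : G) : Λ (J g y) = 0 := by
  unfold J
  rw [← Λ.integral_comp_comm (J_integrable hg hc y)]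
  exact (integral_congr_ae (Filter.Eventually.of_forall fun w => h (y, w))).trans (integral_zero ℂ ℝ)

private theorem DerG_int5 {f1 f2 f3 f4 f5 : ℂ → ℝ} (h1 : Integrable f1) (h2 : Integrable f2) (h3 : Integrable f3)
    (h4 : Integrable f4) (h5 : Integrable f5) : ∫ w, (f1 w - f2 w + f3 w - f4 w + f5 w) =
      (∫ w, f1 w) - (∫ w, f2 w) + (∫ w, f3 w) - (∫ w, f4 w) + ∫ w, f5 w := by
  have e1 := integral_add (((h1.sub h2).add h3).sub h4) h5
  have e2 := integral_sub ((h1.sub h2).add h3) h4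
  have e3 := integral_add (h1.sub h2) h3
  have e4 := integral_sub h1 h2
  simp only [Pi.sub_apply, Pi.add_apply] at e1 e2 e3
  rw [e1, e2, e3, e4]

end Gen

section Gen2

variable {G F : Type*} [NormedAddCommGroup G] [NormedSpace ℝ G] [NormedAddCommGroup F] [NormedSpace ℝ F]
  [FiniteDimensional ℝ G]

private theorem DerG_J3 {g : G × ℂ → Bil F} (hg : ContDiff ℝ ∞ g) (hc : HasCompactSupport g) 
    (y U : G) (A B : F) : fderiv ℝ (J g) y U A B = ∫ w : ℂ, fderiv ℝ (fun q' => g q' A B) (y, w) (U, 0) := 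
  DerG_J1 hg hc ((ContinuousLinearMap.apply ℝ ℝ B).comp (ContinuousLinearMap.apply ℝ (F →L[ℝ] ℝ) A)) y U

private theorem DerG_J4 {g : G × ℂ → Bil F} (hg : ContDiff ℝ ∞ g) (hc : HasCompactSupport g) 
    (A B : F) (h : ∀ q, g q A B = 0) (y : G) : J g y A B = 0 := by
  obtain ⟨Λ, hΛ⟩ : ∃ Λ : Bil F →L[ℝ] ℝ, ∀ a, Λ a = a A B :=
    ⟨(ContinuousLinearMap.apply ℝ ℝ B).comp (ContinuousLinearMap.apply ℝ (F →L[ℝ] ℝ) A), fun a => rfl⟩
  have h1 := DerG_J2 hg.continuous hc Λ (fun q => (hΛ _).trans (h q)) y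
  rw [hΛ] at h1
  exact h1

end Gen2

variable {E X : Type*} [NormedAddCommGroup E] [NormedSpace ℂ E] [FiniteDimensional ℂ E]
  [TopologicalSpace X] [ChartedSpace E X] [IsManifold 𝓘(ℂ, E) ω X] [CompactSpace X] [T2Space X]
  {F B : Type*} [NormedAddCommGroup F] [NormedSpace ℂ F] [FiniteDimensional ℂ F] [TopologicalSpace B]
  [ChartedSpace F B] [IsManifold 𝓘(ℂ, F) ω B] {π : X → B}

/-- the cut off coefficients of `β ∧ β / 2` on `F × ℂ` -/
private def DerG_S (P : PC E F π) (χ : X → ℝ) (β : Form E X) (p1 p2 p3 p4 : F × ℂ) : F × ℂ → ℝ :=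
  P.O.indicator fun q => χ (P.Ψ q) • A4 (tpb β.val P.Ψ q) p1 p2 p3 p4

omit [FiniteDimensional ℂ E] [CompactSpace X] [T2Space X] [FiniteDimensional ℂ F] [IsManifold 𝓘(ℂ, F) ω B] in
private theorem DerG_T (P : PC E F π) (β : Form E X) : ContDiffOn ℝ ∞ (tpb β.val P.Ψ) P.O :=
  tpb_smooth β P.isOpen fun q hq => (P.hol q hq).sm

private theorem DerG_smooth (P : PC E F π) (β : Form E X) {χ : X → ℝ} (hχ : SmF E χ)
    (hs : tsupport χ ⊆ P.Ψ '' P.O) (p1 p2 p3 p4 : F × ℂ) : ContDiff ℝ ∞ (DerG_S P χ β p1 p2 p3 p4) := by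
  have h : ∀ p p' : F × ℂ, ContDiffOn ℝ ∞ (fun q => tpb β.val P.Ψ q p p') P.O := fun p p' =>
    ((DerG_T P β).clm_apply contDiffOn_const).clm_apply contDiffOn_const
  refine cut_smooth P hχ hs ?_
  exact (((h _ _).mul (h _ _)).sub ((h _ _).mul (h _ _))).add ((h _ _).mul (h _ _))

private theorem DerG_compact (P : PC E F π) (β : Form E X) {χ : X → ℝ} (hs : tsupport χ ⊆ P.Ψ '' P.O)
    (p1 p2 p3 p4 : F × ℂ) : HasCompactSupport (DerG_S P χ β p1 p2 p3 p4) := cut_compact P hs _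

private theorem DerG_gic (P : PC E F π) (χ : X → ℝ) (β : Form E X) (hs : tsupport χ ⊆ P.Ψ '' P.O) :
    HasCompactSupport (Gi P χ β) := by
  have h0 : HasCompactSupport (P.O.indicator fun q => χ (P.Ψ q) • (1 : ℝ)) := cut_compact P hs (fun _ => (1 : ℝ))
  refine h0.mono fun q hq => ?_
  rw [Function.mem_support] at hq ⊢
  intro h1
  apply hq
  unfold Gi
  by_cases hq' : q ∈ P.O
  · rw [Set.indicator_of_mem hq'] at h1 ⊢
    have h2 : χ (P.Ψ q) = 0 := by simpa using h1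
    rw [h2]
    refine ContinuousLinearMap.ext fun A => ContinuousLinearMap.ext fun A' => ?_
    exact zero_mul (A4F (tpb β.val P.Ψ q) A A')
  · rw [Set.indicator_of_notMem hq']

private theorem DerG_gi (P : PC E F π) (χ : X → ℝ) (β : Form E X) (V W : F) (q : F × ℂ) :
    Gi P χ β q V W = DerG_S P χ β (V, 0) (W, 0) (0, 1) (0, Complex.I) q := by
  unfold Gi DerG_S
  by_cases hq : q ∈ P.O
  · rw [Set.indicator_of_mem hq, Set.indicator_of_mem hq, ← A4F_apply]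
    rfl
  · rw [Set.indicator_of_notMem hq, Set.indicator_of_notMem hq]
    rfl

private theorem DerG_anti (P : PC E F π) (χ : X → ℝ) (β : Form E X) (u w s t : F × ℂ) :
    DerG_S P χ β u w s t = fun q => - DerG_S P χ β w u s t q := by
  funext q
  unfold DerG_S
  by_cases hq : q ∈ P.O
  · rw [Set.indicator_of_mem hq, Set.indicator_of_mem hq, smul_eq_mul, smul_eq_mul, ← mul_neg]
    congr 1
    have h1 : ∀ a b : F × ℂ, tpb β.val P.Ψ q a b = - tpb β.val P.Ψ q b a :=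
      antisymm_of_alt fun v => tpb_alt β P.Ψ q v
    unfold A4
    rw [h1 u w]
    ring
  · rw [Set.indicator_of_notMem hq, Set.indicator_of_notMem hq, neg_zero]

private theorem DerG_point (P : PC E F π) (β : Form E X) {χ : X → ℝ} (hχ : SmF E χ)
    (hs : tsupport χ ⊆ P.Ψ '' P.O) (q u v w s t : F × ℂ) :
    fderiv ℝ (DerG_S P χ β v w s t) q u - fderiv ℝ (DerG_S P χ β u w s t) q v +
      fderiv ℝ (DerG_S P χ β u v s t) q w - fderiv ℝ (DerG_S P χ β u v w t) q s +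
      fderiv ℝ (DerG_S P χ β u v w s) q t =
    P.O.indicator (fun q => Z5 (fderiv ℝ (χ ∘ P.Ψ) q) (tpb β.val P.Ψ q) u v w s t) q := by
  by_cases hq : q ∈ P.O
  · have hn : P.O ∈ nhds q := P.isOpen.mem_nhds hq
    have h1 : ∀ p1 p2 p3 p4 : F × ℂ, fderiv ℝ (DerG_S P χ β p1 p2 p3 p4) q =
        fderiv ℝ (fun q' => (χ ∘ P.Ψ) q' * A4 (tpb β.val P.Ψ q') p1 p2 p3 p4) q := by
      intro p1 p2 p3 p4
      refine Filter.EventuallyEq.fderiv_eq ?_
      filter_upwards [hn] with q' hq'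
      exact Set.indicator_of_mem hq' _
    rw [Set.indicator_of_mem hq, h1, h1, h1, h1, h1]
    exact d_Z5 (χ ∘ P.Ψ) (tpb β.val P.Ψ) q ((hχ.at (P.hol q hq).sm).differentiableAt (by simp))
      (((DerG_T P β).contDiffAt hn).differentiableAt (by simp)) (fun q' v => tpb_alt β P.Ψ q' v)
      (tpb_closed β P.isOpen (fun q hq => (P.hol q hq).sm) hq) u v w s t
  · have h1 : ∀ p1 p2 p3 p4 : F × ℂ, fderiv ℝ (DerG_S P χ β p1 p2 p3 p4) q = 0 := by
      intro p1 p2 p3 p4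
      exact fderiv_of_notMem_tsupport ℝ fun h => hq (cut_tsupport P hs _ h)
    rw [Set.indicator_of_notMem hq, h1, h1, h1, h1, h1]
    simp

private theorem DerG_J (P : PC E F π) (β : Form E X) {χ : X → ℝ} (hχ : SmF E χ)
    (hs : tsupport χ ⊆ P.Ψ '' P.O) (y U V W : F) :
    fderiv ℝ (J (Gi P χ β)) y U V W =
      ∫ w : ℂ, fderiv ℝ (DerG_S P χ β (V, 0) (W, 0) (0, 1) (0, Complex.I)) (y, w) (U, 0) := by
  have hc : HasCompactSupport (Gi P χ β) := DerG_gic P χ β hs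
  have h1 : (fun q' => Gi P χ β q' V W) = DerG_S P χ β (V, 0) (W, 0) (0, 1) (0, Complex.I) := by
    funext q'
    exact DerG_gi P χ β V W q'
  rw [← h1]
  exact DerG_J3 (Gi_smooth P β hχ hs) hc y U V W

theorem JG_alt (P : PC E F π) (β : Form E X) {χ : X → ℝ} (hχ : SmF E χ)
    (hs : tsupport χ ⊆ P.Ψ '' P.O) (y u : F) : J (Gi P χ β) y u u = 0 := by
  have hc : HasCompactSupport (Gi P χ β) := DerG_gic P χ β hs
  refine DerG_J4 (Gi_smooth P β hχ hs) hc u u (fun q => ?_) y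
  unfold Gi
  by_cases hq : q ∈ P.O
  · rw [Set.indicator_of_mem hq]
    have h1 : A4F (tpb β.val P.Ψ q) u u = 0 := A4F_alt (fun v => tpb_alt β P.Ψ _ v) u
    show χ (P.Ψ q) * A4F (tpb β.val P.Ψ q) u u = 0
    rw [h1, mul_zero]
  · rw [Set.indicator_of_notMem hq]
    rfl

theorem ext2_JG (hπ : ContMDiff 𝓘(ℂ, E) 𝓘(ℂ, F) ω π) (P : PC E F π) (β : Form E X) {χ : X → ℝ} (hχ : SmF E χ)
    (hs : tsupport χ ⊆ P.Ψ '' P.O) {b : B} (hb : b ∈ (chartAt F P.c).source)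
    {L1 L2 L3 : X → E} {u1 u2 u3 : F} (h1 : ∀ x, π x = b → dmap E F π x (L1 x) = u1)
    (h2 : ∀ x, π x = b → dmap E F π x (L2 x) = u2) (h3 : ∀ x, π x = b → dmap E F π x (L3 x) = u3) :
    ext2 (J (Gi P χ β)) (chartAt F P.c b) (tc F P.c b u1) (tc F P.c b u2) (tc F P.c b u3) =
      fi P (fun x ξ => Z5 (dF E χ x) (β.val x) (L1 x) (L2 x) (L3 x) ξ (Complex.I • ξ)) b := by
  obtain ⟨y, hy⟩ : ∃ y, y = chartAt F P.c b := ⟨_, rfl⟩
  obtain ⟨U1, hU1⟩ : ∃ U, U = tc F P.c b u1 := ⟨_, rfl⟩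
  obtain ⟨U2, hU2⟩ : ∃ U, U = tc F P.c b u2 := ⟨_, rfl⟩
  obtain ⟨U3, hU3⟩ : ∃ U, U = tc F P.c b u3 := ⟨_, rfl⟩
  have hI : ∀ p1 p2 p3 p4 p5 : F × ℂ,
      Integrable (fun w : ℂ => fderiv ℝ (DerG_S P χ β p1 p2 p3 p4) (y, w) p5) := fun p1 p2 p3 p4 p5 =>
    J_fderiv_integrable (DerG_smooth P β hχ hs p1 p2 p3 p4) (DerG_compact P β hs p1 p2 p3 p4) y p5
  have hV : ∀ (p1 p2 p3 p4 : F × ℂ) (v : ℂ),
      ∫ w : ℂ, fderiv ℝ (DerG_S P χ β p1 p2 p3 p4) (y, w) (0, v) = 0 := fun p1 p2 p3 p4 v =>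
    J_vert (DerG_smooth P β hχ hs p1 p2 p3 p4) (DerG_compact P β hs p1 p2 p3 p4) y v
  have hR : fi P (fun x ξ => Z5 (dF E χ x) (β.val x) (L1 x) (L2 x) (L3 x) ξ (Complex.I • ξ)) b =
      ∫ w : ℂ, P.O.indicator (fun q => Z5 (fderiv ℝ (χ ∘ P.Ψ) q) (tpb β.val P.Ψ q) (U1, 0) (U2, 0) (U3, 0)
        (0, 1) (0, Complex.I)) (y, w) := by
    rw [fi, if_pos hb]
    refine integral_congr_ae (Filter.Eventually.of_forall fun w => ?_)
    rw [hy]
    by_cases hq : (chartAt F P.c b, w) ∈ P.O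
    · have hb' : π (P.Ψ (chartAt F P.c b, w)) = b := by
        rw [P.proj _ hq]
        exact (chartAt F P.c).left_inv hb
      rw [hU1, hU2, hU3]
      show P.O.indicator _ (chartAt F P.c b, w) = P.O.indicator _ (chartAt F P.c b, w)
      rw [Set.indicator_of_mem hq, Set.indicator_of_mem hq]
      exact Z5_chart hπ P β hχ hb hq (h1 _ hb') (h2 _ hb') (h3 _ hb')
    · show P.O.indicator _ (chartAt F P.c b, w) = P.O.indicator _ (chartAt F P.c b, w)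
      rw [Set.indicator_of_notMem hq, Set.indicator_of_notMem hq]
  have hP : ∫ w : ℂ, P.O.indicator (fun q => Z5 (fderiv ℝ (χ ∘ P.Ψ) q) (tpb β.val P.Ψ q) (U1, 0) (U2, 0) (U3, 0)
        (0, 1) (0, Complex.I)) (y, w) =
      ∫ w : ℂ, (fderiv ℝ (DerG_S P χ β (U2, 0) (U3, 0) (0, 1) (0, Complex.I)) (y, w) (U1, 0) -
        fderiv ℝ (DerG_S P χ β (U1, 0) (U3, 0) (0, 1) (0, Complex.I)) (y, w) (U2, 0) +
        fderiv ℝ (DerG_S P χ β (U1, 0) (U2, 0) (0, 1) (0, Complex.I)) (y, w) (U3, 0) -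
        fderiv ℝ (DerG_S P χ β (U1, 0) (U2, 0) (U3, 0) (0, Complex.I)) (y, w) (0, 1) +
        fderiv ℝ (DerG_S P χ β (U1, 0) (U2, 0) (U3, 0) (0, 1)) (y, w) (0, Complex.I)) := by
    refine integral_congr_ae (Filter.Eventually.of_forall fun w => ?_)
    exact (DerG_point P β hχ hs (y, w) (U1, 0) (U2, 0) (U3, 0) (0, 1) (0, Complex.I)).symm
  have hA : ∫ w : ℂ, fderiv ℝ (DerG_S P χ β (U1, 0) (U3, 0) (0, 1) (0, Complex.I)) (y, w) (U2, 0) =
      - ∫ w : ℂ, fderiv ℝ (DerG_S P χ β (U3, 0) (U1, 0) (0, 1) (0, Complex.I)) (y, w) (U2, 0) := by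
    rw [← integral_neg]
    refine integral_congr_ae (Filter.Eventually.of_forall fun w => ?_)
    show fderiv ℝ (DerG_S P χ β (U1, 0) (U3, 0) (0, 1) (0, Complex.I)) (y, w) (U2, 0) = _
    rw [DerG_anti P χ β (U1, 0) (U3, 0), fderiv_fun_neg]
    rfl
  have hQ := hP.trans (DerG_int5 (hI _ _ _ _ _) (hI _ _ _ _ _) (hI _ _ _ _ _) (hI _ _ _ _ _) (hI _ _ _ _ _))
  rw [hV, hV, hA] at hQ
  rw [← hy, ← hU1, ← hU2, ← hU3, hR, hQ]
  unfold ext2
  rw [DerG_J P β hχ hs, DerG_J P β hχ hs, DerG_J P β hχ hs]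
  ring

end Pool.Agent.FBR
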