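import Pool.Agent.FBR.Defs

/-!
# FBR: local notions (definitions)

`X` is a complex manifold modelled on `E`, `B` one modelled on `F`.  `G` is a real normed space,
`H` a complex normed space (as a real normed space: `NormedSpace.complexToReal`).
The tangent space of `X` at `x` is `E` by means of the preferred chart `chartAt E x`.
-/

set_option autoImplicit false

noncomputable section

open scoped Manifold ContDiff

namespace Pool.Agent.FBR

section Defs

variable (E : Type*) {X : Type*} [NormedAddCommGroup E] [NormedSpace ℂ E] [TopologicalSpace X]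
  [ChartedSpace E X] {G : Type*} [NormedAddCommGroup G] [NormedSpace ℝ G]
  {H : Type*} [NormedAddCommGroup H] [NormedSpace ℂ H]
  (F : Type*) {B : Type*} [NormedAddCommGroup F] [NormedSpace ℂ F] [TopologicalSpace B]
  [ChartedSpace F B]

/-- `f : G → X` is smooth at `q`, in terms of the preferred chart at `f q`. -/
def Sm (f : G → X) (q : G) : Prop :=
  ContinuousAt f q ∧ ContDiffAt ℝ ∞ (chartAt E (f q) ∘ f) q

/-- `f : H → X` is holomorphic at `q`, in terms of the preferred chart at `f q`. -/
def Hol (f : H → X) (q : H) : Prop :=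
  ContinuousAt f q ∧ ContDiffAt ℂ ∞ (chartAt E (f q) ∘ f) q

/-- The derivative of `f : G → X` at `q`, in terms of the preferred chart at `f q`. -/
def dvec (f : G → X) (q : G) : G →L[ℝ] E := fderiv ℝ (chartAt E (f q) ∘ f) q

/-- The derivative of `f : X → B` at `x`, in terms of the preferred charts at `x` and `f x`. -/
def dmap (f : X → B) (x : X) : E →L[ℝ] F :=
  fderiv ℝ (chartAt F (f x) ∘ f ∘ (chartAt E x).symm) (chartAt E x x)

/-- A smooth real function on `X`. -/
def SmF (φ : X → ℝ) : Prop := ∀ x, ContDiffAt ℝ ∞ (φ ∘ (chartAt E x).symm) (chartAt E x x)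

/-- The differential of a real function on `X`, in terms of the preferred chart at `x`. -/
def dF (φ : X → ℝ) (x : X) : E →L[ℝ] ℝ := fderiv ℝ (φ ∘ (chartAt E x).symm) (chartAt E x x)

end Defs

section Lin

variable {G : Type*} [NormedAddCommGroup G] [NormedSpace ℝ G]
  {H : Type*} [NormedAddCommGroup H] [NormedSpace ℂ H]

/-- The exterior derivative of the 2-form `a` vanishes at `q`. -/
def Closed2 (a : G → Bil G) (q : G) : Prop :=
  ∀ u v w : G, fderiv ℝ a q u v w + fderiv ℝ a q v w u + fderiv ℝ a q w u v = 0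

/-- The exterior derivative of the 2-form `a` at `q`. -/
def ext2 (a : G → Bil G) (q : G) (u v w : G) : ℝ :=
  fderiv ℝ a q u v w + fderiv ℝ a q v w u + fderiv ℝ a q w u v

/-- `dd^c φ`, the real `(1,1)`-form with `dd^c φ (u, iu) = (D²φ(u,u) + D²φ(iu,iu)) / 2`. -/
def ddc (φ : H → ℝ) (q : H) : Bil H :=
  (1 / 2 : ℝ) • ((fderiv ℝ (fderiv ℝ φ) q).comp (Complex.I • ContinuousLinearMap.id ℝ H) -
    ((fderiv ℝ (fderiv ℝ φ) q).comp (Complex.I • ContinuousLinearMap.id ℝ H)).flip)

end Lin

end Pool.Agent.FBR
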