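import Pool.Agent.FBR.VP
import Pool.Agent.FBR.Bump
import Pool.Agent.FBR.Push
import Pool.Agent.FBR.Ops
import Pool.Agent.FBR.Alg

/-!
# FBR/Spread: spreading the positivity along a fibre

PROOF PLAN.  `vpos_chart`, `vnn_chart`: `PC.vert_iff`, `PC.dvec_ne`, `hom_of_alt`, `(0, I) = I • (0, 1)`, `Hol.smul_I`, `tpb_apply`.
`vpos_open`: every point of `X` lies in a product chart (`exists_PC`); on `P.O` the function `q ↦ tpb c.val P.Ψ q (0, 1) (0, I)` is continuous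
(`tpb_smooth`); `PC.isOpen_im`.
`spread`: `y = chartAt F P.c b`.  By `vpos_chart` and continuity there are `0 < ε < ρ`, `m > 0` with `tpb c.val P.Ψ (y, w) (0, 1) (0, I) ≥ m` for
`‖w - w0‖ ≤ ε`.  `κ` from `exists_kappa`; `K` with `|ddc κ w 1 I| ≤ K` on the closed disc of radius `ε`; `δ = m / (K + 1) / 2`.  Choose a smooth
`η : F → ℝ` with compact support, `η = 1` near `y`, and `tsupport η ×ˢ closedBall w0 ρ ⊆ P.O` (tube lemma: `generalized_tube_lemma`; `ContDiffBump`).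
`f (y', w) = δ * η y' * κ w` has compact support in `P.O`; `φ` from `exists_push`.  At `q = (y, w) ∈ P.O`:
`tpb (ddcF E φ) P.Ψ q (0, 1) (0, I) = ddc (φ ∘ P.Ψ) q (0, 1) (0, I) = δ * ddc κ w 1 I` (`tpb_ddcF`; near `q`, `φ ∘ P.Ψ = f = (δ κ) ∘ Prod.snd`: `ddc_congr`,
`ddc_comp`, `ddc_smul`).  It is `≥ 0` if `‖w - w0‖ ≥ ε`, and `> 0` if also `‖w - w0‖ < ρ`; for `‖w - w0‖ ≤ ε` the sum with `tpb c.val ..` is `> 0`.
If `x` is over `b` and `x ∉ P.Ψ '' tsupport f` (compact, so closed), then `φ = 0` near `x` and `ddcF E φ x = 0`.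
-/

set_option autoImplicit false

noncomputable section

open scoped Manifold ContDiff Classical

namespace Pool.Agent.FBR

variable {E X : Type*} [NormedAddCommGroup E] [NormedSpace ℂ E] [FiniteDimensional ℂ E]
  [TopologicalSpace X] [ChartedSpace E X] [IsManifold 𝓘(ℂ, E) ω X]
  {F B : Type*} [NormedAddCommGroup F] [NormedSpace ℂ F] [FiniteDimensional ℂ F] [TopologicalSpace B]
  [ChartedSpace F B] [IsManifold 𝓘(ℂ, F) ω B] {π : X → B}

private theorem Spread_tpb (P : PC E F π) (a : X → Bil E) {q : F × ℂ} (hq : q ∈ P.O) :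
    tpb a P.Ψ q (0, 1) (0, Complex.I) =
      a (P.Ψ q) (dvec E P.Ψ q (0, 1)) (Complex.I • dvec E P.Ψ q (0, 1)) := by
  rw [tpb_apply, ← P.dvec_vert hq]

private theorem Spread_vpos (hπ : ContMDiff 𝓘(ℂ, E) 𝓘(ℂ, F) ω π) (P : PC E F π) (a : X → Bil E)
    {q : F × ℂ} (hq : q ∈ P.O) (ha : ∀ u, a (P.Ψ q) u u = 0) :
    VPos F π a (P.Ψ q) ↔ 0 < tpb a P.Ψ q (0, 1) (0, Complex.I) := by
  rw [Spread_tpb P a hq]
  constructor
  · intro h
    exact h _ (P.dvec_ne hq) ((P.vert_iff hπ hq _).2 ⟨1, (one_smul _ _).symm⟩)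
  · intro h ξ hξ hv
    obtain ⟨r, rfl⟩ := (P.vert_iff hπ hq ξ).1 hv
    rw [hom_of_alt ha]
    have hr : r ≠ 0 := by
      rintro rfl
      exact hξ (zero_smul _ _)
    have hr2 : 0 < ‖r‖ ^ 2 := by positivity
    exact mul_pos hr2 h

private theorem Spread_vnn (hπ : ContMDiff 𝓘(ℂ, E) 𝓘(ℂ, F) ω π) (P : PC E F π) (a : X → Bil E)
    {q : F × ℂ} (hq : q ∈ P.O) (ha : ∀ u, a (P.Ψ q) u u = 0) :
    VNn F π a (P.Ψ q) ↔ 0 ≤ tpb a P.Ψ q (0, 1) (0, Complex.I) := by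
  rw [Spread_tpb P a hq]
  constructor
  · intro h
    exact h _ ((P.vert_iff hπ hq _).2 ⟨1, (one_smul _ _).symm⟩)
  · intro h ξ hv
    obtain ⟨r, rfl⟩ := (P.vert_iff hπ hq ξ).1 hv
    rw [hom_of_alt ha]
    exact mul_nonneg (by positivity) h

private theorem Spread_cont (P : PC E F π) (c : Form E X) :
    ContinuousOn (fun q => tpb c.val P.Ψ q (0, 1) (0, Complex.I)) P.O := by
  have h1 := (tpb_smooth c P.isOpen (fun q hq => (P.hol q hq).sm)).continuousOn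
  exact (h1.clm_apply continuousOn_const).clm_apply continuousOn_const

theorem vpos_chart (hπ : ContMDiff 𝓘(ℂ, E) 𝓘(ℂ, F) ω π) (P : PC E F π) (c : Form E X) {q : F × ℂ}
    (hq : q ∈ P.O) : VPos F π c.val (P.Ψ q) ↔ 0 < tpb c.val P.Ψ q (0, 1) (0, Complex.I) := by
  exact Spread_vpos hπ P c.val hq (c.alt _)

theorem vnn_chart (hπ : ContMDiff 𝓘(ℂ, E) 𝓘(ℂ, F) ω π) (P : PC E F π) (c : Form E X) {q : F × ℂ}
    (hq : q ∈ P.O) : VNn F π c.val (P.Ψ q) ↔ 0 ≤ tpb c.val P.Ψ q (0, 1) (0, Complex.I) := by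
  exact Spread_vnn hπ P c.val hq (c.alt _)

theorem vpos_open (h : CurveFib E F π) (c : Form E X) : IsOpen {x | VPos F π c.val x} := by
  rw [isOpen_iff_mem_nhds]
  intro x hx
  obtain ⟨P, -, q0, hq0, rfl⟩ := exists_PC (E := E) (F := F) h x
  have h1 : IsOpen (P.O ∩ (fun q => tpb c.val P.Ψ q (0, 1) (0, Complex.I)) ⁻¹' Set.Ioi 0) :=
    (Spread_cont P c).isOpen_inter_preimage P.isOpen isOpen_Ioi
  have h2 := P.isOpen_im h1 Set.inter_subset_left
  refine Filter.mem_of_superset (h2.mem_nhds ⟨q0, ⟨hq0, ?_⟩, rfl⟩) ?_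
  · exact (vpos_chart h.hol P c hq0).1 hx
  · rintro _ ⟨q, ⟨hq, hq'⟩, rfl⟩
    exact (vpos_chart h.hol P c hq).2 hq'

omit [FiniteDimensional ℂ E] [IsManifold 𝓘(ℂ, E) ω X] in
private theorem Spread_ddcF_zero {φ : X → ℝ} {x : X} (h : ∀ᶠ z in nhds x, φ z = 0) : ddcF E φ x = 0 := by
  have h2 : Filter.Tendsto (chartAt E x).symm (nhds (chartAt E x x)) (nhds x) := by
    have h := (chartAt E x).continuousAt_symm (mem_chart_target E x)
    rwa [ContinuousAt, (chartAt E x).left_inv (mem_chart_source E x)] at h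
  have h3 : φ ∘ (chartAt E x).symm =ᶠ[nhds (chartAt E x x)] fun _ => (0 : ℝ) := h2.eventually h
  unfold ddcF
  rw [ddc_congr h3]
  have h4 : fderiv ℝ (fun _ : E => (0 : ℝ)) = fun _ => 0 := by
    funext y
    exact fderiv_const_apply 0
  ext u v
  rw [ddc_apply, h4]
  have h5 : fderiv ℝ (fun _ : E => (0 : E →L[ℝ] ℝ)) (chartAt E x x) = 0 := fderiv_const_apply 0
  rw [h5]
  simp

/-- the radius `ε` and the lower bound `m` -/
private theorem Spread_eps {g : ℂ → ℝ} {w0 : ℂ} {ρ : ℝ} (hρ : 0 < ρ) (hg : ContinuousAt g w0) (h0 : 0 < g w0) :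
    ∃ ε m : ℝ, 0 < ε ∧ ε < ρ ∧ 0 < m ∧ ∀ w, ‖w - w0‖ ≤ ε → m ≤ g w := by
  have h1 : ∀ᶠ w in nhds w0, g w0 / 2 < g w := hg.eventually (lt_mem_nhds (by linarith))
  obtain ⟨r, hr, hr'⟩ := Metric.eventually_nhds_iff.1 h1
  refine ⟨min r ρ / 2, g w0 / 2, by positivity, ?_, by positivity, ?_⟩
  · have h2 := min_le_right r ρ
    have h3 : 0 < min r ρ := lt_min hr hρ
    linarith
  · intro w hw
    refine (hr' ?_).le
    rw [dist_eq_norm]
    have h2 := min_le_left r ρ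
    have h3 : 0 < min r ρ := lt_min hr hρ
    linarith

/-- the factor `δ` -/
private theorem Spread_del {κ : ℂ → ℝ} (hκ : ContDiff ℝ ∞ κ) (w0 : ℂ) (ε : ℝ) {m : ℝ} (hm : 0 < m) :
    ∃ δ : ℝ, 0 < δ ∧ ∀ w, ‖w - w0‖ ≤ ε → -m < δ * ddc κ w 1 (Complex.I • (1 : ℂ)) := by
  have h1 : Continuous fun w => ddc κ w 1 (Complex.I • (1 : ℂ)) := by
    have h2 : Continuous (ddc κ) :=
      continuous_iff_continuousAt.2 fun w => (ddc_smooth (hκ.contDiffAt (x := w))).continuousAt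
    exact (h2.clm_apply continuous_const).clm_apply continuous_const
  obtain ⟨K, hK⟩ := (isCompact_closedBall w0 ε).exists_bound_of_continuousOn h1.continuousOn
  refine ⟨m / (|K| + 1) / 2, by positivity, fun w hw => ?_⟩
  have h2 : |ddc κ w 1 (Complex.I • (1 : ℂ))| ≤ |K| + 1 := by
    have h3 := hK w (by rw [Metric.mem_closedBall, dist_eq_norm]; exact hw)
    rw [Real.norm_eq_abs] at h3
    have h4 := le_abs_self K
    linarith
  have h3 : 0 < |K| + 1 := by positivity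
  have h4 : m / (|K| + 1) / 2 * |ddc κ w 1 (Complex.I • (1 : ℂ))| ≤ m / 2 := by
    calc m / (|K| + 1) / 2 * |ddc κ w 1 (Complex.I • (1 : ℂ))| ≤ m / (|K| + 1) / 2 * (|K| + 1) :=
          mul_le_mul_of_nonneg_left h2 (by positivity)
      _ = m / 2 := by field_simp
  have h5 := neg_abs_le (ddc κ w 1 (Complex.I • (1 : ℂ)))
  have h6 : m / (|K| + 1) / 2 * (-|ddc κ w 1 (Complex.I • (1 : ℂ))|) ≤
      m / (|K| + 1) / 2 * ddc κ w 1 (Complex.I • (1 : ℂ)) :=
    mul_le_mul_of_nonneg_left h5 (by positivity)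
  linarith

/-- the cut off function of the base -/
private theorem Spread_eta {F : Type*} [NormedAddCommGroup F] [NormedSpace ℂ F] [FiniteDimensional ℂ F]
    {O : Set (F × ℂ)} (hO : IsOpen O) (y : F) {K : Set ℂ} (hK : IsCompact K) (h : ∀ w ∈ K, (y, w) ∈ O) :
    ∃ η : F → ℝ, ContDiff ℝ ∞ η ∧ HasCompactSupport η ∧ η =ᶠ[nhds y] (fun _ => 1) ∧
      tsupport η ×ˢ K ⊆ O := by
  obtain ⟨u, v, hu, -, hyu, hKv, huv⟩ := generalized_tube_lemma (isCompact_singleton (x := y)) hK hO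
    (by
      rintro ⟨a, b⟩ ⟨ha, hb⟩
      rw [Set.mem_singleton_iff] at ha
      dsimp only at ha hb
      subst ha
      exact h b hb)
  obtain ⟨r, hr, hru⟩ := Metric.nhds_basis_closedBall.mem_iff.1 (hu.mem_nhds (hyu rfl))
  let f : ContDiffBump y := ⟨r / 2, r, by positivity, by linarith⟩
  refine ⟨f, f.contDiff, f.hasCompactSupport, f.eventuallyEq_one, ?_⟩
  rw [f.tsupport_eq]
  exact (Set.prod_mono hru hKv).trans huv

/-- the function on the product chart -/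
private theorem Spread_f {F : Type*} [NormedAddCommGroup F] [NormedSpace ℂ F] [FiniteDimensional ℂ F]
    {η : F → ℝ} (hη : ContDiff ℝ ∞ η) (hηc : HasCompactSupport η) {κ : ℂ → ℝ} (hκ : ContDiff ℝ ∞ κ)
    {K : Set ℂ} (hK : IsCompact K) (hκK : tsupport κ ⊆ K) (δ : ℝ) :
    ContDiff ℝ ∞ (fun q : F × ℂ => δ * η q.1 * κ q.2) ∧
      tsupport (fun q : F × ℂ => δ * η q.1 * κ q.2) ⊆ tsupport η ×ˢ K ∧
      HasCompactSupport (fun q : F × ℂ => δ * η q.1 * κ q.2) := by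
  have h1 : IsCompact (tsupport η ×ˢ K) := hηc.prod hK
  have h2 : tsupport (fun q : F × ℂ => δ * η q.1 * κ q.2) ⊆ tsupport η ×ˢ K := by
    refine closure_minimal ?_ h1.isClosed
    intro q hq
    rw [Function.mem_support] at hq
    refine ⟨subset_tsupport η ?_, hκK (subset_tsupport κ ?_)⟩
    · intro h0
      apply hq
      rw [h0, mul_zero, zero_mul]
    · intro h0
      apply hq
      rw [h0, mul_zero]
  refine ⟨?_, h2, h1.of_isClosed_subset (isClosed_tsupport _) h2⟩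
  exact (contDiff_const.mul (hη.comp contDiff_fst)).mul (hκ.comp contDiff_snd)

/-- `dd^c` of the function on the product chart over the centre -/
private theorem Spread_ddc {F : Type*} [NormedAddCommGroup F] [NormedSpace ℂ F]
    {η : F → ℝ} {y : F} (hηy : η =ᶠ[nhds y] (fun _ => 1)) {κ : ℂ → ℝ} (hκ : ContDiff ℝ ∞ κ) (δ : ℝ) (w : ℂ) :
    ddc (fun q : F × ℂ => δ * η q.1 * κ q.2) (y, w) (0, 1) (0, Complex.I) =
      δ * ddc κ w 1 (Complex.I • (1 : ℂ)) := by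
  have h1 : (fun q : F × ℂ => δ * η q.1 * κ q.2) =ᶠ[nhds (y, w)] (fun w => δ * κ w) ∘ Prod.snd := by
    have h2 : ∀ᶠ q : F × ℂ in nhds (y, w), η q.1 = 1 :=
      (continuousAt_fst (p := (y, w))).eventually (show ∀ᶠ z in nhds ((y, w) : F × ℂ).1, η z = 1 from hηy)
    filter_upwards [h2] with q hq
    rw [hq, mul_one]
    rfl
  have hκ2 : ContDiffAt ℝ 2 κ w := hκ.contDiffAt.of_le (WithTop.coe_le_coe.2 (le_top : (2 : ℕ∞) ≤ ⊤))
  have h3 := ddc_comp (φ := fun w => δ * κ w) (k := (Prod.snd : F × ℂ → ℂ)) (q := (y, w))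
    (contDiffAt_const.mul hκ2) contDiffAt_snd
  rw [ddc_congr h1, h3, ddc_smul δ hκ2, ContinuousLinearMap.bilinearComp_apply, fderiv_snd]
  simp

variable [CompactSpace X] [T2Space X]

theorem spread (h : CurveFib E F π) (c : Form E X) (b : B) (P : PC E F π) (hb : b ∈ (chartAt F P.c).source)
    (w0 : ℂ) (ρ : ℝ) (hρ : 0 < ρ) (hball : ∀ w, ‖w - w0‖ ≤ ρ → (chartAt F P.c b, w) ∈ P.O)
    (hnn : ∀ x, π x = b → VNn F π c.val x) (hp : VPos F π c.val (P.Ψ (chartAt F P.c b, w0))) :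
    ∃ φ : X → ℝ, SmF E φ ∧ (∀ x, π x = b → VNn F π (fun x => c.val x + ddcF E φ x) x) ∧
      ∀ w, ‖w - w0‖ < ρ → VPos F π (fun x => c.val x + ddcF E φ x) (P.Ψ (chartAt F P.c b, w)) := by
  set y : F := chartAt F P.c b with hy
  have hπ := h.hol
  have hΨb : ∀ w, (y, w) ∈ P.O → π (P.Ψ (y, w)) = b := by
    intro w hw
    rw [P.proj _ hw]
    exact (chartAt F P.c).left_inv hb
  have hw0 : (y, w0) ∈ P.O := hball w0 (by rw [sub_self, norm_zero]; exact hρ.le)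
  -- the continuous function
  have hgc : ContinuousAt (fun w : ℂ => tpb c.val P.Ψ (y, w) (0, 1) (0, Complex.I)) w0 := by
    have h1 : ContinuousAt (fun q => tpb c.val P.Ψ q (0, 1) (0, Complex.I)) (y, w0) :=
      (Spread_cont P c).continuousAt (P.isOpen.mem_nhds hw0)
    exact ContinuousAt.comp (f := fun w : ℂ => (y, w)) (x := w0) h1
      (Continuous.continuousAt (by fun_prop))
  obtain ⟨ε, m, hε, hερ, hm, hm'⟩ := Spread_eps hρ hgc ((vpos_chart hπ P c hw0).1 hp)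
  obtain ⟨κ, hκ, hκs, hκ1, hκ2⟩ := exists_kappa hε hερ w0
  obtain ⟨δ, hδ, hδ'⟩ := Spread_del hκ w0 ε hm
  obtain ⟨η, hη, hηc, hη1, hηO⟩ := Spread_eta P.isOpen y (isCompact_closedBall w0 ρ) (fun w hw => by
    rw [Metric.mem_closedBall, dist_eq_norm] at hw
    exact hball w hw)
  obtain ⟨hf, hfs, hfc⟩ := Spread_f hη hηc hκ (isCompact_closedBall w0 ρ) hκs δ
  obtain ⟨φ, hφ, hφ1, hφ2⟩ := exists_push h P hf hfc (hfs.trans hηO)
  have halt : ∀ x u, c.val x u u + ddcF E φ x u u = 0 := by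
    intro x u
    have h1 : ddcF E φ x u u = 0 := ddc_alt _ _ _
    rw [c.alt, h1, add_zero]
  have hT : ∀ w, (y, w) ∈ P.O → tpb (fun x => c.val x + ddcF E φ x) P.Ψ (y, w) (0, 1) (0, Complex.I) =
      tpb c.val P.Ψ (y, w) (0, 1) (0, Complex.I) + δ * ddc κ w 1 (Complex.I • (1 : ℂ)) := by
    intro w hw
    have h1 : tpb (fun x => c.val x + ddcF E φ x) P.Ψ (y, w) (0, 1) (0, Complex.I) =
        tpb c.val P.Ψ (y, w) (0, 1) (0, Complex.I) +
        tpb (ddcF E φ) P.Ψ (y, w) (0, 1) (0, Complex.I) := rfl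
    have h2 : φ ∘ P.Ψ =ᶠ[nhds (y, w)] fun q : F × ℂ => δ * η q.1 * κ q.2 := by
      filter_upwards [P.isOpen.mem_nhds hw] with q hq
      exact hφ1 q hq
    rw [h1, tpb_ddcF hφ (P.hol _ hw), ddc_congr h2, Spread_ddc hη1 hκ]
  have hnn' : ∀ w, (y, w) ∈ P.O → 0 ≤ tpb c.val P.Ψ (y, w) (0, 1) (0, Complex.I) := fun w hw =>
    (vnn_chart hπ P c hw).1 (hnn _ (hΨb w hw))
  have hT0 : ∀ w, (y, w) ∈ P.O →
      0 ≤ tpb (fun x => c.val x + ddcF E φ x) P.Ψ (y, w) (0, 1) (0, Complex.I) := by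
    intro w hw
    rw [hT w hw]
    by_cases h1 : ε ≤ ‖w - w0‖
    · exact add_nonneg (hnn' w hw) (mul_nonneg hδ.le (hκ1 w h1))
    · have h2 := hm' w (not_le.1 h1).le
      have h3 := hδ' w (not_le.1 h1).le
      linarith
  refine ⟨φ, hφ, ?_, ?_⟩
  · intro x hx
    by_cases hxO : x ∈ P.Ψ '' P.O
    · obtain ⟨q, hq, rfl⟩ := hxO
      have h1 : q = (y, q.2) := by
        refine Prod.ext ?_ rfl
        rw [← (P.base hq).2, hx]
      rw [h1] at hq ⊢
      exact (Spread_vnn hπ P _ hq (halt _)).2 (hT0 q.2 hq)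
    · have hcont : ContinuousOn P.Ψ P.O := fun q hq => (P.hol q hq).1.continuousWithinAt
      have hKc : IsCompact (P.Ψ '' tsupport (fun q : F × ℂ => δ * η q.1 * κ q.2)) :=
        IsCompact.image_of_continuousOn hfc (hcont.mono (hfs.trans hηO))
      have hxK : x ∉ P.Ψ '' tsupport (fun q : F × ℂ => δ * η q.1 * κ q.2) := fun hh =>
        hxO (Set.image_mono (hfs.trans hηO) hh)
      have h0 : ∀ᶠ z in nhds x, φ z = 0 := by
        filter_upwards [hKc.isClosed.isOpen_compl.mem_nhds hxK] with z hz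
        by_cases hzO : z ∈ P.Ψ '' P.O
        · obtain ⟨q, hq, rfl⟩ := hzO
          rw [hφ1 q hq]
          exact image_eq_zero_of_notMem_tsupport (f := fun q : F × ℂ => δ * η q.1 * κ q.2)
            fun hh => hz ⟨q, hh, rfl⟩
        · exact hφ2 z hzO
      intro ξ hξ
      show 0 ≤ c.val x ξ (Complex.I • ξ) + ddcF E φ x ξ (Complex.I • ξ)
      have h4 : ddcF E φ x ξ (Complex.I • ξ) = 0 := by
        rw [Spread_ddcF_zero h0]
        rfl
      rw [h4, add_zero]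
      exact hnn x hx ξ hξ
  · intro w hw
    have hwO := hball w hw.le
    refine (Spread_vpos hπ P _ hwO (halt _)).2 ?_
    rw [hT w hwO]
    by_cases h1 : ε ≤ ‖w - w0‖
    · exact add_pos_of_nonneg_of_pos (hnn' w hwO) (mul_pos hδ (hκ2 w h1 hw))
    · have h2 := hm' w (not_le.1 h1).le
      have h3 := hδ' w (not_le.1 h1).le
      linarith

end Pool.Agent.FBR
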