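import Pool.Agent.FBR.Prod

/-!
# FBR/Trans: the integral of a vertical density does not depend on the product chart

PROOF PLAN.  Let `y = chartAt F P.c b`, `y' = chartAt F P'.c b` (if `b` is not in both sources, there is no point `x` over `b` in
both images, so both sides vanish: the integrands are `0`).  `S = {w | (y, w) ∈ P.O ∧ P.Ψ (y, w) ∈ P'.Ψ '' P'.O}` is open, and for
`w ∈ S` there is a unique `ρ w` with `(y', ρ w) ∈ P'.O`, `P'.Ψ (y', ρ w) = P.Ψ (y, w)` (`P'.inj`; the first component of the point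
of `P'.O` is `chartAt F P'.c b = y'` by `PC.base`).  `ρ` is injective on `S` with image the corresponding set `S'`, and it is
holomorphic at the points of `S`: by `hol_inv` for `P'.Ψ` (chart `p = P'.Ψ q'`) there is `k : E → F × ℂ` with
`P'.Ψ (k z) = (chartAt E p).symm z`, `k z ∈ P'.O`; so near `w`, `(y', ρ w) = k (chartAt E p (P.Ψ (y, w)))`.  Its derivative is
multiplication by some `r w : ℂ` and `dvec E P.Ψ (y, w) (0, 1) = r w • dvec E P'.Ψ (y', ρ w) (0, 1)` (derive `P'.Ψ (y', ρ w) = P.Ψ (y, w)`: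
`dvec_comp`, `PC.dvec_vert`).  The real determinant of the multiplication by `r` is `‖r‖ ^ 2`
(`Complex.det_...`/`LinearMap.det` of `Algebra.lmul`: matrix `!![re, -im; im, re]`).  Change of variables:
`MeasureTheory.integral_image_eq_integral_abs_det_fderiv_smul volume hS (hρ') hinj (fun w' => D (P'.Ψ (y', w')) (dvec E P'.Ψ (y', w') (0,1)))`,
and `D x (r • ξ) = ‖r‖ ^ 2 * D x ξ`.  Both integrands vanish off `S`, `S'` by `h0`.
`trans_integrable`: the same with `integrableOn_image_iff_integrableOn_abs_det_fderiv_smul`.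
-/

set_option autoImplicit false

noncomputable section

open scoped Manifold ContDiff Classical

open MeasureTheory

namespace Pool.Agent.FBR

variable {E X : Type*} [NormedAddCommGroup E] [NormedSpace ℂ E] [FiniteDimensional ℂ E]
  [TopologicalSpace X] [ChartedSpace E X] [IsManifold 𝓘(ℂ, E) ω X]
  {F B : Type*} [NormedAddCommGroup F] [NormedSpace ℂ F] [FiniteDimensional ℂ F] [TopologicalSpace B]
  [ChartedSpace F B] [IsManifold 𝓘(ℂ, F) ω B] {π : X → B}

omit [FiniteDimensional ℂ E] [IsManifold 𝓘(ℂ, E) ω X] [FiniteDimensional ℂ F] [IsManifold 𝓘(ℂ, F) ω B] in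
private theorem t_base (P : PC E F π) {b : B} (hb : b ∈ (chartAt F P.c).source) {w : ℂ}
    (hw : (chartAt F P.c b, w) ∈ P.O) : π (P.Ψ (chartAt F P.c b, w)) = b := by
  rw [P.proj _ hw, (chartAt F P.c).left_inv hb]

/-- the part of the fibre over `b` in both product charts, in the coordinate of `P` -/
private def SS (P P' : PC E F π) (b : B) : Set ℂ :=
  {w | (chartAt F P.c b, w) ∈ P.O ∧ P.Ψ (chartAt F P.c b, w) ∈ P'.Ψ '' P'.O}

private theorem t_ex (P P' : PC E F π) {b : B} (hb : b ∈ (chartAt F P.c).source) {w : ℂ}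
    (hw : w ∈ SS P P' b) :
    ∃ w' : ℂ, (chartAt F P'.c b, w') ∈ P'.O ∧
      P'.Ψ (chartAt F P'.c b, w') = P.Ψ (chartAt F P.c b, w) := by
  obtain ⟨hw1, q, hq, hqe⟩ := hw
  have h1 := (P'.base hq).2
  rw [hqe, t_base P hb hw1] at h1
  refine ⟨q.2, ?_, ?_⟩
  · rw [h1]
    exact hq
  · rw [h1]
    exact hqe

/-- local holomorphic transition map -/
private theorem t_loc (P P' : PC E F π) {b : B} (hb : b ∈ (chartAt F P.c).source) {w : ℂ}
    (hw : w ∈ SS P P' b) :
    ∃ κ : ℂ → F × ℂ, ContDiffAt ℂ ∞ κ w ∧ ∀ᶠ w1 in nhds w, (chartAt F P.c b, w1) ∈ P.O ∧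
      κ w1 ∈ P'.O ∧ P'.Ψ (κ w1) = P.Ψ (chartAt F P.c b, w1) := by
  obtain ⟨w', hO', he⟩ := t_ex P P' hb hw
  obtain ⟨W, k, hW, hmW, hWt, -, hk⟩ := hol_inv P'.isOpen P'.hol hO' (P'.bij _ hO')
    (p := P'.Ψ (chartAt F P'.c b, w')) (mem_chart_source E _)
  rw [he] at hmW hWt hk
  have hc : Continuous fun w1 : ℂ => (chartAt F P.c b, w1) := by fun_prop
  have hΨ := P.hol _ hw.1
  have hγ : ContinuousAt (fun w1 : ℂ => P.Ψ (chartAt F P.c b, w1)) w :=
    ContinuousAt.comp (f := fun w1 : ℂ => (chartAt F P.c b, w1)) (g := P.Ψ) hΨ.1 hc.continuousAt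
  refine ⟨fun w1 => k (chartAt E (P.Ψ (chartAt F P.c b, w)) (P.Ψ (chartAt F P.c b, w1))), ?_, ?_⟩
  · have h1 : ContDiffAt ℂ ∞ (fun w1 : ℂ => chartAt E (P.Ψ (chartAt F P.c b, w))
        (P.Ψ (chartAt F P.c b, w1))) w :=
      ContDiffAt.comp (g := chartAt E (P.Ψ (chartAt F P.c b, w)) ∘ P.Ψ)
        (f := fun w1 : ℂ => (chartAt F P.c b, w1)) w hΨ.2 (by fun_prop)
    exact ContDiffAt.comp (g := k) w (hk _ hmW).2.2 h1
  · have e1 : ∀ᶠ w1 in nhds w, (chartAt F P.c b, w1) ∈ P.O :=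
      hc.continuousAt.eventually (P.isOpen.mem_nhds hw.1)
    have e2 : ∀ᶠ w1 in nhds w, P.Ψ (chartAt F P.c b, w1) ∈
        (chartAt E (P.Ψ (chartAt F P.c b, w))).source :=
      hγ.eventually ((chartAt E _).open_source.mem_nhds (mem_chart_source E _))
    have e3 : ∀ᶠ w1 in nhds w, chartAt E (P.Ψ (chartAt F P.c b, w))
        (P.Ψ (chartAt F P.c b, w1)) ∈ W := by
      have h1 : ContinuousAt (fun w1 : ℂ => chartAt E (P.Ψ (chartAt F P.c b, w))
          (P.Ψ (chartAt F P.c b, w1))) w :=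
        ContinuousAt.comp (g := chartAt E (P.Ψ (chartAt F P.c b, w)))
          ((chartAt E _).continuousAt (mem_chart_source E _)) hγ
      exact h1.eventually (hW.mem_nhds hmW)
    filter_upwards [e1, e2, e3] with w1 h1 h2 h3
    obtain ⟨h4, h5, -⟩ := hk _ h3
    exact ⟨h1, h4, by rw [h5, (chartAt E _).left_inv h2]⟩

private theorem t_open (P P' : PC E F π) {b : B} (hb : b ∈ (chartAt F P.c).source) :
    IsOpen (SS P P' b) := by
  rw [isOpen_iff_mem_nhds]
  intro w hw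
  obtain ⟨κ, -, h⟩ := t_loc P P' hb hw
  filter_upwards [h] with w1 h1
  exact ⟨h1.1, _, h1.2.1, h1.2.2⟩

/-- the transition map -/
private def rho (P P' : PC E F π) (b : B) (w : ℂ) : ℂ :=
  if h : ∃ w' : ℂ, (chartAt F P'.c b, w') ∈ P'.O ∧
      P'.Ψ (chartAt F P'.c b, w') = P.Ψ (chartAt F P.c b, w) then h.choose else 0

private theorem rho_spec (P P' : PC E F π) {b : B} (hb : b ∈ (chartAt F P.c).source) {w : ℂ}
    (hw : w ∈ SS P P' b) : (chartAt F P'.c b, rho P P' b w) ∈ P'.O ∧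
      P'.Ψ (chartAt F P'.c b, rho P P' b w) = P.Ψ (chartAt F P.c b, w) := by
  have h := t_ex P P' hb hw
  unfold rho
  rw [dif_pos h]
  exact h.choose_spec

private theorem rho_uniq (P P' : PC E F π) {b : B} (hb : b ∈ (chartAt F P.c).source) {w : ℂ}
    (hw : w ∈ SS P P' b) {q : F × ℂ} (hq : q ∈ P'.O) (he : P'.Ψ q = P.Ψ (chartAt F P.c b, w)) :
    q = (chartAt F P'.c b, rho P P' b w) := by
  obtain ⟨h1, h2⟩ := rho_spec P P' hb hw
  exact P'.inj hq h1 (he.trans h2.symm)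

private theorem rho_ev (P P' : PC E F π) {b : B} (hb : b ∈ (chartAt F P.c).source) {w : ℂ}
    (hw : w ∈ SS P P' b) : ∃ r : ℂ, HasDerivAt (rho P P' b) r w := by
  obtain ⟨κ, hκ, h⟩ := t_loc P P' hb hw
  have h1 : rho P P' b =ᶠ[nhds w] fun w1 => (κ w1).2 := by
    filter_upwards [h] with w1 h2
    have h3 := rho_uniq P P' hb (w := w1) ⟨h2.1, _, h2.2.1, h2.2.2⟩ h2.2.1 h2.2.2
    rw [h3]
  have h2 : DifferentiableAt ℂ (fun w1 => (κ w1).2) w :=
    (hκ.differentiableAt (by simp)).snd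
  exact ⟨_, (h2.hasDerivAt).congr_of_eventuallyEq h1⟩

/-- the derivative of the transition map -/
private def rr (P P' : PC E F π) (b : B) (w : ℂ) : ℂ := deriv (rho P P' b) w

private theorem rho_deriv (P P' : PC E F π) {b : B} (hb : b ∈ (chartAt F P.c).source) {w : ℂ}
    (hw : w ∈ SS P P' b) : HasDerivAt (rho P P' b) (rr P P' b w) w := by
  obtain ⟨r, hr⟩ := rho_ev P P' hb hw
  unfold rr
  rw [hr.deriv]
  exact hr

private theorem rho_fderiv (P P' : PC E F π) {b : B} (hb : b ∈ (chartAt F P.c).source) {w : ℂ}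
    (hw : w ∈ SS P P' b) :
    HasFDerivAt (rho P P' b) (ContinuousLinearMap.mul ℝ ℂ (rr P P' b w)) w := by
  have h := (rho_deriv P P' hb hw).complexToReal_fderiv
  have h2 : (rr P P' b w) • (1 : ℂ →L[ℝ] ℂ) = ContinuousLinearMap.mul ℝ ℂ (rr P P' b w) := by
    ext
    simp
  rwa [h2] at h

private theorem t_det (r : ℂ) : (ContinuousLinearMap.mul ℝ ℂ r).det = ‖r‖ ^ 2 := by
  rw [← Complex.normSq_eq_norm_sq, ← Algebra.norm_complex_apply, Algebra.norm_apply]
  rfl

private theorem t_vec (P P' : PC E F π) {b : B} (hb : b ∈ (chartAt F P.c).source) {w : ℂ}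
    (hw : w ∈ SS P P' b) :
    dvec E P.Ψ (chartAt F P.c b, w) (0, 1) =
      rr P P' b w • dvec E P'.Ψ (chartAt F P'.c b, rho P P' b w) (0, 1) := by
  obtain ⟨hO, he⟩ := rho_spec P P' hb hw
  have hd1 : HasFDerivAt (fun w1 : ℂ => (chartAt F P.c b, w1))
      ((0 : ℂ →L[ℝ] F).prod (ContinuousLinearMap.id ℝ ℂ)) w :=
    (hasFDerivAt_const _ _).prodMk (hasFDerivAt_id _)
  have hd2 : HasFDerivAt (fun w1 : ℂ => (chartAt F P'.c b, rho P P' b w1))
      ((0 : ℂ →L[ℝ] F).prod (ContinuousLinearMap.mul ℝ ℂ (rr P P' b w))) w :=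
    (hasFDerivAt_const _ _).prodMk (rho_fderiv P P' hb hw)
  have h1 : dvec E (P.Ψ ∘ fun w1 : ℂ => (chartAt F P.c b, w1)) w =
      dvec E (P'.Ψ ∘ fun w1 : ℂ => (chartAt F P'.c b, rho P P' b w1)) w := by
    have hev : (P'.Ψ ∘ fun w1 : ℂ => (chartAt F P'.c b, rho P P' b w1)) =ᶠ[nhds w]
        (P.Ψ ∘ fun w1 : ℂ => (chartAt F P.c b, w1)) := by
      filter_upwards [(t_open P P' hb).mem_nhds hw] with w1 hw1
      exact (rho_spec P P' hb hw1).2
    unfold dvec
    have h0 : (P'.Ψ ∘ fun w1 : ℂ => (chartAt F P'.c b, rho P P' b w1)) w =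
        (P.Ψ ∘ fun w1 : ℂ => (chartAt F P.c b, w1)) w := he
    rw [h0]
    exact (hev.fun_comp _).fderiv_eq.symm
  rw [dvec_comp (k := fun w1 : ℂ => (chartAt F P.c b, w1)) (P.hol _ hw.1).sm hd1.differentiableAt,
    dvec_comp (k := fun w1 : ℂ => (chartAt F P'.c b, rho P P' b w1)) (P'.hol _ hO).sm
      hd2.differentiableAt, hd1.fderiv, hd2.fderiv] at h1
  have h2 := congrArg (fun L : ℂ →L[ℝ] E => L 1) h1
  simp only [ContinuousLinearMap.comp_apply, ContinuousLinearMap.prod_apply,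
    ContinuousLinearMap.zero_apply, ContinuousLinearMap.id_apply, ContinuousLinearMap.mul_apply',
    mul_one] at h2
  rw [h2, P'.dvec_vert hO]

private theorem t_inj (P P' : PC E F π) {b : B} (hb : b ∈ (chartAt F P.c).source) :
    Set.InjOn (rho P P' b) (SS P P' b) := by
  intro w hw w' hw' h
  have h1 := (rho_spec P P' hb hw).2
  rw [h, (rho_spec P P' hb hw').2] at h1
  have h2 := P.inj hw'.1 hw.1 h1
  exact (congrArg Prod.snd h2).symm

private theorem t_image (P P' : PC E F π) {b : B} (hb : b ∈ (chartAt F P.c).source)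
    (hb' : b ∈ (chartAt F P'.c).source) : rho P P' b '' SS P P' b = SS P' P b := by
  ext w'
  constructor
  · rintro ⟨w, hw, rfl⟩
    obtain ⟨h1, h2⟩ := rho_spec P P' hb hw
    exact ⟨h1, _, hw.1, h2.symm⟩
  · intro hw'
    obtain ⟨w, hw, he⟩ := t_ex P' P hb' hw'
    have hwS : w ∈ SS P P' b := ⟨hw, _, hw'.1, he.symm⟩
    refine ⟨w, hwS, ?_⟩
    have h1 := rho_uniq P P' hb hwS hw'.1 he.symm
    exact (congrArg Prod.snd h1).symm

/-- the integrand -/
private def gg (P : PC E F π) (D : X → E → ℝ) (b : B) (w : ℂ) : ℝ :=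
  D (P.Ψ (chartAt F P.c b, w)) (dvec E P.Ψ (chartAt F P.c b, w) (0, 1))

private theorem t_gg (P P' : PC E F π) (D : X → E → ℝ)
    (hom : ∀ (x : X) (ξ : E) (r : ℂ), D x (r • ξ) = ‖r‖ ^ 2 * D x ξ) {b : B}
    (hb : b ∈ (chartAt F P.c).source) {w : ℂ} (hw : w ∈ SS P P' b) :
    gg P D b w = |(ContinuousLinearMap.mul ℝ ℂ (rr P P' b w)).det| • gg P' D b (rho P P' b w) := by
  unfold gg
  rw [t_vec P P' hb hw, hom, t_det, (rho_spec P P' hb hw).2, abs_of_nonneg (by positivity),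
    smul_eq_mul]

private theorem t_ind (P P' : PC E F π) (D : X → E → ℝ) {b : B}
    (hb : b ∈ (chartAt F P.c).source)
    (h0 : ∀ x, π x = b → (x ∉ P.Ψ '' P.O ∨ x ∉ P'.Ψ '' P'.O) → ∀ ξ, D x ξ = 0) :
    (fun w : ℂ => P.O.indicator (fun q => D (P.Ψ q) (dvec E P.Ψ q (0, 1))) (chartAt F P.c b, w)) =
      (SS P P' b).indicator (gg P D b) := by
  funext w
  by_cases hw : w ∈ SS P P' b
  · rw [Set.indicator_of_mem hw, Set.indicator_of_mem hw.1]
    rfl
  · rw [Set.indicator_of_notMem hw]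
    by_cases hO : (chartAt F P.c b, w) ∈ P.O
    · rw [Set.indicator_of_mem hO]
      exact h0 _ (t_base P hb hO) (Or.inr fun h => hw ⟨hO, h⟩) _
    · rw [Set.indicator_of_notMem hO]

private theorem t_zero (P P' : PC E F π) (D : X → E → ℝ) {b : B}
    (hb' : b ∉ (chartAt F P'.c).source)
    (h0 : ∀ x, π x = b → (x ∉ P.Ψ '' P.O ∨ x ∉ P'.Ψ '' P'.O) → ∀ ξ, D x ξ = 0) :
    fi P D b = 0 := by
  unfold fi
  split_ifs with hb
  · rw [t_ind P P' D hb h0]
    have h1 : SS P P' b = ∅ := by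
      rw [Set.eq_empty_iff_forall_notMem]
      rintro w ⟨hw, q, hq, he⟩
      have h2 := (P'.base hq).1
      rw [he, t_base P hb hw] at h2
      exact hb' h2
    rw [h1, Set.indicator_empty]
    simp
  · rfl

theorem transfer (P P' : PC E F π) (D : X → E → ℝ)
    (hom : ∀ (x : X) (ξ : E) (r : ℂ), D x (r • ξ) = ‖r‖ ^ 2 * D x ξ) (b : B)
    (h0 : ∀ x, π x = b → (x ∉ P.Ψ '' P.O ∨ x ∉ P'.Ψ '' P'.O) → ∀ ξ, D x ξ = 0) :
    fi P D b = fi P' D b := by
  by_cases hb : b ∈ (chartAt F P.c).source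
  · by_cases hb' : b ∈ (chartAt F P'.c).source
    · have h0' : ∀ x, π x = b → (x ∉ P'.Ψ '' P'.O ∨ x ∉ P.Ψ '' P.O) → ∀ ξ, D x ξ = 0 :=
        fun x hx h => h0 x hx h.symm
      unfold fi
      rw [if_pos hb, if_pos hb', t_ind P P' D hb h0, t_ind P' P D hb' h0',
        integral_indicator (t_open P P' hb).measurableSet,
        integral_indicator (t_open P' P hb').measurableSet, ← t_image P P' hb hb',
        integral_image_eq_integral_abs_det_fderiv_smul volume (t_open P P' hb).measurableSet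
          (fun w hw => (rho_fderiv P P' hb hw).hasFDerivWithinAt) (t_inj P P' hb)]
      exact setIntegral_congr_fun (t_open P P' hb).measurableSet
        fun w hw => t_gg P P' D hom hb hw
    · rw [t_zero P P' D hb' h0]
      unfold fi
      rw [if_neg hb']
  · rw [t_zero P' P D hb fun x hx h => h0 x hx h.symm]
    unfold fi
    rw [if_neg hb]

theorem trans_integrable (P P' : PC E F π) (D : X → E → ℝ)
    (hom : ∀ (x : X) (ξ : E) (r : ℂ), D x (r • ξ) = ‖r‖ ^ 2 * D x ξ) (b : B)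
    (hb : b ∈ (chartAt F P.c).source) (hb' : b ∈ (chartAt F P'.c).source)
    (h0 : ∀ x, π x = b → (x ∉ P.Ψ '' P.O ∨ x ∉ P'.Ψ '' P'.O) → ∀ ξ, D x ξ = 0)
    (hi : Integrable fun w : ℂ => P.O.indicator (fun q => D (P.Ψ q) (dvec E P.Ψ q (0, 1))) (chartAt F P.c b, w)) :
    Integrable fun w : ℂ => P'.O.indicator (fun q => D (P'.Ψ q) (dvec E P'.Ψ q (0, 1))) (chartAt F P'.c b, w) := by
  rw [t_ind P P' D hb h0, integrable_indicator_iff (t_open P P' hb).measurableSet] at hi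
  rw [t_ind P' P D hb' fun x hx h => h0 x hx h.symm,
    integrable_indicator_iff (t_open P' P hb').measurableSet, ← t_image P P' hb hb',
    integrableOn_image_iff_integrableOn_abs_det_fderiv_smul volume (t_open P P' hb).measurableSet
      (fun w hw => (rho_fderiv P P' hb hw).hasFDerivWithinAt) (t_inj P P' hb)]
  exact hi.congr_fun (fun w hw => t_gg P P' D hom hb hw) (t_open P P' hb).measurableSet

end Pool.Agent.FBR
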